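import Pool.Agent.R423.DMV.Base

noncomputable section

open MvPolynomial WithZero

namespace Pool.Agent.R423.DMV

/-! ### DMV-A -/

theorem pow_nine_sub {R : Type} [CommRing R] [CharP R 3] (a b : R) :
    (a - b) ^ 9 = a ^ 9 - b ^ 9 := by
  have h := sub_pow_char_pow (p := 3) (n := 2) (x := a) (y := b)
  norm_num at h
  exact h

theorem pow_three_add {R : Type} [CommRing R] [CharP R 3] (a b : R) :
    (a + b) ^ 3 = a ^ 3 + b ^ 3 := by
  have h := add_pow_char (p := 3) (x := a) (y := b)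
  exact h

theorem moore_pow_nine {R : Type} [CommRing R] [CharP R 3] (u v : R) :
    moore u v ^ 9 = u ^ 9 * v ^ 27 - u ^ 27 * v ^ 9 := by
  rw [moore, pow_nine_sub]
  ring

theorem cramer0 {L : Type} [Field L] [CharP L 3] {t a0 a1 a2 u v : L}
    (h : Tors t 1 a0 a1 a2 u v) :
    a0 * moore u v ^ 9 = (v - t * u - u ^ 3 - a2 * u ^ 81) * v ^ 27
      - (-u - t * v - v ^ 3 - a2 * v ^ 81) * u ^ 27 := by
  obtain ⟨h1, h2⟩ := h
  unfold addPol at h1 h2
  rw [moore_pow_nine]
  linear_combination v ^ 27 * h1 - u ^ 27 * h2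

theorem cramer1 {L : Type} [Field L] [CharP L 3] {t a0 a1 a2 u v : L}
    (h : Tors t 1 a0 a1 a2 u v) :
    a1 * moore u v ^ 9 = (-u - t * v - v ^ 3 - a2 * v ^ 81) * u ^ 9
      - (v - t * u - u ^ 3 - a2 * u ^ 81) * v ^ 9 := by
  obtain ⟨h1, h2⟩ := h
  unfold addPol at h1 h2
  rw [moore_pow_nine]
  linear_combination u ^ 9 * h2 - v ^ 9 * h1

theorem isAlgebraic_of_mul_eq {S L : Type} [CommRing S] [Field L] [Algebra S L]
    (d n : S) (z : L) (hd : algebraMap S L d ≠ 0) (h : z * algebraMap S L d = algebraMap S L n) :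
    IsAlgebraic S z := by
  refine ⟨Polynomial.C d * Polynomial.X - Polynomial.C n, ?_, ?_⟩
  · intro h0
    have := congrArg (fun p => Polynomial.coeff p 1) h0
    simp at this
    exact hd (by rw [this, map_zero])
  · rw [map_sub, map_mul, Polynomial.aeval_C, Polynomial.aeval_C, Polynomial.aeval_X, mul_comm, h,
      sub_self]

theorem psi_injective {k K L : Type} [Field k] [CharP k 3] [Field K] [Field L]
    [Algebra (R3 k) K] [IsFractionRing (R3 k) K] [Algebra K L] [Algebra (R3 k) L]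
    [IsScalarTower (R3 k) K L] [Algebra.IsAlgebraic K L] (t : k) (u v : L)
    (h : Tors (cst t) 1 (jc k 0) (jc k 1) (jc k 2) u v) (hP : moore u v ≠ 0) :
    Function.Injective (Psi (k := k) u v) := by
  let : Algebra k L := ((algebraMap (R3 k) L).comp C).toAlgebra
  have : IsScalarTower k (R3 k) L := IsScalarTower.of_algebraMap_eq (fun x => rfl)
  have hinjRL : FaithfulSMul (R3 k) L := by
    rw [faithfulSMul_iff_algebraMap_injective, IsScalarTower.algebraMap_eq (R3 k) K L]
    exact (algebraMap K L).injective.comp (IsFractionRing.injective (R3 k) K)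
  have : CharP L 3 := charP_of_injective_algebraMap (algebraMap k L).injective 3
  have : Algebra.IsAlgebraic (R3 k) L :=
    (IsFractionRing.comap_isAlgebraic_iff (A := R3 k) (K := K) (C := L)).2 inferInstance
  have hB : IsTranscendenceBasis k (algebraMap (R3 k) L ∘ (X : Fin 3 → R3 k)) :=
    (IsTranscendenceBasis.mvPolynomial (Fin 3) k).algebraMap_comp
  set x : Fin 3 → L := ![u, v, jc k 2] with hx
  have hmem : ∀ i, x i ∈ Algebra.adjoin k (Set.range x) :=
    fun i => Algebra.subset_adjoin ⟨i, rfl⟩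
  have hu : u ∈ Algebra.adjoin k (Set.range x) := hmem 0
  have hv : v ∈ Algebra.adjoin k (Set.range x) := hmem 1
  have hj : (jc k 2 : L) ∈ Algebra.adjoin k (Set.range x) := hmem 2
  have ht : (cst t : L) ∈ Algebra.adjoin k (Set.range x) := Subalgebra.algebraMap_mem _ t
  have hm : moore u v ^ 9 ∈ Algebra.adjoin k (Set.range x) := by
    unfold moore
    exact pow_mem (sub_mem (mul_mem hu (pow_mem hv 3)) (mul_mem (pow_mem hu 3) hv)) 9
  have hA : v - cst t * u - u ^ 3 - jc k 2 * u ^ 81 ∈ Algebra.adjoin k (Set.range x) :=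
    sub_mem (sub_mem (sub_mem hv (mul_mem ht hu)) (pow_mem hu 3)) (mul_mem hj (pow_mem hu 81))
  have hA' : -u - cst t * v - v ^ 3 - jc k 2 * v ^ 81 ∈ Algebra.adjoin k (Set.range x) :=
    sub_mem (sub_mem (sub_mem (neg_mem hu) (mul_mem ht hv)) (pow_mem hv 3))
      (mul_mem hj (pow_mem hv 81))
  have hm0 : moore u v ^ 9 ≠ 0 := pow_ne_zero 9 hP
  have hAlg : Algebra.IsAlgebraic (Algebra.adjoin k (Set.range x)) L := by
    rw [hB.isAlgebraic_iff]
    intro i
    fin_cases i
    · refine isAlgebraic_of_mul_eq (⟨_, hm⟩ : Algebra.adjoin k (Set.range x))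
        ⟨_, sub_mem (mul_mem hA (pow_mem hv 27)) (mul_mem hA' (pow_mem hu 27))⟩ _ hm0 ?_
      exact cramer0 h
    · refine isAlgebraic_of_mul_eq (⟨_, hm⟩ : Algebra.adjoin k (Set.range x))
        ⟨_, sub_mem (mul_mem hA' (pow_mem hu 9)) (mul_mem hA (pow_mem hv 9))⟩ _ hm0 ?_
      exact cramer1 h
    · exact isAlgebraic_algebraMap (⟨_, hj⟩ : Algebra.adjoin k (Set.range x))
  have : FaithfulSMul k L := by
    rw [faithfulSMul_iff_algebraMap_injective]
    exact (algebraMap k L).injective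
  have hT : IsTranscendenceBasis k x := by
    apply Algebra.IsAlgebraic.isTranscendenceBasis_of_le_trdeg_of_finite k x
    rw [← hB.cardinalMk_eq_trdeg]
  exact hT.1

/-- elements of the form `Φ(f/g)` with `f/g` fixed by `sig` -/
def Good {k L : Type} [Field k] [Field L] [Algebra (R3 k) L] (u v x : L) : Prop :=
  ∃ f g : R3 k, g ≠ 0 ∧ x * Psi u v g = Psi u v f ∧ f * sig k g = sig k f * g

theorem Good.add {k L : Type} [Field k] [Field L] [Algebra (R3 k) L] {u v x y : L}
    (hx : Good (k := k) u v x) (hy : Good (k := k) u v y) : Good (k := k) u v (x + y) := by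
  obtain ⟨f, g, hg, h1, h2⟩ := hx
  obtain ⟨f', g', hg', h1', h2'⟩ := hy
  refine ⟨f * g' + f' * g, g * g', mul_ne_zero hg hg', ?_, ?_⟩
  · simp only [map_mul, map_add]
    linear_combination Psi u v g' * h1 + Psi u v g * h1'
  · simp only [map_mul, map_add]
    linear_combination g' * sig k g' * h2 + g * sig k g * h2'

theorem Good.mul {k L : Type} [Field k] [Field L] [Algebra (R3 k) L] {u v x y : L}
    (hx : Good (k := k) u v x) (hy : Good (k := k) u v y) : Good (k := k) u v (x * y) := by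
  obtain ⟨f, g, hg, h1, h2⟩ := hx
  obtain ⟨f', g', hg', h1', h2'⟩ := hy
  refine ⟨f * f', g * g', mul_ne_zero hg hg', ?_, ?_⟩
  · simp only [map_mul]
    linear_combination (y * Psi u v g') * h1 + Psi u v f * h1'
  · simp only [map_mul]
    linear_combination (f' * sig k g') * h2 + (sig k f * g) * h2'

theorem Good.inv {k L : Type} [Field k] [Field L] [Algebra (R3 k) L] {u v x : L}
    (hinj : Function.Injective (Psi (k := k) u v))
    (hx : Good (k := k) u v x) : Good (k := k) u v x⁻¹ := by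
  obtain ⟨f, g, hg, h1, h2⟩ := hx
  by_cases hx0 : x = 0
  · exact ⟨0, 1, one_ne_zero, by simp [hx0], by simp⟩
  · refine ⟨g, f, ?_, ?_, ?_⟩
    · intro hf
      rw [hf, map_zero] at h1
      have hg0 : Psi u v g ≠ 0 := by
        intro h0
        exact hg (hinj (by rw [h0, map_zero]))
      rcases mul_eq_zero.1 h1 with h | h
      · exact hx0 h
      · exact hg0 h
    · rw [← h1, ← mul_assoc, inv_mul_cancel₀ hx0, one_mul]
    · linear_combination -h2

theorem Good.of_fixed {k L : Type} [Field k] [Field L] [Algebra (R3 k) L] {u v : L}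
    (f : R3 k) (hf : sig k f = f) : Good (k := k) u v (Psi u v f) :=
  ⟨f, 1, one_ne_zero, by simp, by simp [hf]⟩

theorem sig_X0 (k : Type) [Field k] : sig k (X 0) = X 0 + X 1 := by simp [sig]
theorem sig_X1 (k : Type) [Field k] : sig k (X 1) = X 1 - X 0 := by simp [sig]
theorem sig_X2 (k : Type) [Field k] : sig k (X 2) = X 2 := by simp [sig]
theorem sig_C (k : Type) [Field k] (c : k) : sig k (C c) = C c := by simp [sig]

theorem Psi_X0 {k L : Type} [Field k] [Field L] [Algebra (R3 k) L] (u v : L) :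
    Psi (k := k) u v (X 0) = u := by simp [Psi]
theorem Psi_X1 {k L : Type} [Field k] [Field L] [Algebra (R3 k) L] (u v : L) :
    Psi (k := k) u v (X 1) = v := by simp [Psi]
theorem Psi_X2 {k L : Type} [Field k] [Field L] [Algebra (R3 k) L] (u v : L) :
    Psi (k := k) u v (X 2) = jc k 2 := by simp [Psi]
theorem Psi_C {k L : Type} [Field k] [Field L] [Algebra (R3 k) L] (u v : L) (c : k) :
    Psi (k := k) u v (C c) = cst c := by simp [Psi, cst]

theorem pow_cube_sums {R : Type} [CommRing R] [CharP R 3] (a b : R) :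
    (a + b) ^ 9 = a ^ 9 + b ^ 9 ∧ (a + b) ^ 27 = a ^ 27 + b ^ 27 ∧
      (a + b) ^ 81 = a ^ 81 + b ^ 81 ∧ (a - b) ^ 3 = a ^ 3 - b ^ 3 ∧
      (a - b) ^ 27 = a ^ 27 - b ^ 27 ∧
      (a - b) ^ 81 = a ^ 81 - b ^ 81 := by
  refine ⟨?_, ?_, ?_, ?_, ?_, ?_⟩
  · have h := add_pow_char_pow (p := 3) (n := 2) (x := a) (y := b)
    norm_num at h
    exact h
  · have h := add_pow_char_pow (p := 3) (n := 3) (x := a) (y := b)
    norm_num at h
    exact h
  · have h := add_pow_char_pow (p := 3) (n := 4) (x := a) (y := b)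
    norm_num at h
    exact h
  · have h := sub_pow_char_pow (p := 3) (n := 1) (x := a) (y := b)
    norm_num at h
    exact h
  · have h := sub_pow_char_pow (p := 3) (n := 3) (x := a) (y := b)
    norm_num at h
    exact h
  · have h := sub_pow_char_pow (p := 3) (n := 4) (x := a) (y := b)
    norm_num at h
    exact h

/-- the polynomial version of `EP` -/
def EP0 (k : Type) [Field k] : Polynomial (R3 k) :=
  Polynomial.X * (Polynomial.X ^ 2 - Polynomial.C ((X 0) ^ 2)) *
    (Polynomial.X ^ 2 - Polynomial.C ((X 1) ^ 2)) *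
    (Polynomial.X ^ 2 - Polynomial.C ((X 0 + X 1) ^ 2)) *
    (Polynomial.X ^ 2 - Polynomial.C ((X 0 - X 1) ^ 2))

theorem EP0_map {k L : Type} [Field k] [Field L] [Algebra (R3 k) L] (u v : L) :
    (EP0 k).map (Psi u v) = EP u v := by
  simp only [EP0, EP, Polynomial.map_mul, Polynomial.map_sub, Polynomial.map_pow,
    Polynomial.map_X, Polynomial.map_C, map_pow, map_add, map_sub, Psi_X0, Psi_X1,
    Polynomial.map_add]

theorem EP0_sig (k : Type) [Field k] [CharP k 3] :
    (EP0 k).map (sig k : R3 k →+* R3 k) = EP0 k := by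
  have h3 : (3 : R3 k) = 0 := by
    have := CharP.cast_eq_zero (R3 k) 3
    exact_mod_cast this
  have h3' : (3 : Polynomial (R3 k)) = 0 := by
    have := CharP.cast_eq_zero (Polynomial (R3 k)) 3
    exact_mod_cast this
  simp only [EP0, Polynomial.map_mul, Polynomial.map_sub, Polynomial.map_pow,
    Polynomial.map_X, Polynomial.map_C, map_pow, map_add, map_sub, RingHom.coe_coe,
    Polynomial.map_add, sig_X0, sig_X1]
  generalize (Polynomial.C (X 0 : R3 k)) = a
  generalize (Polynomial.C (X 1 : R3 k)) = b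
  have e1 : ((a + b + (b - a)) ^ 2 : Polynomial (R3 k)) = b ^ 2 := by
    linear_combination b ^ 2 * h3'
  have e2 : ((a + b - (b - a)) ^ 2 : Polynomial (R3 k)) = a ^ 2 := by
    linear_combination a ^ 2 * h3'
  rw [e1, e2]
  ring

theorem Good.of_X01 {k L : Type} [Field k] [CharP k 3] [Field L] [Algebra (R3 k) L] (t : k)
    (u v : L) (h : Tors (cst t) 1 (jc k 0) (jc k 1) (jc k 2) u v) (hP : moore u v ≠ 0) :
    Good (k := k) u v (jc k 0) ∧ Good (k := k) u v (jc k 1) := by
  have : CharP L 3 :=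
    charP_of_injective_ringHom (f := (algebraMap (R3 k) L).comp C) (RingHom.injective _) 3
  have h3 : (3 : R3 k) = 0 := by
    have := CharP.cast_eq_zero (R3 k) 3
    exact_mod_cast this
  have hm0 : moore u v ^ 9 ≠ 0 := pow_ne_zero 9 hP
  have hD : Psi (k := k) u v ((X 0) ^ 9 * (X 1) ^ 27 - (X 0) ^ 27 * (X 1) ^ 9) = moore u v ^ 9 := by
    rw [moore_pow_nine]
    simp only [map_mul, map_sub, map_pow, Psi_X0, Psi_X1]
  have hD0 : ((X 0) ^ 9 * (X 1) ^ 27 - (X 0) ^ 27 * (X 1) ^ 9 : R3 k) ≠ 0 := by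
    intro h0
    rw [h0, map_zero] at hD
    exact hm0 hD.symm
  obtain ⟨p9, p27, p81, q3, q27, q81⟩ := pow_cube_sums (X 0 : R3 k) (X 1)
  obtain ⟨-, -, -, r3, r27, r81⟩ := pow_cube_sums (X 1 : R3 k) (X 0)
  have p3 := pow_three_add (X 0 : R3 k) (X 1)
  have r9 := pow_nine_sub (X 1 : R3 k) (X 0)
  refine ⟨⟨(X 1 - C t * X 0 - X 0 ^ 3 - X 2 * X 0 ^ 81) * X 1 ^ 27
      - (-X 0 - C t * X 1 - X 1 ^ 3 - X 2 * X 1 ^ 81) * X 0 ^ 27, _, hD0, ?_, ?_⟩,
    ⟨(-X 0 - C t * X 1 - X 1 ^ 3 - X 2 * X 1 ^ 81) * X 0 ^ 9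
      - (X 1 - C t * X 0 - X 0 ^ 3 - X 2 * X 0 ^ 81) * X 1 ^ 9, _, hD0, ?_, ?_⟩⟩
  · rw [hD, cramer0 h]
    simp only [map_mul, map_sub, map_pow, map_neg, Psi_X0, Psi_X1, Psi_X2, Psi_C]
  · simp only [map_mul, map_sub, map_pow, map_neg, sig_X0, sig_X1, sig_X2, sig_C, p9, p27, p81, p3,
      r3, r9, r27, r81]
    generalize (X 0 : R3 k) = a
    generalize (X 1 : R3 k) = b
    generalize (X 2 : R3 k) = c
    generalize (C t : R3 k) = d
    ring
  · rw [hD, cramer1 h]
    simp only [map_mul, map_sub, map_pow, map_neg, Psi_X0, Psi_X1, Psi_X2, Psi_C]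
  · simp only [map_mul, map_sub, map_pow, map_neg, sig_X0, sig_X1, sig_X2, sig_C, p9, p27, p81, p3,
      r3, r9, r27, r81]
    generalize (X 0 : R3 k) = a
    generalize (X 1 : R3 k) = b
    generalize (X 2 : R3 k) = c
    generalize (C t : R3 k) = d
    ring

theorem exists_frac_of_mem {k K L : Type} [Field k] [CharP k 3] [Field K] [Field L]
    [Algebra (R3 k) K] [IsFractionRing (R3 k) K] [Algebra K L] [Algebra (R3 k) L]
    [IsScalarTower (R3 k) K L] (t : k) (u v : L)
    (h : Tors (cst t) 1 (jc k 0) (jc k 1) (jc k 2) u v) (hP : moore u v ≠ 0)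
    (hinj : Function.Injective (Psi (k := k) u v)) (x : L)
    (hx : x ∈ IntermediateField.adjoin K {x : L | ∃ i : ℕ, x = (EP u v).coeff i}) :
    ∃ f g : R3 k, g ≠ 0 ∧ x * Psi u v g = Psi u v f ∧ f * sig k g = sig k f * g := by
  change Good (k := k) u v x
  obtain ⟨hj0, hj1⟩ := Good.of_X01 t u v h hP
  have hj2 : Good (k := k) u v (jc k 2 : L) := by
    have := Good.of_fixed (u := u) (v := v) (X 2 : R3 k) (sig_X2 k)
    rwa [Psi_X2] at this
  have hR : ∀ a : R3 k, Good (k := k) u v (algebraMap (R3 k) L a) := by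
    intro a
    induction a using MvPolynomial.induction_on with
    | C c =>
      have := Good.of_fixed (u := u) (v := v) (C c : R3 k) (sig_C k c)
      rwa [Psi_C] at this
    | add p q hp hq => rw [map_add]; exact hp.add hq
    | mul_X p i hp =>
      rw [map_mul]
      refine hp.mul ?_
      fin_cases i
      · exact hj0
      · exact hj1
      · exact hj2
  induction hx using IntermediateField.adjoin_induction with
  | mem y hy =>
    obtain ⟨i, rfl⟩ := hy
    rw [← EP0_map (k := k), Polynomial.coeff_map]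
    apply Good.of_fixed
    have := congrArg (fun p => Polynomial.coeff p i) (EP0_sig k)
    simp only [Polynomial.coeff_map] at this
    exact this
  | algebraMap y =>
    obtain ⟨a, b, hb, rfl⟩ := IsFractionRing.div_surjective (A := R3 k) y
    rw [map_div₀, div_eq_mul_inv, ← IsScalarTower.algebraMap_apply,
      ← IsScalarTower.algebraMap_apply]
    exact (hR a).mul ((hR b).inv hinj)
  | add y z _ _ hy hz => exact hy.add hz
  | inv y _ hy => exact hy.inv hinj
  | mul y z _ _ hy hz => exact hy.mul hz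

end Pool.Agent.R423.DMV
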