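import Pool.Agent.R423.DMV.Base

/-!
# DMV-B: ultrametric estimates for torsion points
-/

noncomputable section

open MvPolynomial WithZero

namespace Pool.Agent.R423.DMV

section

variable {L Γ : Type} [Field L] [LinearOrderedCommGroupWithZero Γ] (ν : Valuation L Γ)

theorem addPol_neg (t b1 b2 b3 b4 x : L) : addPol t b1 b2 b3 b4 (-x) = -addPol t b1 b2 b3 b4 x := by
  unfold addPol; ring

theorem tors_swap {t b1 b2 b3 b4 u v : L} (h : Tors t b1 b2 b3 b4 u v) :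
    Tors t b1 b2 b3 b4 v (-u) :=
  ⟨h.2, by rw [addPol_neg, h.1]⟩

theorem tors_ne {t b1 b2 b3 b4 u v : L} (h : Tors t b1 b2 b3 b4 u v) (hu : u ≠ 0) : v ≠ 0 := by
  intro hv
  apply hu
  have h2 := h.2
  rw [hv] at h2
  have h3 : addPol t b1 b2 b3 b4 (0 : L) = 0 := by unfold addPol; ring
  rw [h3] at h2
  exact (neg_eq_zero.1 h2.symm)

/-- the terms of degree at least three -/
def hi (b1 b2 b3 b4 x : L) : L := b1 * x ^ 3 + b2 * x ^ 9 + b3 * x ^ 27 + b4 * x ^ 81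

theorem addPol_eq (t b1 b2 b3 b4 x : L) : addPol t b1 b2 b3 b4 x = t * x + hi b1 b2 b3 b4 x := by
  unfold addPol hi; ring

variable {ν}

theorem val_mul_pow_le {b x : L} {g : Γ} (hb : ν b ≤ 1) (n : ℕ) (hx : ν x ^ n ≤ g) :
    ν (b * x ^ n) ≤ g := by
  rw [map_mul, map_pow]
  calc ν b * ν x ^ n ≤ 1 * ν x ^ n := by gcongr
    _ = ν x ^ n := one_mul _
    _ ≤ g := hx

theorem hi_le {b1 b2 b3 b4 x : L} (h1 : ν b1 ≤ 1) (h2 : ν b2 ≤ 1) (h3 : ν b3 ≤ 1)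
    (h4 : ν b4 ≤ 1) (hx : ν x ≤ 1) : ν (hi b1 b2 b3 b4 x) ≤ ν x ^ 3 := by
  unfold hi
  have k : ∀ n, 3 ≤ n → ν x ^ n ≤ ν x ^ 3 := fun n hn => pow_le_pow_right_of_le_one' hx hn
  refine Valuation.map_add_le _ (Valuation.map_add_le _ (Valuation.map_add_le _ ?_ ?_) ?_) ?_
  · exact val_mul_pow_le h1 _ le_rfl
  · exact val_mul_pow_le h2 _ (k 9 (by norm_num))
  · exact val_mul_pow_le h3 _ (k 27 (by norm_num))
  · exact val_mul_pow_le h4 _ (k 81 (by norm_num))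

/-- integral torsion points are units -/
theorem unit_of_le_aux {t b1 b2 b3 b4 u v : L} (ht : ν t ≤ 1) (ht' : ν (t ^ 2 + 1) = 1)
    (h1 : ν b1 ≤ 1) (h2 : ν b2 ≤ 1) (h3 : ν b3 ≤ 1) (h4 : ν b4 ≤ 1) (hu : u ≠ 0)
    (h : Tors t b1 b2 b3 b4 u v) (hu1 : ν u ≤ 1) : ν u = 1 := by
  by_contra hne
  have hlt : ν u < 1 := lt_of_le_of_ne hu1 hne
  have hpos : 0 < ν u := zero_lt_iff.2 ((Valuation.ne_zero_iff _).2 hu)
  have e1 : v = t * u + hi b1 b2 b3 b4 u := by rw [← addPol_eq]; exact h.1.symm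
  have e2 : -u = t * v + hi b1 b2 b3 b4 v := by rw [← addPol_eq]; exact h.2.symm
  have k1 := hi_le h1 h2 h3 h4 hu1
  have k3 : ν u ^ 3 ≤ ν u := by
    calc ν u ^ 3 ≤ ν u ^ 1 := pow_le_pow_right_of_le_one' hu1 (by norm_num)
      _ = ν u := pow_one _
  have ktu : ν (t * u) ≤ ν u := by
    rw [map_mul]
    calc ν t * ν u ≤ 1 * ν u := by gcongr
      _ = ν u := one_mul _
  have k2 : ν v ≤ ν u := by
    rw [e1]
    exact Valuation.map_add_le _ ktu (k1.trans k3)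
  have k4 : ν (hi b1 b2 b3 b4 v) ≤ ν u ^ 3 :=
    (hi_le h1 h2 h3 h4 (k2.trans hu1)).trans (pow_le_pow_left' k2 3)
  have e3 : (t ^ 2 + 1) * u = -(hi b1 b2 b3 b4 v) + -(t * hi b1 b2 b3 b4 u) := by
    have e4 : hi b1 b2 b3 b4 v = -u - t * v := by rw [e2]; ring
    have e5 : hi b1 b2 b3 b4 u = v - t * u := by rw [e1]; ring
    rw [e4, e5]; ring
  have k5 : ν ((t ^ 2 + 1) * u) ≤ ν u ^ 3 := by
    rw [e3]
    refine Valuation.map_add_le _ ?_ ?_
    · rw [Valuation.map_neg]; exact k4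
    · rw [Valuation.map_neg, map_mul]
      calc ν t * ν (hi b1 b2 b3 b4 u) ≤ 1 * ν u ^ 3 := by gcongr
        _ = ν u ^ 3 := one_mul _
  rw [map_mul, ht', one_mul] at k5
  have k6 : ν u ^ 3 < ν u := by
    have : ν u ^ 2 < 1 := pow_lt_one₀ hpos.le hlt (by norm_num)
    calc ν u ^ 3 = ν u ^ 2 * ν u := by rw [pow_succ]
      _ < 1 * ν u := by
        exact mul_lt_mul_of_pos_right this hpos
      _ = ν u := one_mul _
  exact absurd k5 (not_le.2 k6)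

theorem unit_of_le {t b1 b2 b3 b4 u v : L} (ht : ν t ≤ 1) (ht' : ν (t ^ 2 + 1) = 1)
    (h1 : ν b1 ≤ 1) (h2 : ν b2 ≤ 1) (h3 : ν b3 ≤ 1) (h4 : ν b4 ≤ 1) (hu : u ≠ 0)
    (h : Tors t b1 b2 b3 b4 u v) (hu1 : ν u ≤ 1) (hv1 : ν v ≤ 1) : ν u = 1 ∧ ν v = 1 :=
  ⟨unit_of_le_aux ht ht' h1 h2 h3 h4 hu h hu1,
    unit_of_le_aux ht ht' h1 h2 h3 h4 (tors_ne h hu) (tors_swap h) hv1⟩

theorem one_lt_pow_of {x : Γ} (hx : 1 < x) {n : ℕ} (hn : n ≠ 0) : 1 < x ^ n :=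
  one_lt_pow' hx hn

theorem pow_lt_pow_of {x : Γ} (hx : 1 < x) {m n : ℕ} (h : m < n) : x ^ m < x ^ n :=
  pow_lt_pow_right₀ hx h

/-- the sum of the first four terms, for a large argument -/
theorem lo_le {t b1 b2 b3 x : L} (ht : ν t ≤ 1) (h1 : ν b1 ≤ 1) (h2 : ν b2 ≤ 1)
    (h3 : ν b3 ≤ 1) (hx : 1 < ν x) :
    ν (t * x + b1 * x ^ 3 + b2 * x ^ 9 + b3 * x ^ 27) ≤ ν x ^ 27 := by
  have k : ∀ n, n < 27 → ν x ^ n ≤ ν x ^ 27 := fun n hn => (pow_lt_pow_of hx hn).le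
  refine Valuation.map_add_le _ (Valuation.map_add_le _ (Valuation.map_add_le _ ?_ ?_) ?_) ?_
  · have := val_mul_pow_le (x := x) ht 1 (k 1 (by norm_num))
    rwa [pow_one] at this
  · exact val_mul_pow_le h1 _ (k 3 (by norm_num))
  · exact val_mul_pow_le h2 _ (k 9 (by norm_num))
  · exact val_mul_pow_le h3 _ le_rfl

theorem big_aux {t b1 b2 b3 b4 u v : L} (ht : ν t ≤ 1)
    (h1 : ν b1 ≤ 1) (h2 : ν b2 ≤ 1) (h3 : ν b3 ≤ 1) (h4 : ν b4 = 1)
    (h : addPol t b1 b2 b3 b4 u = v) (hu1 : 1 < ν u) (hv : ν v ≤ ν u) : False := by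
  have k1 := lo_le ht h1 h2 h3 hu1
  have k2 : ν (b4 * u ^ 81) = ν u ^ 81 := by rw [map_mul, map_pow, h4, one_mul]
  have k3 : ν (t * u + b1 * u ^ 3 + b2 * u ^ 9 + b3 * u ^ 27) < ν (b4 * u ^ 81) := by
    rw [k2]; exact k1.trans_lt (pow_lt_pow_of hu1 (by norm_num))
  have k4 : ν v = ν u ^ 81 := by
    rw [← h]
    unfold addPol
    rw [Valuation.map_add_eq_of_lt_right _ k3, k2]
  have k5 : ν u ^ 1 < ν u ^ 81 := pow_lt_pow_of hu1 (by norm_num)
  rw [pow_one, ← k4] at k5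
  exact absurd hv (not_le.2 k5)

end

theorem good_reduction {L Γ : Type} [Field L] [LinearOrderedCommGroupWithZero Γ]
    (ν : Valuation L Γ) (t b1 b2 b3 b4 u v : L) (ht : ν t ≤ 1) (ht' : ν (t ^ 2 + 1) = 1)
    (h1 : ν b1 ≤ 1) (h2 : ν b2 ≤ 1) (h3 : ν b3 ≤ 1) (h4 : ν b4 = 1) (hu : u ≠ 0)
    (h : Tors t b1 b2 b3 b4 u v) : ν u = 1 ∧ ν v = 1 := by
  have hle : ν u ≤ 1 ∧ ν v ≤ 1 := by
    rcases le_total (ν v) (ν u) with hvu | huv
    · have : ν u ≤ 1 := by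
        by_contra hc
        exact big_aux ht h1 h2 h3 h4 h.1 (not_le.1 hc) hvu
      exact ⟨this, hvu.trans this⟩
    · have : ν v ≤ 1 := by
        by_contra hc
        exact big_aux ht h1 h2 h3 h4 h.2 (not_le.1 hc) (by rw [Valuation.map_neg]; exact huv)
      exact ⟨huv.trans this, this⟩
  exact unit_of_le ht ht' h1 h2 h3 h4.le hu h hle.1 hle.2

theorem infty_reduction {L Γ : Type} [Field L] [IsAlgClosed L]
    [LinearOrderedCommGroupWithZero Γ]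
    (ν : Valuation L Γ) (t b2 b3 b4 u v : L) (ht : ν t ≤ 1) (ht' : ν (t ^ 2 + 1) = 1)
    (γ : Γ) (hγ : 1 < γ) (h2 : ν b2 = γ ^ 4) (h3 : ν b3 = γ ^ 13) (h4 : ν b4 = γ ^ 40)
    (hu : u ≠ 0) (h : Tors t 1 b2 b3 b4 u v) : ν u ^ 2 * γ = 1 ∧ ν v ^ 2 * γ = 1 := by
  have hγ0 : γ ≠ 0 := (zero_lt_one.trans hγ).ne'
  have hb4 : b4 ≠ 0 := by
    rw [← Valuation.ne_zero_iff ν, h4]; exact pow_ne_zero _ hγ0
  obtain ⟨θ, hθ⟩ := IsAlgClosed.exists_pow_nat_eq b4⁻¹ (n := 80) (by norm_num)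
  have hθ0 : θ ≠ 0 := by
    rintro rfl
    rw [zero_pow (by norm_num)] at hθ
    exact inv_ne_zero hb4 hθ.symm
  have hθ1 : b4 * θ ^ 80 = 1 := by rw [hθ, mul_inv_cancel₀ hb4]
  have k1 : (ν θ ^ 2 * γ) ^ 40 = 1 := by
    have := congrArg ν hθ1
    rw [map_mul, map_pow, h4, map_one] at this
    rw [mul_pow, ← pow_mul, mul_comm]
    exact this
  have k2 : ν θ ^ 2 * γ = 1 := (pow_eq_one_iff.1 k1).resolve_right (by norm_num)
  have e : ∀ x : L, addPol t (θ ^ 2) (b2 * θ ^ 8) (b3 * θ ^ 26) (b4 * θ ^ 80) (x / θ) =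
      addPol t 1 b2 b3 b4 x / θ := by
    intro x
    unfold addPol
    field_simp
  have hT : Tors t (θ ^ 2) (b2 * θ ^ 8) (b3 * θ ^ 26) (b4 * θ ^ 80) (u / θ) (v / θ) :=
    ⟨by rw [e, h.1], by rw [e, h.2, neg_div]⟩
  have g := good_reduction ν t (θ ^ 2) (b2 * θ ^ 8) (b3 * θ ^ 26) (b4 * θ ^ 80) (u / θ) (v / θ)
    ht ht' ?_ ?_ ?_ ?_ (div_ne_zero hu hθ0) hT
  · have hνθ : ν θ ≠ 0 := (Valuation.ne_zero_iff _).2 hθ0
    have g1 : ν u = ν θ := by
      have := g.1; rw [map_div₀, div_eq_one_iff_eq hνθ] at this; exact this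
    have g2 : ν v = ν θ := by
      have := g.2; rw [map_div₀, div_eq_one_iff_eq hνθ] at this; exact this
    rw [g1, g2]; exact ⟨k2, k2⟩
  · rw [map_pow]
    calc ν θ ^ 2 = ν θ ^ 2 * 1 := (mul_one _).symm
      _ ≤ ν θ ^ 2 * γ := by gcongr
      _ = 1 := k2
  · rw [map_mul, map_pow, h2]
    have : γ ^ 4 * ν θ ^ 8 = (ν θ ^ 2 * γ) ^ 4 := by rw [mul_pow, ← pow_mul, mul_comm]
    rw [this, k2, one_pow]
  · rw [map_mul, map_pow, h3]
    have : γ ^ 13 * ν θ ^ 26 = (ν θ ^ 2 * γ) ^ 13 := by rw [mul_pow, ← pow_mul, mul_comm]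
    rw [this, k2, one_pow]
  · rw [hθ1, map_one]

section cusp

variable {L Γ : Type} [Field L] [LinearOrderedCommGroupWithZero Γ] {ν : Valuation L Γ}

/-- the possible values at a cusp -/
def CV (n x : Γ) : Prop := x ^ 54 * n = 1 ∨ x ^ 1458 * n = 1

theorem cusp_pair_aux {t b2 b3 b4 w w' : L} (ht : ν t ≤ 1)
    (h2 : ν b2 ≤ 1) (h3 : ν b3 = 1) (h4 : ν b4 < 1) (h4' : b4 ≠ 0)
    (h : Tors t 1 b2 b3 b4 w w') (hx : 1 < ν w) (hxx : ν w' ≤ ν w) :
    CV (ν b4) (ν w) ∧ CV (ν b4) (ν w') := by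
  have hn : ν b4 ≠ 0 := (Valuation.ne_zero_iff _).2 h4'
  have one1 : ν (1 : L) ≤ 1 := by rw [map_one]
  -- the value of `p(w)` for `ν w > 1`
  have lo9 : ∀ y : L, 1 < ν y → ν (t * y + 1 * y ^ 3 + b2 * y ^ 9) < ν y ^ 27 := by
    intro y hy
    have k : ∀ n, n ≤ 9 → ν y ^ n ≤ ν y ^ 9 := fun n hn => pow_le_pow_right₀ hy.le hn
    refine lt_of_le_of_lt ?_ (pow_lt_pow_of hy (show 9 < 27 by norm_num))
    refine Valuation.map_add_le _ (Valuation.map_add_le _ ?_ ?_) ?_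
    · have := val_mul_pow_le (x := y) ht 1 (k 1 (by norm_num))
      rwa [pow_one] at this
    · exact val_mul_pow_le one1 _ (k 3 (by norm_num))
    · exact val_mul_pow_le h2 _ le_rfl
  have hb3 : ∀ y : L, ν (b3 * y ^ 27) = ν y ^ 27 := by
    intro y; rw [map_mul, map_pow, h3, one_mul]
  have hb4 : ∀ y : L, ν (b4 * y ^ 81) = ν b4 * ν y ^ 81 := by
    intro y; rw [map_mul, map_pow]
  have s4 : ∀ y : L, 1 < ν y → ν (t * y + 1 * y ^ 3 + b2 * y ^ 9 + b3 * y ^ 27) = ν y ^ 27 := by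
    intro y hy
    rw [Valuation.map_add_eq_of_lt_right _ (by rw [hb3]; exact lo9 y hy), hb3]
  have hlt27 : ∀ y : L, 1 < ν y → ν y < ν y ^ 27 := by
    intro y hy
    have := pow_lt_pow_of hy (show 1 < 27 by norm_num)
    rwa [pow_one] at this
  have key : ν b4 * ν w ^ 81 = ν w ^ 27 := by
    rcases lt_trichotomy (ν b4 * ν w ^ 81) (ν w ^ 27) with k | k | k
    · exfalso
      have k1 : ν (addPol t 1 b2 b3 b4 w) = ν w ^ 27 := by
        unfold addPol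
        rw [Valuation.map_add_eq_of_lt_left _ (by rw [hb4, s4 w hx]; exact k), s4 w hx]
      rw [h.1] at k1
      have := hlt27 w hx
      rw [← k1] at this
      exact absurd hxx (not_le.2 this)
    · exact k
    · exfalso
      have k1 : ν (addPol t 1 b2 b3 b4 w) = ν b4 * ν w ^ 81 := by
        unfold addPol
        rw [Valuation.map_add_eq_of_lt_right _ (by rw [hb4, s4 w hx]; exact k), hb4]
      rw [h.1] at k1
      have := (hlt27 w hx).trans k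
      rw [← k1] at this
      exact absurd hxx (not_le.2 this)
  have hw27 : ∀ y : L, 1 < ν y → ν y ^ 27 ≠ 0 := fun y hy =>
    pow_ne_zero _ (zero_lt_one.trans hy).ne'
  have c1 : ν w ^ 54 * ν b4 = 1 := by
    have : (ν w ^ 54 * ν b4) * ν w ^ 27 = 1 * ν w ^ 27 := by
      rw [one_mul]
      calc (ν w ^ 54 * ν b4) * ν w ^ 27 = ν b4 * ν w ^ 81 := by
            rw [mul_comm (ν w ^ 54), mul_assoc, ← pow_add]
        _ = _ := key
    exact mul_right_cancel₀ (hw27 w hx) this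
  refine ⟨Or.inl c1, ?_⟩
  have hx' : 1 < ν w' := by
    by_contra hc
    have hc1 : ν w' ≤ 1 := not_lt.1 hc
    have k : ∀ n, ν w' ^ n ≤ 1 := fun n => pow_le_one' hc1 n
    have k1 : ν (addPol t 1 b2 b3 b4 w') ≤ 1 := by
      unfold addPol
      refine Valuation.map_add_le _ (Valuation.map_add_le _ (Valuation.map_add_le _
        (Valuation.map_add_le _ ?_ ?_) ?_) ?_) ?_
      · have := val_mul_pow_le (x := w') ht 1 (k 1)
        rwa [pow_one] at this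
      · exact val_mul_pow_le one1 _ (k _)
      · exact val_mul_pow_le h2 _ (k _)
      · exact val_mul_pow_le h3.le _ (k _)
      · exact val_mul_pow_le h4.le _ (k _)
    rw [h.2, Valuation.map_neg] at k1
    exact absurd hx (not_lt.2 k1)
  rcases eq_or_lt_of_le hxx with e | e
  · rw [e]; exact Or.inl c1
  · right
    have k1 : ν w' ^ 54 * ν b4 < 1 := by
      rw [← c1]
      have : ν w' ^ 54 < ν w ^ 54 := pow_lt_pow_left₀ e (zero_lt_one.trans hx').le (by norm_num)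
      exact mul_lt_mul_of_pos_right this (zero_lt_iff.2 hn)
    have k2 : ν b4 * ν w' ^ 81 < ν w' ^ 27 := by
      have e1 : ν b4 * ν w' ^ 81 = (ν w' ^ 54 * ν b4) * ν w' ^ 27 := by
        rw [mul_comm (ν w' ^ 54), mul_assoc, ← pow_add]
      rw [e1]
      calc (ν w' ^ 54 * ν b4) * ν w' ^ 27 < 1 * ν w' ^ 27 :=
            mul_lt_mul_of_pos_right k1 (zero_lt_iff.2 (hw27 w' hx'))
        _ = _ := one_mul _
    have k3 : ν (addPol t 1 b2 b3 b4 w') = ν w' ^ 27 := by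
      unfold addPol
      rw [Valuation.map_add_eq_of_lt_left _ (by rw [hb4, s4 w' hx']; exact k2), s4 w' hx']
    rw [h.2, Valuation.map_neg] at k3
    have e2 : ν w' ^ 1458 = (ν w' ^ 27) ^ 54 := by rw [← pow_mul]
    rw [e2, ← k3]
    exact c1

theorem cusp_pair {t b2 b3 b4 w w' : L} (ht : ν t ≤ 1) (ht' : ν (t ^ 2 + 1) = 1)
    (h2 : ν b2 ≤ 1) (h3 : ν b3 = 1) (h4 : ν b4 < 1) (h4' : b4 ≠ 0)
    (hw : w ≠ 0) (h : Tors t 1 b2 b3 b4 w w') :
    (ν w = 1 ∧ ν w' = 1) ∨ (CV (ν b4) (ν w) ∧ CV (ν b4) (ν w')) := by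
  by_cases hle : ν w ≤ 1 ∧ ν w' ≤ 1
  · left
    exact unit_of_le ht ht' (by rw [map_one]) h2 h3.le h4.le hw h hle.1 hle.2
  · right
    rcases le_total (ν w') (ν w) with k | k
    · have hx : 1 < ν w := by
        by_contra hc
        exact hle ⟨not_lt.1 hc, k.trans (not_lt.1 hc)⟩
      exact cusp_pair_aux ht h2 h3 h4 h4' h hx k
    · have hx : 1 < ν w' := by
        by_contra hc
        exact hle ⟨k.trans (not_lt.1 hc), not_lt.1 hc⟩
      have := cusp_pair_aux ht h2 h3 h4 h4' (tors_swap h) hx (by rw [Valuation.map_neg]; exact k)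
      rw [Valuation.map_neg] at this
      exact ⟨this.2, this.1⟩

theorem CV.one_lt {n x : Γ} (hn : n < 1) (h : CV n x) : 1 < x := by
  by_contra hc
  have hc1 : x ≤ 1 := not_lt.1 hc
  rcases h with h | h
  · have : x ^ 54 * n < 1 := by
      calc x ^ 54 * n ≤ 1 * n := by gcongr; exact pow_le_one' hc1 _
        _ = n := one_mul _
        _ < 1 := hn
    exact absurd h this.ne
  · have : x ^ 1458 * n < 1 := by
      calc x ^ 1458 * n ≤ 1 * n := by gcongr; exact pow_le_one' hc1 _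
        _ = n := one_mul _
        _ < 1 := hn
    exact absurd h this.ne

theorem CV.exp {n x : Γ} (h : CV n x) : ∃ s : ℕ, Odd s ∧ x ^ 1458 * n ^ s = 1 := by
  rcases h with h | h
  · refine ⟨27, by decide, ?_⟩
    have e : x ^ 1458 * n ^ 27 = (x ^ 54 * n) ^ 27 := by rw [mul_pow, ← pow_mul]
    rw [e, h, one_pow]
  · exact ⟨1, odd_one, by rw [pow_one]; exact h⟩

theorem addPol_add [CharP L 3] (t b2 b3 b4 x y : L) :
    addPol t 1 b2 b3 b4 (x + y) = addPol t 1 b2 b3 b4 x + addPol t 1 b2 b3 b4 y := by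
  have : Fact (Nat.Prime 3) := ⟨Nat.prime_three⟩
  have e1 : (x + y) ^ 3 = x ^ 3 + y ^ 3 := add_pow_char x y 3
  have e2 : (x + y) ^ 9 = x ^ 9 + y ^ 9 := add_pow_char_pow x y 3 2
  have e3 : (x + y) ^ 27 = x ^ 27 + y ^ 27 := add_pow_char_pow x y 3 3
  have e4 : (x + y) ^ 81 = x ^ 81 + y ^ 81 := add_pow_char_pow x y 3 4
  unfold addPol
  rw [e1, e2, e3, e4]; ring

end cusp

theorem cusp_reduction {L Γ : Type} [Field L] [CharP L 3] [LinearOrderedCommGroupWithZero Γ]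
    (ν : Valuation L Γ) (t b2 b3 b4 u v : L) (ht : ν t ≤ 1) (ht' : ν (t ^ 2 + 1) = 1)
    (h2 : ν b2 ≤ 1) (h3 : ν b3 = 1) (h4 : ν b4 < 1) (h4' : b4 ≠ 0)
    (hP : moore u v ≠ 0) (h : Tors t 1 b2 b3 b4 u v) :
    ν (moore u v ^ 2) = 1 ∨
      ∃ s : ℕ, Even s ∧ ν (moore u v ^ 2) ^ 729 * ν b4 ^ s = 1 := by
  have em : moore u v = u * v * (u + v) * (v - u) := by unfold moore; ring
  have hu : u ≠ 0 := by rintro rfl; apply hP; rw [em]; ring
  have hv : v ≠ 0 := by rintro rfl; apply hP; rw [em]; ring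
  have hs : u + v ≠ 0 := by intro h0; apply hP; rw [em, h0]; ring
  have hd : v - u ≠ 0 := by intro h0; apply hP; rw [em, h0]; ring
  have hT2 : Tors t 1 b2 b3 b4 (u + v) (v - u) := by
    constructor
    · rw [addPol_add, h.1, h.2]; ring
    · rw [sub_eq_add_neg, addPol_add, addPol_neg, h.1, h.2]; ring
  have ev : ν (moore u v ^ 2) ^ 729 =
      ν u ^ 1458 * ν v ^ 1458 * ν (u + v) ^ 1458 * ν (v - u) ^ 1458 := by
    rw [em, map_pow, map_mul, map_mul, map_mul, ← pow_mul, mul_pow, mul_pow, mul_pow]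
  have three : (3 : L) = 0 := by
    have := CharP.cast_eq_zero L 3
    exact_mod_cast this
  rcases cusp_pair ht ht' h2 h3 h4 h4' hu h with ⟨c1, c2⟩ | ⟨c1, c2⟩
  · left
    have k1 : ν (u + v) ≤ 1 := Valuation.map_add_le _ c1.le c2.le
    have k2 : ν (v - u) ≤ 1 := Valuation.map_sub_le _ c2.le c1.le
    obtain ⟨c3, c4⟩ := unit_of_le ht ht' (by rw [map_one]) h2 h3.le h4.le hs hT2 k1 k2
    rw [em, map_pow, map_mul, map_mul, map_mul, c1, c2, c3, c4]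
    simp
  · right
    rcases cusp_pair ht ht' h2 h3 h4 h4' hs hT2 with ⟨c3, c4⟩ | ⟨c3, c4⟩
    · exfalso
      have e1 : u = (v - u) - (u + v) := by
        have : (v - u) - (u + v) = u - 3 * u := by ring
        rw [this, three]; ring
      have k1 : ν u ≤ 1 := by
        rw [e1]; exact Valuation.map_sub_le _ c4.le c3.le
      exact absurd (c1.one_lt h4) (not_lt.2 k1)
    · obtain ⟨s1, o1, e1⟩ := c1.exp
      obtain ⟨s2, o2, e2⟩ := c2.exp
      obtain ⟨s3, o3, e3⟩ := c3.exp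
      obtain ⟨s4, o4, e4⟩ := c4.exp
      refine ⟨s1 + s2 + (s3 + s4), (o1.add_odd o2).add (o3.add_odd o4), ?_⟩
      rw [ev, pow_add, pow_add, pow_add]
      calc _ = (ν u ^ 1458 * ν b4 ^ s1) * (ν v ^ 1458 * ν b4 ^ s2) *
            ((ν (u + v) ^ 1458 * ν b4 ^ s3) * (ν (v - u) ^ 1458 * ν b4 ^ s4)) := by
            simp only [mul_assoc, mul_comm, mul_left_comm]
        _ = 1 := by rw [e1, e2, e3, e4]; simp

end Pool.Agent.R423.DMV
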