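import Mathlib

/-!
# Abstract notions used in the disproof of MP_7c5a52_nt

`R3 k = k[X 0, X 1, X 2]` is used in two roles:
* with coordinates `j_2, j_3, j_4` (coordinate ring of the chart `g_1 ≠ 0` of `X_0^4(1)`);
* with coordinates `u, v, a` where `u` is a torsion point, `v = φ_T(u)`, `a = j_4`.
-/

noncomputable section

open MvPolynomial WithZero

namespace Pool.Agent.R423.DMV

/-- polynomial ring in three variables -/
abbrev R3 (k : Type) [Field k] : Type := MvPolynomial (Fin 3) k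

/-- value of the additive polynomial `T X + b1 X^3 + b2 X^9 + b3 X^27 + b4 X^81` -/
def addPol {L : Type} [Field L] (t b1 b2 b3 b4 x : L) : L :=
  t * x + b1 * x ^ 3 + b2 * x ^ 9 + b3 * x ^ 27 + b4 * x ^ 81

/-- `u` is a torsion point for `T^2+1` with `v = φ_T(u)` -/
def Tors {L : Type} [Field L] (t b1 b2 b3 b4 u v : L) : Prop :=
  addPol t b1 b2 b3 b4 u = v ∧ addPol t b1 b2 b3 b4 v = -u

/-- the Moore determinant `u v^3 - u^3 v` -/
def moore {L : Type} [CommRing L] (u v : L) : L := u * v ^ 3 - u ^ 3 * v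

/-- the constant `t`, and the coordinate `j_{i+2}` in an `R3 k`-algebra -/
def cst {k L : Type} [Field k] [Field L] [Algebra (R3 k) L] (t : k) : L := algebraMap (R3 k) L (C t)

def jc (k : Type) {L : Type} [Field k] [Field L] [Algebra (R3 k) L] (i : Fin 3) : L :=
  algebraMap (R3 k) L (X i)

/-- the substitution `f ↦ f(u, v, j_4)` -/
def Psi {k L : Type} [Field k] [Field L] [Algebra (R3 k) L] (u v : L) : R3 k →+* L :=
  eval₂Hom ((algebraMap (R3 k) L).comp C) ![u, v, jc k 2]

/-- the automorphism `u ↦ u + v, v ↦ v - u, a ↦ a` (action of `1 + T`) -/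
def sig (k : Type) [Field k] : R3 k →ₐ[k] R3 k := aeval ![X 0 + X 1, X 1 - X 0, X 2]

/-- the polynomial `∏_{w ∈ C} (X - w)`, `C = F_3 u + F_3 v`, in characteristic 3 -/
def EP {L : Type} [Field L] (u v : L) : Polynomial L :=
  Polynomial.X * (Polynomial.X ^ 2 - Polynomial.C (u ^ 2)) *
    (Polynomial.X ^ 2 - Polynomial.C (v ^ 2)) *
    (Polynomial.X ^ 2 - Polynomial.C ((u + v) ^ 2)) *
    (Polynomial.X ^ 2 - Polynomial.C ((u - v) ^ 2))

/-- `v` is centred at the prime divisor `P = 0` of affine 3-space -/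
def Centred {k E Γ : Type} [Field k] [Field E] [Algebra (R3 k) E]
    [LinearOrderedCommGroupWithZero Γ] (v : Valuation E Γ) (P : R3 k) : Prop :=
  ∀ f : R3 k, v (algebraMap _ E f) ≤ 1 ∧ (v (algebraMap _ E f) < 1 ↔ P ∣ f)

/-- `v` is (a power of) the valuation of the divisor at infinity, for the weights `w` -/
def AtInf {k E Γ : Type} [Field k] [Field E] [Algebra (R3 k) E]
    [LinearOrderedCommGroupWithZero Γ] (w : Fin 3 → ℕ) (v : Valuation E Γ) : Prop :=
  ∃ γ : Γ, 1 < γ ∧ ∀ f : R3 k, f ≠ 0 → v (algebraMap _ E f) = γ ^ (weightedTotalDegree w f)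

end Pool.Agent.R423.DMV
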