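import Pool.Agent.R423.DMV.Base

/-!
DMV-C: extensions of `ℤ`-valued valuations.
-/

set_option autoImplicit false

noncomputable section

open WithZero IsDedekindDomain

namespace Pool.Agent.R423.DMV

namespace ExtC

/-- Two surjective equivalent valuations with values in `ℤᵐ⁰` are equal. -/
lemma eq_of_isEquiv {E : Type} [Field E] (w w' : Valuation E ℤᵐ⁰)
    (hw : Function.Surjective w) (hw' : Function.Surjective w') (h : w.IsEquiv w') : w = w' := by
  obtain ⟨π, hπ⟩ := hw (exp (-1))
  have key : ∀ a : ℤᵐ⁰, a < 1 → a ≤ exp (-1) := by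
    intro a ha
    rcases eq_or_ne a 0 with rfl | ha0
    · exact zero_le
    · obtain ⟨n, rfl⟩ : ∃ n : ℤ, a = exp n := ⟨log a, (exp_log ha0).symm⟩
      rw [← exp_zero, exp_lt_exp] at ha
      rw [exp_le_exp]
      omega
  have h1 : w' π < 1 := by
    rw [← h.lt_one_iff_lt_one, hπ, ← exp_zero, exp_lt_exp]
    norm_num
  obtain ⟨y, hy⟩ := hw' (exp (-1))
  have h2 : w y < 1 := by
    rw [h.lt_one_iff_lt_one, hy, ← exp_zero, exp_lt_exp]
    norm_num
  have h3 : w y ≤ w π := by rw [hπ]; exact key _ h2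
  have h4 : w' y ≤ w' π := (h y π).1 h3
  have h5 : w' π = exp (-1) := le_antisymm (key _ h1) (hy ▸ h4)
  ext x
  rcases eq_or_ne x 0 with rfl | hx
  · simp
  · have h6 : w x ≠ 0 := (Valuation.ne_zero_iff w).2 hx
    obtain ⟨n, hn⟩ : ∃ n : ℤ, w x = exp n := ⟨log (w x), (exp_log h6).symm⟩
    have h7 : w (x * π ^ n) = 1 := by
      rw [map_mul, map_zpow₀, hπ, hn, ← exp_zsmul, ← exp_add, ← exp_zero]
      congr 1
      simp
    have h8 : w' (x * π ^ n) = 1 := by
      rw [← h.eq_one_iff_eq_one]; exact h7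
    rw [map_mul, map_zpow₀, h5, ← exp_zsmul] at h8
    rw [hn]
    have h9 : (exp (n • (-1 : ℤ)) : ℤᵐ⁰) * exp n = 1 := by
      rw [← exp_add, ← exp_zero]
      congr 1
      simp
    calc (exp n : ℤᵐ⁰) = (w' x * exp (n • (-1 : ℤ))) * exp n := by rw [h8, one_mul]
      _ = w' x * (exp (n • (-1 : ℤ)) * exp n) := mul_assoc _ _ _
      _ = w' x := by rw [h9, mul_one]

/-- A valuation centred at a height one prime of a Dedekind domain. -/
lemma isEquiv_valuation {R E Γ : Type} [CommRing R] [IsDedekindDomain R] [Field E] [Algebra R E]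
    [IsFractionRing R E] [LinearOrderedCommGroupWithZero Γ] (w : Valuation E Γ)
    (P : HeightOneSpectrum R) (h1 : ∀ r : R, w (algebraMap R E r) ≤ 1)
    (h2 : ∀ r : R, w (algebraMap R E r) < 1 ↔ r ∈ P.asIdeal) : w.IsEquiv (P.valuation E) := by
  have hle : ∀ x : E, P.valuation E x ≤ 1 → w x ≤ 1 := by
    intro x hx
    obtain ⟨n, d, hnd⟩ := P.exists_primeCompl_mul_eq_of_integer x hx
    have hd : w (algebraMap R E d) = 1 := by
      refine le_antisymm (h1 _) (not_lt.1 fun hlt => d.2 ((h2 _).1 hlt))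
    have h3 : w x * w (algebraMap R E d) ≤ 1 := by
      rw [← map_mul, hnd]; exact h1 n
    rwa [hd, mul_one] at h3
  have hlt : ∀ x : E, P.valuation E x < 1 → w x < 1 := by
    intro x hx
    obtain ⟨n, d, hnd⟩ := P.exists_primeCompl_mul_eq_of_integer x hx.le
    have hd : w (algebraMap R E d) = 1 := by
      refine le_antisymm (h1 _) (not_lt.1 fun hlt => d.2 ((h2 _).1 hlt))
    have hd' : P.valuation E (algebraMap R E d) = 1 := by
      refine le_antisymm (P.valuation_le_one _) (not_lt.1 fun hlt => d.2 ?_)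
      exact (P.valuation_lt_one_iff_mem _).1 hlt
    have hn' : P.valuation E (algebraMap R E n) < 1 := by
      rw [← hnd, map_mul, hd', mul_one]
      exact hx
    have hn : n ∈ P.asIdeal := (P.valuation_lt_one_iff_mem n).1 hn'
    have h3 : w x * w (algebraMap R E d) < 1 := by
      rw [← map_mul, hnd]; exact (h2 n).2 hn
    rwa [hd, mul_one] at h3
  refine Valuation.isEquiv_of_val_le_one fun x => ⟨fun hx => ?_, hle x⟩
  by_contra hcon
  push Not at hcon
  have hx0 : x ≠ 0 := by
    rintro rfl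
    simp at hcon
  have h3 : P.valuation E x⁻¹ < 1 := by
    rw [map_inv₀]
    exact inv_lt_one_of_one_lt₀ hcon
  have h4 := hlt _ h3
  rw [map_inv₀] at h4
  have h5 : 0 < w x := zero_lt_iff.2 ((Valuation.ne_zero_iff w).2 hx0)
  exact absurd hx (not_le.2 ((inv_lt_one₀ h5).1 h4))

lemma nontriv {K : Type} [Field K] (v0 : Valuation K ℤᵐ⁰) (h : ∃ x : K, x ≠ 0 ∧ v0 x ≠ 1) :
    Nontrivial (MonoidWithZeroHom.valueGroup (.ofClass v0)) := by
  obtain ⟨x, hx, hx1⟩ := h
  have : v0.IsNontrivial := ⟨x, (Valuation.ne_zero_iff v0).2 hx, hx1⟩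
  infer_instance

lemma exists_lt {K : Type} [Field K] {Γ : Type} [LinearOrderedCommGroupWithZero Γ]
    (v0 : Valuation K Γ) (h : ∃ x : K, x ≠ 0 ∧ v0 x ≠ 1) :
    ∃ x : K, x ≠ 0 ∧ v0 x < 1 := by
  obtain ⟨x, hx, hx1⟩ := h
  rcases lt_or_gt_of_ne hx1 with h1 | h1
  · exact ⟨x, hx, h1⟩
  · refine ⟨x⁻¹, inv_ne_zero hx, ?_⟩
    rw [map_inv₀]
    exact inv_lt_one_of_one_lt₀ h1

/-- The discrete valuation ring of a nontrivial valuation. -/
lemma dvr {K : Type} [Field K] (v0 : Valuation K ℤᵐ⁰) (h : ∃ x : K, x ≠ 0 ∧ v0 x ≠ 1) :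
    IsDiscreteValuationRing v0.valuationSubring := by
  have := nontriv v0 h
  infer_instance

lemma mem_max {K : Type} [Field K] {Γ : Type} [LinearOrderedCommGroupWithZero Γ]
    (v0 : Valuation K Γ) (a : v0.valuationSubring) :
    a ∈ IsLocalRing.maximalIdeal v0.valuationSubring ↔ v0 (a : K) < 1 := by
  rw [IsLocalRing.mem_maximalIdeal, mem_nonunits_iff, not_iff_comm, not_lt]
  constructor
  · intro h
    have h1 : v0 (a : K) = 1 := le_antisymm a.2 h
    have ha : (a : K) ≠ 0 := by
      rintro h0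
      rw [h0] at h1
      simp at h1
    refine IsUnit.of_mul_eq_one ⟨(a : K)⁻¹, ?_⟩ ?_
    · rw [Valuation.mem_valuationSubring_iff, map_inv₀, h1, inv_one]
    · exact Subtype.ext (mul_inv_cancel₀ ha)
  · intro h
    obtain ⟨b, hb⟩ := isUnit_iff_exists_inv.1 h
    have h1 : v0 (a : K) * v0 (b : K) = 1 := by
      rw [← map_mul]
      have := congrArg (fun z : v0.valuationSubring => (z : K)) hb
      simp only [MulMemClass.coe_mul, OneMemClass.coe_one] at this
      rw [this, map_one]
    have hb1 : v0 (b : K) ≤ 1 := b.2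
    calc 1 = v0 (a : K) * v0 (b : K) := h1.symm
      _ ≤ v0 (a : K) * 1 := mul_le_mul_right hb1 _
      _ = v0 (a : K) := mul_one _

end ExtC

open ExtC

theorem exists_surjective {E : Type} [Field E] (v : Valuation E ℤᵐ⁰)
    (h : ∃ x : E, x ≠ 0 ∧ v x ≠ 1) :
    ∃ w : Valuation E ℤᵐ⁰, Function.Surjective w ∧ w.IsEquiv v := by
  have hd := dvr v h
  set P : HeightOneSpectrum v.valuationSubring :=
    ⟨IsLocalRing.maximalIdeal _, inferInstance, IsDiscreteValuationRing.not_a_field _⟩ with hP
  refine ⟨P.valuation E, P.valuation_surjective E, (isEquiv_valuation v P ?_ ?_).symm⟩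
  · intro r; exact r.2
  · intro r
    exact (mem_max v r).symm

section

variable {K E : Type} [Field K] [Field E] [Algebra K E]
    [FiniteDimensional K E] [Algebra.IsSeparable K E] (v0 : Valuation K ℤᵐ⁰)

/-- The integral closure. -/
abbrev Bc (E : Type) [Field E] [Algebra K E] (v0 : Valuation K ℤᵐ⁰) : Type :=
  integralClosure v0.valuationSubring E

variable (h : ∃ x : K, x ≠ 0 ∧ v0 x ≠ 1)

include h in
lemma ded : IsDedekindDomain (Bc E v0) := by
  have := dvr v0 h
  exact integralClosure.isDedekindDomain v0.valuationSubring K E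

lemma fracB : IsFractionRing (Bc E v0) E :=
  integralClosure.isFractionRing_of_finite_extension K E

/-- The valuation ring of an extension contains the integral closure. -/
lemma le_one_of_ext {Γ : Type} [LinearOrderedCommGroupWithZero Γ] (w : Valuation E Γ)
    (hw : (w.comap (algebraMap K E)).IsEquiv v0) (b : Bc E v0) : w (b : E) ≤ 1 := by
  by_contra hcon
  push Not at hcon
  obtain ⟨p, hp, hp2⟩ := b.2
  rw [Polynomial.eval₂_eq_sum_range] at hp2
  rw [Finset.sum_range_succ, hp.coeff_natDegree, map_one, one_mul] at hp2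
  set n := p.natDegree
  have hb0 : w (b : E) ≠ 0 := (lt_trans zero_lt_one hcon).ne'
  have h1 : w (∑ i ∈ Finset.range n, (algebraMap v0.valuationSubring E) (p.coeff i) * (b : E) ^ i) <
      w (b : E) ^ n := by
    refine Valuation.map_sum_lt w (pow_ne_zero n hb0) fun i hi => ?_
    rw [map_mul, map_pow]
    have h2 : w (algebraMap v0.valuationSubring E (p.coeff i)) ≤ 1 := by
      have h3 : algebraMap v0.valuationSubring E (p.coeff i) = algebraMap K E (p.coeff i : K) := rfl
      rw [h3]
      have h4 : (w.comap (algebraMap K E)) (p.coeff i : K) ≤ 1 :=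
        (hw.le_one_iff_le_one).2 (p.coeff i).2
      exact h4
    calc _ ≤ 1 * w (b : E) ^ i := mul_le_mul_left h2 _
      _ = w (b : E) ^ i := one_mul _
      _ < w (b : E) ^ n := pow_lt_pow_right₀ hcon (Finset.mem_range.1 hi)
  have h2 : (b : E) ^ n = -(∑ i ∈ Finset.range n,
      (algebraMap v0.valuationSubring E) (p.coeff i) * (b : E) ^ i) := by
    linear_combination hp2
  have h3 : w (b : E) ^ n = w (∑ i ∈ Finset.range n,
      (algebraMap v0.valuationSubring E) (p.coeff i) * (b : E) ^ i) := by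
    rw [← map_pow, h2, Valuation.map_neg]
  rw [h3] at h1
  exact lt_irrefl _ h1

/-- The centre of an extension. -/
def cen {Γ : Type} [LinearOrderedCommGroupWithZero Γ] (w : Valuation E Γ)
    (hw : (w.comap (algebraMap K E)).IsEquiv v0) : Ideal (Bc E v0) where
  carrier := {b | w (b : E) < 1}
  add_mem' {a b} ha hb := by
    change w ((a : E) + (b : E)) < 1
    exact Valuation.map_add_lt w ha hb
  zero_mem' := by
    change w (0 : E) < 1
    rw [map_zero]; exact zero_lt_one
  smul_mem' c b hb := by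
    change w ((c : E) * (b : E)) < 1
    rw [map_mul]
    exact mul_lt_one_of_nonneg_of_lt_one_right (le_one_of_ext v0 w hw c) zero_le hb

lemma mem_cen {Γ : Type} [LinearOrderedCommGroupWithZero Γ] (w : Valuation E Γ)
    (hw : (w.comap (algebraMap K E)).IsEquiv v0) (b : Bc E v0) :
    b ∈ cen v0 w hw ↔ w (b : E) < 1 := Iff.rfl

lemma isPrime_cen {Γ : Type} [LinearOrderedCommGroupWithZero Γ] (w : Valuation E Γ)
    (hw : (w.comap (algebraMap K E)).IsEquiv v0) : (cen v0 w hw).IsPrime := by
  refine ⟨?_, ?_⟩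
  · rw [Ideal.ne_top_iff_one, mem_cen]
    change ¬ w (1 : E) < 1
    rw [map_one]
    exact lt_irrefl _
  · intro a b hab
    rw [mem_cen] at hab
    by_contra hcon
    push Not at hcon
    rw [mem_cen, mem_cen, not_lt, not_lt] at hcon
    have ha := le_antisymm (le_one_of_ext v0 w hw a) hcon.1
    have hb := le_antisymm (le_one_of_ext v0 w hw b) hcon.2
    change w ((a : E) * (b : E)) < 1 at hab
    rw [map_mul, ha, hb, one_mul] at hab
    exact lt_irrefl _ hab

include h in
lemma cen_ne_bot {Γ : Type} [LinearOrderedCommGroupWithZero Γ] (w : Valuation E Γ)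
    (hw : (w.comap (algebraMap K E)).IsEquiv v0) : cen v0 w hw ≠ ⊥ := by
  obtain ⟨x, hx, hx1⟩ := exists_lt v0 h
  intro hbot
  set a : v0.valuationSubring := ⟨x, hx1.le⟩ with ha
  have h1 : algebraMap v0.valuationSubring (Bc E v0) a ∈ cen v0 w hw := by
    rw [mem_cen]
    have h2 : (w.comap (algebraMap K E)) x < 1 := (hw.lt_one_iff_lt_one).2 hx1
    exact h2
  rw [hbot, Ideal.mem_bot] at h1
  have h2 : algebraMap K E x = 0 := congrArg (fun z : Bc E v0 => (z : E)) h1
  exact hx ((map_eq_zero _).1 h2)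

include h in
lemma exists_P {Γ : Type} [LinearOrderedCommGroupWithZero Γ] (w : Valuation E Γ)
    (hw : (w.comap (algebraMap K E)).IsEquiv v0) : ∃ (_ : IsDedekindDomain (Bc E v0))
      (_ : IsFractionRing (Bc E v0) E) (P : HeightOneSpectrum (Bc E v0)),
      w.IsEquiv (P.valuation E) := by
  have h1 := ded (E := E) v0 h
  have h2 := fracB (E := E) v0
  refine ⟨h1, h2, ⟨cen v0 w hw, isPrime_cen v0 w hw, cen_ne_bot v0 h w hw⟩, ?_⟩
  exact isEquiv_valuation w _ (le_one_of_ext v0 w hw) fun r => Iff.rfl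

include h in
lemma finite_hos : Finite (HeightOneSpectrum (Bc E v0)) := by
  have h1 := ded (E := E) v0 h
  have h2 := fracB (E := E) v0
  have h3 := dvr v0 h
  set m := IsLocalRing.maximalIdeal v0.valuationSubring with hm
  have h4 : Algebra.IsIntegral v0.valuationSubring (Bc E v0) := inferInstance
  have h5 : (m.primesOver (Bc E v0)).Finite := IsDedekindDomain.primesOver_finite m (Bc E v0)
  have : Finite (m.primesOver (Bc E v0)) := h5
  refine Finite.of_injective (β := m.primesOver (Bc E v0))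
    (fun P => ⟨P.asIdeal, P.isPrime, ⟨?_⟩⟩) ?_
  · have h6 : (P.asIdeal.under v0.valuationSubring).IsPrime := inferInstance
    have h7 : P.asIdeal.under v0.valuationSubring ≠ ⊥ := mt Ideal.eq_bot_of_comap_eq_bot P.ne_bot
    have h8 : (P.asIdeal.under v0.valuationSubring).IsMaximal := h6.isMaximal h7
    exact (IsLocalRing.eq_maximalIdeal h8).symm
  · intro P Q hPQ
    have := congrArg (fun z : m.primesOver (Bc E v0) => (z : Ideal (Bc E v0))) hPQ
    exact HeightOneSpectrum.ext this

end

theorem finite_extensions {K E : Type} [Field K] [Field E] [Algebra K E]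
    [FiniteDimensional K E] [Algebra.IsSeparable K E] (v0 : Valuation K ℤᵐ⁰)
    (h : ∃ x : K, x ≠ 0 ∧ v0 x ≠ 1) :
    {w : Valuation E ℤᵐ⁰ | Function.Surjective w ∧
      (w.comap (algebraMap K E)).IsEquiv v0}.Finite := by
  have h1 := ded (E := E) v0 h
  have h2 := fracB (E := E) v0
  have h3 := finite_hos (E := E) v0 h
  refine (Set.finite_range fun P : HeightOneSpectrum (Bc E v0) => P.valuation E).subset ?_
  rintro w ⟨hs, hw⟩
  obtain ⟨_, _, P, hP⟩ := exists_P v0 h w hw
  exact ⟨P, (eq_of_isEquiv w _ hs (P.valuation_surjective E) hP).symm⟩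

theorem exists_extension {K E : Type} [Field K] [Field E] [Algebra K E]
    [FiniteDimensional K E] [Algebra.IsSeparable K E] (v0 : Valuation K ℤᵐ⁰)
    (h : ∃ x : K, x ≠ 0 ∧ v0 x ≠ 1) :
    ∃ w : Valuation E ℤᵐ⁰, Function.Surjective w ∧
      (w.comap (algebraMap K E)).IsEquiv v0 := by
  have h1 := ded (E := E) v0 h
  have h2 := fracB (E := E) v0
  have h3 := dvr v0 h
  set m := IsLocalRing.maximalIdeal v0.valuationSubring with hm
  have h6 : Function.Injective (algebraMap v0.valuationSubring (Bc E v0)) := by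
    intro a b hab
    have := congrArg (fun z : Bc E v0 => (z : E)) hab
    exact Subtype.ext ((algebraMap K E).injective this)
  have hfs : FaithfulSMul v0.valuationSubring (Bc E v0) :=
    (faithfulSMul_iff_algebraMap_injective _ _).2 h6
  obtain ⟨Q, hQ, hQm⟩ := Ideal.exists_maximal_ideal_liesOver_of_isIntegral (S := Bc E v0) m
  have hQ0 : Q ≠ ⊥ := by
    rintro rfl
    have h4 : m = (⊥ : Ideal (Bc E v0)).under v0.valuationSubring := hQm.over
    have h5 : m ≠ ⊥ := IsDiscreteValuationRing.not_a_field _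
    apply h5
    rw [h4]
    exact Ideal.comap_bot_of_injective _ h6
  set P : HeightOneSpectrum (Bc E v0) := ⟨Q, hQ.isPrime, hQ0⟩ with hP
  have hmem : ∀ a : v0.valuationSubring, (P.valuation E) (algebraMap K E (a : K)) < 1 ↔
      v0 (a : K) < 1 := by
    intro a
    have h4 : algebraMap K E (a : K) = algebraMap (Bc E v0) E
        (algebraMap v0.valuationSubring (Bc E v0) a) := rfl
    rw [h4, P.valuation_lt_one_iff_mem, ← mem_max v0 a]
    change _ ∈ Q ↔ _
    have h5 : m = Q.under v0.valuationSubring := hQm.over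
    rw [← hm, h5]
    rfl
  refine ⟨P.valuation E, P.valuation_surjective E, Valuation.isEquiv_of_val_le_one fun x => ?_⟩
  rw [Valuation.comap_apply]
  constructor
  · intro hx
    by_contra hcon
    push Not at hcon
    have hx0 : x ≠ 0 := by rintro rfl; simp at hcon
    have h4 : v0 x⁻¹ < 1 := by
      rw [map_inv₀]
      exact inv_lt_one_of_one_lt₀ hcon
    have h5 := (hmem ⟨x⁻¹, h4.le⟩).2 h4
    simp only [map_inv₀] at h5
    have h6 : 0 < (P.valuation E) (algebraMap K E x) :=
      zero_lt_iff.2 ((Valuation.ne_zero_iff _).2 ((map_ne_zero _).2 hx0))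
    exact absurd hx (not_le.2 ((inv_lt_one₀ h6).1 h5))
  · intro hx
    have h4 : algebraMap K E x = algebraMap (Bc E v0) E
        (algebraMap v0.valuationSubring (Bc E v0) ⟨x, hx⟩) := rfl
    rw [h4]
    exact P.valuation_le_one _

theorem exists_extension_big {E L : Type} [Field E] [Field L] [Algebra E L]
    {Γ₀ : Type} [LinearOrderedCommGroupWithZero Γ₀] (v : Valuation E Γ₀) :
    ∃ (Γ : Type) (_ : LinearOrderedCommGroupWithZero Γ) (ν : Valuation L Γ),
      (ν.comap (algebraMap E L)).IsEquiv v := by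
  obtain ⟨V, hV⟩ := (v.valuationSubring.toLocalSubring.map (algebraMap E L)).exists_le_valuationSubring
  obtain ⟨hle, hloc⟩ := hV
  refine ⟨V.ValueGroup, inferInstance, V.valuation, Valuation.isEquiv_of_val_le_one fun x => ?_⟩
  rw [Valuation.comap_apply]
  have hmem : ∀ y : E, v y ≤ 1 → algebraMap E L y ∈ V := fun y hy =>
    hle ⟨y, hy, rfl⟩
  constructor
  · intro hx
    by_contra hcon
    push Not at hcon
    have hx0 : x ≠ 0 := by rintro rfl; simp at hcon
    have h4 : v x⁻¹ < 1 := by
      rw [map_inv₀]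
      exact inv_lt_one_of_one_lt₀ hcon
    set A := v.valuationSubring.toLocalSubring.map (algebraMap E L) with hA
    have hxV : algebraMap E L x ∈ V := (V.valuation_le_one_iff _).1 hx
    set a' : A.toSubring := ⟨algebraMap E L x⁻¹, ⟨x⁻¹, h4.le, rfl⟩⟩ with ha'
    have hu : IsUnit (Subring.inclusion hle a') := by
      refine IsUnit.of_mul_eq_one ⟨algebraMap E L x, hxV⟩ ?_
      refine Subtype.ext ?_
      change algebraMap E L x⁻¹ * algebraMap E L x = 1
      rw [← map_mul, inv_mul_cancel₀ hx0, map_one]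
    obtain ⟨b', hb'⟩ := isUnit_iff_exists_inv.1 (hloc.map_nonunit a' hu)
    obtain ⟨y, hy, hyb⟩ := b'.2
    have h5 : algebraMap E L x⁻¹ * algebraMap E L y = 1 := by
      have := congrArg (fun z : A.toSubring => (z : L)) hb'
      change algebraMap E L x⁻¹ * (b' : L) = 1 at this
      rw [← hyb] at this
      exact this
    rw [← map_mul, ← map_one (algebraMap E L)] at h5
    have h6 := (algebraMap E L).injective h5
    have h7 : y = x := by
      field_simp at h6
      exact h6
    rw [h7] at hy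
    exact absurd hy (not_le.2 hcon)
  · intro hx
    exact (V.valuation_le_one_iff _).2 (hmem x hx)

end Pool.Agent.R423.DMV
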