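import Mathlib

/-!
# Drinfeld modular varieties `X_0^r(n)`: function field, prime divisors, class group

`r = m + 1 ≥ 2`.  A Drinfeld module of rank `r` over `Fq[T]` with `g_1 ≠ 0` is isomorphic, over a
separably closed field, to one with `g_1 = 1`, and the coordinate ring of this chart of
`X_0^r(1) = Proj F^sep[g_1, ..., g_r]` (weights `q^i - 1`) is the polynomial ring in
`j_i = g_i / g_1^((q^i-1)/(q-1))`, `2 ≤ i ≤ r`.
-/

noncomputable section

open Polynomial WithZero

namespace Pool.Agent.R423.DMV

/-- A separable closure `k = F^sep` of `F = Fq(T)`, the function field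
`K = k(j_2, ..., j_{m+1})` of `X_0^{m+1}(1)` over `F^sep`, and an algebraic closure `L` of `K`.
The variable with index `i : Fin m` is `j_{i+2}`. -/
structure Model (Fq : Type) [Field Fq] (m : ℕ) where
  /-- `F^sep` -/
  k : Type
  /-- the function field of `X_0^r(1)` over `F^sep` -/
  K : Type
  /-- an algebraic closure of `K` -/
  L : Type
  [fk : Field k]
  [ak : Algebra (RatFunc Fq) k]
  [sk : IsSepClosure (RatFunc Fq) k]
  [fK : Field K]
  [aK : Algebra (MvPolynomial (Fin m) k) K]
  [rK : IsFractionRing (MvPolynomial (Fin m) k) K]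
  [fL : Field L]
  [aL : Algebra K L]
  [cL : IsAlgClosure K L]

attribute [instance] Model.fk Model.ak Model.sk Model.fK Model.aK Model.rK Model.fL Model.aL
  Model.cL

variable {Fq : Type} [Field Fq] [Fintype Fq] {m : ℕ} (S : Model Fq m)

/-- The coordinate ring `F^sep[j_2, ..., j_r]` of the chart `g_1 ≠ 0` of `X_0^r(1)`. -/
abbrev Coord : Type := MvPolynomial (Fin m) S.k

/-- The inclusion of `F^sep[j_2, ..., j_r]` in `L`. -/
instance algCoordL : Algebra (Coord S) S.L :=
  ((algebraMap S.K S.L).comp (algebraMap (Coord S) S.K)).toAlgebra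

instance towerCoordL : IsScalarTower (Coord S) S.K S.L :=
  IsScalarTower.of_algebraMap_eq (fun _ => rfl)

/-- A function on the chart `g_1 ≠ 0` as an element of `L`. -/
def fnL (f : Coord S) : S.L := algebraMap (Coord S) S.L f

/-- The element of `F^sep` given by an element of `F = Fq(T)`. -/
def cF (x : RatFunc Fq) : S.k := algebraMap (RatFunc Fq) S.k x

/-- The element `T` of `L`. -/
def TT : S.L := fnL S (MvPolynomial.C (cF S RatFunc.X))

/-- The constant `c ∈ Fq` in `L`. -/
def con (c : Fq) : S.L := fnL S (MvPolynomial.C (cF S (RatFunc.C c)))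

/-- The element `j_{i+2}` of `L`. -/
def jj (i : Fin m) : S.L := fnL S (MvPolynomial.X i)

variable {S}

/-- The generic Drinfeld module with `g_1 = 1`:
`φ_T(x) = T x + x^q + j_2 x^(q^2) + ... + j_r x^(q^r)`. -/
def phiT (x : S.L) : S.L :=
  TT S * x + x ^ Fintype.card Fq +
    ∑ i : Fin m, jj S i * x ^ (Fintype.card Fq ^ ((i : ℕ) + 2))

/-- The Drinfeld module: `φ_a(x) = ∑ a_i φ_T^i(x)` for `a = ∑ a_i T^i` in `Fq[T]`. -/
def phi (a : Fq[X]) (x : S.L) : S.L :=
  ∑ i ∈ Finset.range (a.natDegree + 1), con S (a.coeff i) * phiT^[i] x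

/-- Generators of cyclic submodules of the generic Drinfeld module isomorphic to `A/(n)`:
`u` with annihilator exactly `(n)`. -/
def IsGen (n : Fq[X]) (u : S.L) : Prop := ∀ a : Fq[X], phi a u = 0 ↔ n ∣ a

/-- The cyclic submodule generated by `u`. -/
def cyc (u : S.L) : Set S.L := Set.range (fun a : Fq[X] => phi a u)

/-- The polynomial `E_C(X) = ∏_{w ∈ C} (X - w)` of the cyclic submodule `C` generated by `u`. -/
def EC (u : S.L) : S.L[X] := ∏ᶠ w ∈ cyc u, (X - C w)

/-- The function field `K_0` of `X_0^r(n)` over `F^sep`: the field of definition of `C`. -/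
def K0 (u : S.L) : IntermediateField S.K S.L :=
  IntermediateField.adjoin S.K {x | ∃ i : ℕ, x = (EC u).coeff i}

/-- `K_0` as a type. -/
def KZ (u : S.L) : Type := K0 u

/-- The weights `(q^i - 1)/(q - 1)` of the `j_i`: `wt q i` is the weight of `j_{i+2}`. -/
def wt (q m : ℕ) (i : Fin m) : ℕ := ∑ t ∈ Finset.range ((i : ℕ) + 2), q ^ t

section Div

variable (u : S.L)

instance fieldKZ : Field (KZ u) := IntermediateField.toField (K0 u)
instance algKZ : Algebra S.K (KZ u) := IntermediateField.algebra' (K0 u)
instance algKZL : Algebra (KZ u) S.L := IntermediateField.toAlgebra (K0 u)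
instance towerKZL : IsScalarTower S.K (KZ u) S.L :=
  IsScalarTower.of_algebraMap_eq (fun _ => rfl)
instance algCoordKZ : Algebra (Coord S) (KZ u) :=
  ((algebraMap S.K (KZ u)).comp (algebraMap (Coord S) S.K)).toAlgebra
instance towerCoordKZ : IsScalarTower (Coord S) S.K (KZ u) :=
  IsScalarTower.of_algebraMap_eq (fun _ => rfl)

/-- The inclusion of `K_0` in the algebraic closure. -/
def toOm (x : KZ u) : S.L := algebraMap (KZ u) S.L x

/-- A function on the chart `g_1 ≠ 0` of `X_0^r(1)` as an element of `K_0`. -/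
def emb (f : Coord S) : KZ u := algebraMap (Coord S) (KZ u) f

/-- Valuations of `K_0` with values in `ℤ` (written multiplicatively). -/
abbrev Val : Type := Valuation (KZ u) ℤᵐ⁰

variable {u}

/-- The value, as an element of `ℤᵐ⁰`. -/
def vl (v : Val u) (x : KZ u) : ℤᵐ⁰ := v x

/-- `x` is in the valuation ring. -/
def le1 (v : Val u) (x : KZ u) : Prop := vl v x ≤ 1

/-- `x` is in the maximal ideal. -/
def lt1 (v : Val u) (x : KZ u) : Prop := vl v x < 1

/-- The order of vanishing. -/
def od (v : Val u) (x : KZ u) : ℤ := - WithZero.log (vl v x)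

/-- The centre of the valuation `v` on the chart `g_1 ≠ 0` of `X_0^r(1)` is the generic point of
the prime divisor `P = 0`. -/
def CentredAt (v : Val u) (P : Coord S) : Prop :=
  ∀ f : Coord S, le1 v (emb u f) ∧ (lt1 v (emb u f) ↔ P ∣ f)

/-- The valuation `v` lies over the prime divisor `g_1 = 0` of `X_0^r(1)`, whose valuation is minus
the weighted degree. -/
def OverInfty (v : Val u) : Prop :=
  ∃ γ : ℤᵐ⁰, 1 < γ ∧ ∀ f : Coord S, f ≠ 0 →
    vl v (emb u f) = γ ^ (MvPolynomial.weightedTotalDegree (wt (Fintype.card Fq) m) f)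

/-- The prime Weil divisors of `X_0^r(n)` over `F^sep`, that is, the codimension one points of the
normalization of `X_0^r(1)` in `K_0`: the normalized discrete valuations of `K_0` over a
prime divisor of `X_0^r(1)`. -/
def IsPrimeDiv (v : Val u) : Prop :=
  Function.Surjective (vl v) ∧
    ((∃ P : Coord S, Irreducible P ∧ CentredAt v P) ∨ OverInfty v)

variable (u)

/-- The type of prime divisors. -/
abbrev PDiv : Type := {v : Val u // IsPrimeDiv v}

/-- The group of Weil divisors of `X_0^r(n)` over `F^sep`. -/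
abbrev WDiv : Type := PDiv u →₀ ℤ

/-- The subgroup of principal divisors. -/
def Prin : AddSubgroup (WDiv u) where
  carrier := {D | ∃ x : KZ u, x ≠ 0 ∧ ∀ v, D v = od v.1 x}
  zero_mem' := ⟨1, one_ne_zero, fun v => by simp [od, vl]⟩
  add_mem' := by
    rintro D D' ⟨x, hx, h⟩ ⟨y, hy, h'⟩
    refine ⟨x * y, mul_ne_zero hx hy, fun v => ?_⟩
    have hx' : v.1 x ≠ 0 := (Valuation.ne_zero_iff _).2 hx
    have hy' : v.1 y ≠ 0 := (Valuation.ne_zero_iff _).2 hy
    simp only [Finsupp.add_apply, h, h', od, vl, map_mul, WithZero.log_mul hx' hy']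
    ring
  neg_mem' := by
    rintro D ⟨x, hx, h⟩
    refine ⟨x⁻¹, inv_ne_zero hx, fun v => ?_⟩
    simp only [Finsupp.neg_apply, h, od, vl, map_inv₀, WithZero.log_inv]

/-- The Weil divisor class group of `X_0^r(n)` over `F^sep`. -/
abbrev Cl : Type := WDiv u ⧸ Prin u

/-- The class of a divisor. -/
def cls (D : WDiv u) : Cl u := QuotientAddGroup.mk D

variable {u} in
/-- Cusps: the prime divisors of the boundary `g_r = 0`. -/
def IsCusp (v : PDiv u) : Prop :=
  ∃ i : Fin m, (i : ℕ) + 1 = m ∧ CentredAt v.1 (MvPolynomial.X i : Coord S)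

/-- The cuspidal divisor class group. -/
def Cusp : AddSubgroup (Cl u) :=
  AddSubgroup.closure {x | ∃ c c' : PDiv u, IsCusp c ∧ IsCusp c' ∧
    x = cls u (Finsupp.single c 1 - Finsupp.single c' 1)}

variable {u} in
/-- The class `x` is cuspidal. -/
def InCusp (x : Cl u) : Prop := x ∈ Cusp u

/-- Ring automorphisms of `K_0`. -/
abbrev KAut : Type := KZ u ≃+* KZ u

variable {u} in
/-- The value of an automorphism of `K_0`. -/
def app (s : KAut u) (x : KZ u) : KZ u := s x

variable (S) in
/-- The absolute Galois group `G_F`. -/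
abbrev GF : Type := S.k ≃ₐ[RatFunc Fq] S.k

/-- An element of `G_F` together with its action on the function field of
`X_0^r(n) ×_F F^sep`: it fixes the function field of the canonical model over `F`, which is
generated over `F` by the `j_i` and by the coefficients of `E_C`. -/
structure GalAct where
  /-- the automorphism of `F^sep` -/
  base : GF S
  /-- its extension to `K_0` -/
  aut : KAut u
  compat : ∀ x : S.k, app aut (emb u (MvPolynomial.C x)) = emb u (MvPolynomial.C (base x))
  fixj : ∀ i : Fin m, app aut (emb u (MvPolynomial.X i)) = emb u (MvPolynomial.X i)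
  fixC : ∀ (i : ℕ) (y : KZ u), toOm u y = (EC u).coeff i → app aut y = y

namespace GalAct

variable {u} (s : GalAct u)

theorem aut_algebraMap (f : Coord S) :
    s.aut (algebraMap (Coord S) _ f) =
      algebraMap (Coord S) _ (MvPolynomial.map (s.base : S.k →+* S.k) f) := by
  induction f using MvPolynomial.induction_on with
  | C a => rw [MvPolynomial.map_C]; exact s.compat a
  | add p q hp hq => simp only [map_add, hp, hq]
  | mul_X p i hp =>
    have := s.fixj i
    simp only [app, emb] at this
    simp only [map_mul, hp, MvPolynomial.map_X, this]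

/-- The valuation `v ∘ s`. -/
def pullVal (s : KAut u) (v : Val u) : Val u := v.comap (s : KZ u →+* KZ u)

theorem isPrimeDiv_comap (v : Val u) (hv : IsPrimeDiv v) :
    IsPrimeDiv (pullVal s.aut v) := by
  obtain ⟨hs, h⟩ := hv
  refine ⟨hs.comp s.aut.surjective, ?_⟩
  rcases h with ⟨P, hP, hc⟩ | ⟨γ, hγ, h⟩
  · left
    let e : Coord S ≃+* Coord S := MvPolynomial.mapEquiv (Fin m) s.base.toRingEquiv
    have he : ∀ f, e f = MvPolynomial.map (s.base : S.k →+* S.k) f := fun f => rfl
    refine ⟨e.symm P, ?_, fun f => ?_⟩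
    · exact (MulEquiv.irreducible_iff e.symm.toMulEquiv).2 hP
    · have h1 : vl (pullVal s.aut v) (emb u f) = vl v (emb u (e f)) := by
        change v (s.aut (algebraMap (Coord S) _ f)) = _
        rw [s.aut_algebraMap]; rfl
      unfold le1 lt1
      rw [h1]
      refine ⟨(hc (e f)).1, (hc (e f)).2.trans ?_⟩
      constructor
      · rintro ⟨g, hg⟩
        exact ⟨e.symm g, by rw [← map_mul, ← hg, RingEquiv.symm_apply_apply]⟩
      · rintro ⟨g, hg⟩
        exact ⟨e g, by rw [hg, map_mul, RingEquiv.apply_symm_apply]⟩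
  · right
    refine ⟨γ, hγ, fun f hf => ?_⟩
    have hinj : Function.Injective (s.base : S.k →+* S.k) := s.base.injective
    change v (s.aut (algebraMap (Coord S) _ f)) = _
    have h2 := h (MvPolynomial.map (s.base : S.k →+* S.k) f) (fun h0 =>
        hf (MvPolynomial.map_injective _ hinj (by rw [h0, map_zero])))
    rw [s.aut_algebraMap]
    refine h2.trans ?_
    congr 1
    unfold MvPolynomial.weightedTotalDegree
    rw [MvPolynomial.support_map_of_injective _ hinj]

/-- The action of `G_F` on the prime divisors. -/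
def pull (v : PDiv u) : PDiv u := ⟨pullVal s.aut v.1, s.isPrimeDiv_comap v.1 v.2⟩

end GalAct

/-- The class `x` is fixed by `G_F`. -/
def IsRational (x : Cl u) : Prop :=
  ∀ (s : GalAct u) (D : WDiv u), cls u D = x → cls u (D.mapDomain s.pull) = x

/-- The subgroup generated by the `F`-rational elements of the cuspidal divisor class group. -/
def RatCusp : AddSubgroup (Cl u) :=
  AddSubgroup.closure {y : Cl u | InCusp y ∧ IsRational u y}

variable {u} in
/-- The class `x` is killed by `N`. -/
def KilledBy (N : ℕ) (x : Cl u) : Prop := N • x = 0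

variable {u} in
/-- The class `x` is torsion. -/
def IsTors (x : Cl u) : Prop := ∃ N : ℕ, 0 < N ∧ KilledBy N x

end Div

/-- Q1 of MP_7c5a52_nt: for every `r = m + 1 ≥ 2` and every nonzero `n`, the `F`-rational torsion
subgroup of the class group of `X_0^r(n)` is the subgroup generated by the `F`-rational elements
of the cuspidal divisor class group. -/
def Q1 : Prop :=
  ∀ (Fq : Type) [Field Fq] [Fintype Fq] (m : ℕ) (S : Model Fq m) (n : Fq[X]), 1 ≤ m → n ≠ 0 →
    ∀ u : S.L, IsGen n u → ∀ x : Cl u, (IsRational u x ∧ IsTors x) ↔ x ∈ RatCusp u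

end Pool.Agent.R423.DMV
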