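import Pool.Agent.R423.DMV.Base
import Pool.Agent.R423.DMV.Defs

noncomputable section

open Polynomial WithZero

namespace Pool.Agent.R423.DMV

variable {S : Model (ZMod 3) 3}


instance charRat : CharP (RatFunc (ZMod 3)) 3 :=
  charP_of_injective_ringHom (RatFunc.C (K := ZMod 3)).injective 3

instance chark (S : Model (ZMod 3) 3) : CharP S.k 3 :=
  charP_of_injective_algebraMap (algebraMap (RatFunc (ZMod 3)) S.k).injective 3

instance algF3 (S : Model (ZMod 3) 3) : Algebra (ZMod 3) S.L :=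
  ((algebraMap (Coord S) S.L).comp (MvPolynomial.C.comp
    ((algebraMap (RatFunc (ZMod 3)) S.k).comp RatFunc.C))).toAlgebra

instance charL (S : Model (ZMod 3) 3) : CharP S.L 3 :=
  charP_of_injective_algebraMap (algebraMap (ZMod 3) S.L).injective 3

/-- `p(x) = T x + x^3 + j_2 x^9 + j_3 x^27 + j_4 x^81` -/
def pp (x : S.L) : S.L := addPol (cst (k := S.k) (cF S RatFunc.X)) 1 (jc S.k 0) (jc S.k 1) (jc S.k 2) x

theorem phiT_apply (x : S.L) : phiT x = pp x := by
  unfold phiT pp addPol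
  have h0 : jj S 0 = jc S.k 0 := rfl
  have h1 : jj S 1 = jc S.k 1 := rfl
  have h2 : jj S 2 = jc S.k 2 := rfl
  have hT : TT S = cst (k := S.k) (cF S RatFunc.X) := rfl
  rw [Fin.sum_univ_three, h0, h1, h2, hT, ZMod.card]
  norm_num
  ring

/-- Frobenius -/
def frobL : Module.End (ZMod 3) S.L := (FiniteField.frobeniusAlgHom (ZMod 3) S.L).toLinearMap

theorem frobL_apply (x : S.L) : frobL x = x ^ 3 := by
  unfold frobL
  simp [FiniteField.frobeniusAlgHom, ZMod.card]

/-- the linear version of `φ_T` -/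
def phiL : Module.End (ZMod 3) S.L where
  toFun := pp
  map_add' x y := by
    have h3 : ∀ a b : S.L, (a + b) ^ 3 = a ^ 3 + b ^ 3 := fun a b => by
      rw [← frobL_apply, ← frobL_apply, ← frobL_apply, map_add]
    have h9 : ∀ a b : S.L, (a + b) ^ 9 = a ^ 9 + b ^ 9 := fun a b => by
      have : ∀ c : S.L, c ^ 9 = (c ^ 3) ^ 3 := fun c => by ring
      rw [this, this a, this b, h3, h3]
    have h27 : ∀ a b : S.L, (a + b) ^ 27 = a ^ 27 + b ^ 27 := fun a b => by
      have : ∀ c : S.L, c ^ 27 = (c ^ 9) ^ 3 := fun c => by ring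
      rw [this, this a, this b, h9, h3]
    have h81 : ∀ a b : S.L, (a + b) ^ 81 = a ^ 81 + b ^ 81 := fun a b => by
      have : ∀ c : S.L, c ^ 81 = (c ^ 27) ^ 3 := fun c => by ring
      rw [this, this a, this b, h27, h3]
    unfold pp addPol
    rw [h3, h9, h27, h81]
    ring
  map_smul' c x := by
    have h3 : ∀ a : S.L, (c • a) ^ 3 = c • a ^ 3 := fun a => by
      rw [← frobL_apply, ← frobL_apply, map_smul]
    have h9 : ∀ a : S.L, (c • a) ^ 9 = c • a ^ 9 := fun a => by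
      have : ∀ c : S.L, c ^ 9 = (c ^ 3) ^ 3 := fun c => by ring
      rw [this, this a, h3, h3]
    have h27 : ∀ a : S.L, (c • a) ^ 27 = c • a ^ 27 := fun a => by
      have : ∀ c : S.L, c ^ 27 = (c ^ 9) ^ 3 := fun c => by ring
      rw [this, this a, h9, h3]
    have h81 : ∀ a : S.L, (c • a) ^ 81 = c • a ^ 81 := fun a => by
      have : ∀ c : S.L, c ^ 81 = (c ^ 27) ^ 3 := fun c => by ring
      rw [this, this a, h27, h3]
    unfold pp addPol
    rw [h3, h9, h27, h81, RingHom.id_apply]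
    simp only [smul_add, mul_smul_comm]

theorem phiL_apply (x : S.L) : phiL x = pp x := rfl

theorem phi_eq (a : (ZMod 3)[X]) (x : S.L) : phi a x = aeval phiL a x := by
  unfold phi
  rw [aeval_eq_sum_range, LinearMap.sum_apply]
  refine Finset.sum_congr rfl (fun i _ => ?_)
  rw [LinearMap.smul_apply, Module.End.pow_apply, Algebra.smul_def]
  have h : phiT (S := S) = ⇑phiL := funext phiT_apply
  rw [h]; rfl

theorem t3_ne : ((cF S RatFunc.X) ^ 2 + 1 : S.k) ≠ 0 := by
  intro h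
  have h1 : (algebraMap (RatFunc (ZMod 3)) S.k) (RatFunc.X ^ 2 + 1) = 0 := by
    rw [map_add, map_pow, map_one]; exact h
  have h2 : (RatFunc.X ^ 2 + 1 : RatFunc (ZMod 3)) = 0 :=
    (map_eq_zero_iff _ (algebraMap (RatFunc (ZMod 3)) S.k).injective).1 h1
  have h3 : algebraMap (ZMod 3)[X] (RatFunc (ZMod 3)) (X ^ 2 + 1) = 0 := by
    rw [map_add, map_pow, map_one, RatFunc.algebraMap_X]; exact h2
  have h4 : (X ^ 2 + 1 : (ZMod 3)[X]) = 0 :=
    (map_eq_zero_iff _ (IsFractionRing.injective (ZMod 3)[X] (RatFunc (ZMod 3)))).1 h3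
  have h5 := congrArg (fun q => coeff q 2) h4
  simp [coeff_one] at h5

theorem cst_t3 : (cst (k := S.k) (cF S RatFunc.X) : S.L) ^ 2 + 1 ≠ 0 := by
  have h1 : (cst (k := S.k) (cF S RatFunc.X) : S.L) ^ 2 + 1 = algebraMap (R3 S.k) S.L (MvPolynomial.C ((cF S RatFunc.X) ^ 2 + 1)) := by
    unfold cst
    simp [map_add, map_pow, map_one]
  rw [h1]
  intro h
  have hinj : Function.Injective (algebraMap (R3 S.k) S.L) := by
    rw [IsScalarTower.algebraMap_eq (R3 S.k) S.K S.L]
    exact (algebraMap S.K S.L).injective.comp (IsFractionRing.injective (R3 S.k) S.K)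
  have h2 := hinj (h.trans (map_zero _).symm)
  rw [← map_zero (MvPolynomial.C (σ := Fin 3)) ] at h2
  exact t3_ne (MvPolynomial.C_injective _ _ h2)

section gen

variable (u : S.L) (hu : IsGen (S := S) (X ^ 2 + 1 : (ZMod 3)[X]) u)

theorem phi_X (x : S.L) : phi X x = pp x := by
  rw [phi_eq, aeval_X, phiL_apply]

theorem phi_one (x : S.L) : phi 1 x = x := by
  rw [phi_eq, map_one]; rfl

theorem phi_add (a b : (ZMod 3)[X]) (x : S.L) :
    phi (a + b) x = phi a x + phi b x := by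
  rw [phi_eq, phi_eq, phi_eq, map_add]; rfl

theorem phi_mul (a b : (ZMod 3)[X]) (x : S.L) :
    phi (a * b) x = phi a (phi b x) := by
  rw [phi_eq, phi_eq, phi_eq, map_mul]; rfl

theorem phi_C (a : ZMod 3) (x : S.L) : phi (C a) x = a • x := by
  rw [phi_eq, aeval_C]; rfl

theorem phi_zero (a : (ZMod 3)[X]) : phi a (0 : S.L) = 0 := by
  rw [phi_eq, map_zero]

include hu

theorem tors_of_gen : Tors (cst (k := S.k) (cF S RatFunc.X)) 1 (jc S.k 0) (jc S.k 1) (jc S.k 2) u (pp u) := by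
  refine ⟨rfl, ?_⟩
  change pp (pp u) = -u
  have h := (hu (X ^ 2 + 1)).2 dvd_rfl
  rw [phi_add, phi_one, pow_two, phi_mul, phi_X, phi_X] at h
  exact eq_neg_of_add_eq_zero_left h

theorem not_dvd_small {a b : ZMod 3} (h : ¬ (a = 0 ∧ b = 0)) :
    ¬ ((X ^ 2 + 1 : (ZMod 3)[X]) ∣ C a + C b * X) := by
  intro hd
  have hdeg : (X ^ 2 + 1 : (ZMod 3)[X]).natDegree = 2 := by
    rw [show (X ^ 2 + 1 : (ZMod 3)[X]) = X ^ 2 + C 1 by simp, natDegree_X_pow_add_C]
  have hne : (C a + C b * X : (ZMod 3)[X]) ≠ 0 := by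
    intro h0
    apply h
    have h1 := congrArg (fun q => coeff q 0) h0
    have h2 := congrArg (fun q => coeff q 1) h0
    simp at h1 h2
    exact ⟨h1, h2⟩
  have h3 := natDegree_le_of_dvd hd hne
  have h4 : (C a + C b * X : (ZMod 3)[X]).natDegree ≤ 1 := by
    rw [add_comm]; exact natDegree_linear_le
  omega

theorem lin_ne {a b : ZMod 3} (h : ¬ (a = 0 ∧ b = 0)) : a • u + b • pp u ≠ 0 := by
  intro h0
  apply not_dvd_small u hu h
  rw [← hu, phi_add, phi_mul, phi_C, phi_X, phi_C]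
  exact h0

theorem moore_ne : moore u (pp u) ≠ 0 := by
  have h1 := lin_ne u hu (a := 1) (b := 0) (by decide)
  have h2 := lin_ne u hu (a := 0) (b := 1) (by decide)
  have h3 := lin_ne u hu (a := 1) (b := 1) (by decide)
  have h4 := lin_ne u hu (a := -1) (b := 1) (by decide)
  simp only [one_smul, zero_smul, add_zero, zero_add, neg_smul] at h1 h2 h3 h4
  have : moore u (pp u) = u * pp u * (u + pp u) * (-u + pp u) := by
    unfold moore; ring
  rw [this]
  exact mul_ne_zero (mul_ne_zero (mul_ne_zero h1 h2) h3) h4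

theorem cyc_eq : cyc u =
    Set.range (fun p : ZMod 3 × ZMod 3 => p.1 • u + p.2 • pp u) := by
  ext w
  constructor
  · rintro ⟨a, rfl⟩
    have hmon : (X ^ 2 + 1 : (ZMod 3)[X]).Monic := by
      rw [show (X ^ 2 + 1 : (ZMod 3)[X]) = X ^ 2 + C 1 by simp]
      exact monic_X_pow_add_C _ (by norm_num)
    have h1 := modByMonic_add_div a (X ^ 2 + 1 : (ZMod 3)[X])
    have hdeg : (X ^ 2 + 1 : (ZMod 3)[X]).natDegree = 2 := by
      rw [show (X ^ 2 + 1 : (ZMod 3)[X]) = X ^ 2 + C 1 by simp, natDegree_X_pow_add_C]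
    have h2 : (a %ₘ (X ^ 2 + 1 : (ZMod 3)[X])).natDegree ≤ 1 := by
      have h := natDegree_modByMonic_lt a hmon (by
        intro h; rw [h, natDegree_one] at hdeg; norm_num at hdeg)
      omega
    have h3 : a %ₘ (X ^ 2 + 1 : (ZMod 3)[X]) =
        C ((a %ₘ (X ^ 2 + 1 : (ZMod 3)[X])).coeff 1) * X +
          C ((a %ₘ (X ^ 2 + 1 : (ZMod 3)[X])).coeff 0) :=
      eq_X_add_C_of_natDegree_le_one h2
    refine ⟨((a %ₘ (X ^ 2 + 1 : (ZMod 3)[X])).coeff 0, (a %ₘ (X ^ 2 + 1 : (ZMod 3)[X])).coeff 1), ?_⟩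
    have h5 : phi a u = phi (a %ₘ (X ^ 2 + 1 : (ZMod 3)[X])) u := by
      conv_lhs => rw [← h1]
      rw [phi_add, mul_comm, phi_mul, (hu (X ^ 2 + 1)).2 dvd_rfl, phi_zero, add_zero]
    change _ = phi a u
    rw [h5, h3, phi_add, phi_mul, phi_C, phi_X, phi_C, ← h3]
    exact add_comm _ _
  · rintro ⟨⟨a, b⟩, rfl⟩
    refine ⟨C a + C b * X, ?_⟩
    change phi _ u = _
    rw [phi_add, phi_mul, phi_C, phi_X, phi_C]

theorem EC_eq : EC u = EP u (pp u) := by
  unfold EC
  rw [cyc_eq u hu, finprod_mem_range, finprod_eq_prod_of_fintype, Fintype.prod_prod_type]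
  · have key : ∀ f : ZMod 3 → (S.L)[X], ∏ x, f x = f 0 * f 1 * f (-1) := fun f => by
      rw [show (Finset.univ : Finset (ZMod 3)) = {0, 1, -1} from by decide,
        Finset.prod_insert (by decide), Finset.prod_insert (by decide), Finset.prod_singleton,
        mul_assoc]
    rw [key, key, key, key]
    simp only [zero_smul, one_smul, neg_smul, zero_add, add_zero, EP, map_add, map_neg, map_pow,
      map_sub, map_zero]
    ring
  · rintro ⟨a, b⟩ ⟨a', b'⟩ h
    simp only at h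
    by_contra hne
    have h1 : ¬ (a - a' = 0 ∧ b - b' = 0) := by
      rintro ⟨h1, h2⟩
      exact hne (by rw [sub_eq_zero.1 h1, sub_eq_zero.1 h2])
    apply lin_ne u hu h1
    rw [sub_smul, sub_smul]
    linear_combination h

end gen

end Pool.Agent.R423.DMV
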