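import Pool.Agent.R423.DMV.Concrete

noncomputable section

open Polynomial WithZero

namespace Pool.Agent.R423.DMV

variable {S : Model (ZMod 3) 3}


instance charK (S : Model (ZMod 3) 3) : CharP S.K 3 :=
  (RingHom.charP_iff (algebraMap S.K S.L) (algebraMap S.K S.L).injective 3).2 inferInstance

/-- the polynomial `T X + X^3 + j_2 X^9 + j_3 X^27 + j_4 X^81` -/
def polP (S : Model (ZMod 3) 3) (E : Type) [Field E] [Algebra (R3 S.k) E] : E[X] :=
  C (cst (k := S.k) (cF S RatFunc.X)) * X + X ^ 3 + C (jc S.k 0) * X ^ 9 + C (jc S.k 1) * X ^ 27 +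
    C (jc S.k 2) * X ^ 81

def polQ (S : Model (ZMod 3) 3) (E : Type) [Field E] [Algebra (R3 S.k) E] : E[X] :=
  (polP S E).comp (polP S E) + X

theorem derivative_polP (E : Type) [Field E] [Algebra (R3 S.k) E] [CharP E 3] :
    derivative (polP S E) = C (cst (k := S.k) (cF S RatFunc.X)) := by
  have h3 : (3 : E[X]) = 0 := by
    have : ((3 : ℕ) : E[X]) = 0 := CharP.cast_eq_zero _ 3
    exact_mod_cast this
  unfold polP
  simp only [derivative_add, derivative_mul, derivative_C, derivative_X, derivative_X_pow,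
    zero_mul, zero_add, mul_one]
  simp only [Nat.cast_ofNat, map_ofNat]
  linear_combination (X ^ 2 + 3 * C (jc S.k 0) * X ^ 8 + 9 * C (jc S.k 1) * X ^ 26 +
    27 * C (jc S.k 2) * X ^ 80) * h3

theorem derivative_polQ (E : Type) [Field E] [Algebra (R3 S.k) E] [CharP E 3] :
    derivative (polQ S E) = C ((cst (k := S.k) (cF S RatFunc.X)) ^ 2 + 1) := by
  unfold polQ
  rw [derivative_add, derivative_comp, derivative_polP, derivative_X, C_comp, map_add, map_pow,
    map_one]
  ring

theorem eval_polP (x : S.L) : eval x (polP S S.L) = pp x := by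
  unfold polP pp addPol
  simp

theorem eval_polQ (x : S.L) : eval x (polQ S S.L) = pp (pp x) + x := by
  unfold polQ
  rw [eval_add, eval_comp, eval_polP, eval_polP, eval_X]

theorem jc_ne (i : Fin 3) : (jc S.k i : S.L) ≠ 0 := by
  have hinj : Function.Injective (algebraMap (R3 S.k) S.L) := by
    rw [IsScalarTower.algebraMap_eq (R3 S.k) S.K S.L]
    exact (algebraMap S.K S.L).injective.comp (IsFractionRing.injective (R3 S.k) S.K)
  intro h
  exact MvPolynomial.X_ne_zero i (hinj (h.trans (map_zero _).symm))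

variable (S) in
theorem natDegree_polP : (polP S S.L).natDegree = 81 := by
  unfold polP
  compute_degree
  · exact jc_ne 2
  all_goals norm_num

variable (S) in
theorem natDegree_polQ : (polQ S S.L).natDegree = 6561 := by
  unfold polQ
  have h : ((polP S S.L).comp (polP S S.L)).natDegree = 6561 := by
    rw [natDegree_comp, natDegree_polP]
  rw [natDegree_add_eq_left_of_natDegree_lt, h]
  rw [h, natDegree_X]; norm_num

variable (S) in
theorem exists_tors : ∃ u : S.L, u ≠ 0 ∧ pp (pp u) + u = 0 := by
  have : IsAlgClosed S.L := IsAlgClosure.isAlgClosed S.K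
  have hd : (polQ S S.L).divX.natDegree = 6560 := by
    rw [natDegree_divX_eq_natDegree_tsub_one, natDegree_polQ]
  obtain ⟨z, hz⟩ := IsAlgClosed.exists_root (polQ S S.L).divX (by
    intro h
    have := natDegree_eq_zero_iff_degree_le_zero.2 h.le
    omega)
  refine ⟨z, ?_, ?_⟩
  · rintro rfl
    have h1 : (polQ S S.L).divX.coeff 0 = 0 := by
      rw [coeff_zero_eq_eval_zero]; exact hz
    rw [coeff_divX] at h1
    have h2 := congrArg (fun q => coeff q 0) (derivative_polQ (S := S) S.L)
    simp only [coeff_derivative, coeff_C_zero] at h2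
    rw [h1] at h2
    exact cst_t3 (by rw [← h2]; simp)
  · rw [← eval_polQ]
    rw [← divX_mul_X_add (polQ S S.L), eval_add, eval_mul, hz, eval_C, zero_mul, zero_add,
      coeff_zero_eq_eval_zero, eval_polQ]
    unfold pp addPol
    simp

variable (S) in
theorem exists_gen : ∃ u : S.L, IsGen (X ^ 2 + 1 : (ZMod 3)[X]) u := by
  obtain ⟨u, hu0, hu⟩ := exists_tors S
  have hn : phi (X ^ 2 + 1) u = 0 := by
    rw [phi_add, phi_one, pow_two, phi_mul, phi_X, phi_X]; exact hu
  have hirr : Irreducible (X ^ 2 + 1 : (ZMod 3)[X]) := by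
    have hdeg : (X ^ 2 + 1 : (ZMod 3)[X]).natDegree = 2 := by
      rw [show (X ^ 2 + 1 : (ZMod 3)[X]) = X ^ 2 + C 1 by simp, natDegree_X_pow_add_C]
    refine (irreducible_iff_roots_eq_zero_of_degree_le_three (by omega) (by omega)).2 ?_
    rw [Multiset.eq_zero_iff_forall_notMem]
    intro x hx
    have h1 := (mem_roots'.1 hx).2
    rw [IsRoot.def, eval_add, eval_pow, eval_X, eval_one] at h1
    clear hx
    revert h1
    revert x
    decide
  refine ⟨u, fun a => ⟨fun ha => ?_, ?_⟩⟩
  · by_contra hna
    have hcop : IsCoprime (X ^ 2 + 1 : (ZMod 3)[X]) a :=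
      (Irreducible.coprime_iff_not_dvd hirr).2 hna
    obtain ⟨b, c, h⟩ := hcop
    apply hu0
    rw [← phi_one u, ← h, phi_add, phi_mul, phi_mul, hn, ha, phi_zero, phi_zero, add_zero]
  · rintro ⟨b, rfl⟩
    rw [mul_comm, phi_mul, hn, phi_zero]

section K0

variable (u : S.L) (hu : IsGen (S := S) (X ^ 2 + 1 : (ZMod 3)[X]) u)

variable (S) in
theorem map_polQ : (polQ S S.K).map (algebraMap S.K S.L) = polQ S S.L := by
  have h : (polP S S.K).map (algebraMap S.K S.L) = polP S S.L := by
    have e1 : ∀ i, algebraMap S.K S.L (jc S.k i) = jc S.k i := fun i => rfl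
    have e2 : algebraMap S.K S.L (cst (k := S.k) (cF S RatFunc.X)) = cst (k := S.k) (cF S RatFunc.X) := rfl
    unfold polP
    simp only [Polynomial.map_add, Polynomial.map_mul, Polynomial.map_pow, map_C, map_X, e1, e2]
  unfold polQ
  rw [Polynomial.map_add, map_comp, h, map_X]

theorem isSeparable_of_tors (x : S.L) (hx : pp (pp x) + x = 0) : IsSeparable S.K x := by
  have hsep : (polQ S S.K).Separable := by
    unfold Polynomial.Separable
    rw [derivative_polQ]
    have hne : ((cst (k := S.k) (cF S RatFunc.X) : S.K) ^ 2 + 1) ≠ 0 := by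
      intro h
      apply cst_t3
      have e2 : algebraMap S.K S.L (cst (k := S.k) (cF S RatFunc.X)) = cst (k := S.k) (cF S RatFunc.X) := rfl
      rw [← e2, ← map_pow, ← map_one (algebraMap S.K S.L), ← map_add, h, map_zero]
    refine ⟨0, C (((cst (k := S.k) (cF S RatFunc.X) : S.K) ^ 2 + 1)⁻¹), ?_⟩
    rw [zero_mul, zero_add, ← C_mul, inv_mul_cancel₀ hne, C_1]
  refine hsep.of_dvd (minpoly.dvd _ _ ?_)
  rw [aeval_def, ← eval_map, map_polQ, eval_polQ, hx]

include hu

theorem pp_pp : pp (pp u) = -u := (tors_of_gen u hu).2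

theorem K0_le : K0 u ≤ IntermediateField.adjoin S.K {u, pp u} := by
  unfold K0
  rw [IntermediateField.adjoin_le_iff]
  rintro x ⟨i, rfl⟩
  rw [EC_eq u hu]
  have h1 : u ∈ IntermediateField.adjoin S.K {u, pp u} :=
    IntermediateField.subset_adjoin _ _ (by simp)
  have h2 : pp u ∈ IntermediateField.adjoin S.K {u, pp u} :=
    IntermediateField.subset_adjoin _ _ (by simp)
  have h3 : EP u (pp u) = (EP (⟨u, h1⟩ : IntermediateField.adjoin S.K {u, pp u}) ⟨pp u, h2⟩).map
      (algebraMap (IntermediateField.adjoin S.K {u, pp u}) S.L) := by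
    unfold EP
    simp only [Polynomial.map_mul, Polynomial.map_sub, Polynomial.map_pow, map_C, map_X]
    rfl
  rw [h3, coeff_map]
  exact (coeff _ i : IntermediateField.adjoin S.K {u, pp u}).2

theorem sep_K0 : Algebra.IsSeparable S.K (K0 u) := by
  have h1 : IntermediateField.adjoin S.K {u, pp u} ≤ separableClosure S.K S.L := by
    rw [IntermediateField.adjoin_le_iff]
    rintro x (hx | hx)
    · rw [hx]
      exact mem_separableClosure_iff.2 (isSeparable_of_tors _ (by rw [pp_pp u hu]; ring))
    · rw [hx]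
      refine mem_separableClosure_iff.2 (isSeparable_of_tors _ ?_)
      rw [pp_pp u hu]
      have : pp (-u) = -pp u := by unfold pp addPol; ring
      rw [this]; ring
  exact (le_separableClosure_iff S.K S.L _).1 ((K0_le u hu).trans h1)

theorem fin_K0 : FiniteDimensional S.K (K0 u) := by
  have : IsAlgClosure S.K S.L := inferInstance
  have hint : ∀ x : S.L, IsIntegral S.K x := fun x =>
    ((IsAlgClosure.isAlgebraic (R := S.K) (K := S.L)).isAlgebraic x).isIntegral
  have h1 : FiniteDimensional S.K (IntermediateField.adjoin S.K {u, pp u}) := by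
    apply IntermediateField.finiteDimensional_adjoin
    intro x _
    exact hint x
  exact FiniteDimensional.of_injective (IntermediateField.inclusion (K0_le u hu)).toLinearMap
    (IntermediateField.inclusion_injective (K0_le u hu))

omit hu in
theorem coeff_one_EP (x y : S.L) : (EP x y).coeff 1 = moore x y ^ 2 := by
  unfold EP
  rw [mul_assoc, mul_assoc, mul_assoc, coeff_X_mul, coeff_zero_eq_eval_zero]
  simp only [eval_mul, eval_sub, eval_pow, eval_X, eval_C]
  unfold moore
  ring

theorem c_mem : moore u (pp u) ^ 2 ∈ K0 u := by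
  rw [← coeff_one_EP, ← EC_eq u hu]
  exact IntermediateField.subset_adjoin _ _ ⟨1, rfl⟩

end K0

end Pool.Agent.R423.DMV
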