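import Pool.Agent.R423.DMV.Base

/-! # DMV-D: P-adic and degree valuations of the field of fractions of `k[X0,X1,X2]` -/

noncomputable section

open MvPolynomial WithZero

namespace Pool.Agent.R423.DMV

/-- the valuation attached to a degree function on a domain -/
theorem exists_of_degree {A K : Type} [CommRing A] [IsDomain A] [Field K] [Algebra A K]
    [IsFractionRing A K] (D : A → ℤ) (h1 : D 1 = 0)
    (hmul : ∀ f g, f ≠ 0 → g ≠ 0 → D (f * g) = D f + D g)
    (hadd : ∀ f g, f ≠ 0 → g ≠ 0 → f + g ≠ 0 → D (f + g) ≤ max (D f) (D g)) :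
    ∃ v : Valuation K ℤᵐ⁰, ∀ f : A, f ≠ 0 → v (algebraMap A K f) = exp (D f) := by
  classical
  let v0 : Valuation A ℤᵐ⁰ :=
    { toFun := fun f => if f = 0 then 0 else exp (D f)
      map_zero' := by simp
      map_one' := by simp [h1]
      map_mul' := by
        intro f g
        by_cases hf : f = 0
        · simp [hf]
        by_cases hg : g = 0
        · simp [hg]
        simp only [mul_eq_zero, hf, hg, or_self, if_false]
        rw [hmul f g hf hg, exp_add]
      map_add_le_max' := by
        intro f g
        by_cases hf : f = 0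
        · simp [hf]
        by_cases hg : g = 0
        · simp [hg]
        by_cases hfg : f + g = 0
        · simp [hfg]
        simp only [hf, hg, hfg, if_false]
        rcases le_total (D f) (D g) with h | h
        · rw [max_eq_right (exp_le_exp.2 h)]
          exact exp_le_exp.2 (by simpa [max_eq_right h] using hadd f g hf hg hfg)
        · rw [max_eq_left (exp_le_exp.2 h)]
          exact exp_le_exp.2 (by simpa [max_eq_left h] using hadd f g hf hg hfg) }
  have hv0 : ∀ f : A, f ≠ 0 → v0 f = exp (D f) := fun f hf => if_neg hf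
  have hS : nonZeroDivisors A ≤ v0.supp.primeCompl := by
    intro s hs
    have hs0 : s ≠ 0 := nonZeroDivisors.ne_zero hs
    change s ∉ v0.supp
    rw [Valuation.mem_supp_iff, hv0 s hs0]
    exact exp_ne_zero
  refine ⟨v0.extendToLocalization hS K, fun f hf => ?_⟩
  rw [Valuation.extendToLocalization_apply_map_apply, hv0 f hf]

theorem exists_centred {k K : Type} [Field k] [Field K] [Algebra (R3 k) K]
    [IsFractionRing (R3 k) K] (P : R3 k) (hP : Irreducible P) :
    ∃ v : Valuation K ℤᵐ⁰, Function.Surjective v ∧ Centred v P := by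
  have hPp : Prime P := hP.prime
  have hfin : ∀ f : R3 k, f ≠ 0 → FiniteMultiplicity P f := fun f hf =>
    FiniteMultiplicity.of_not_isUnit hP.not_isUnit hf
  obtain ⟨v, hv⟩ := exists_of_degree (A := R3 k) (K := K)
    (fun f => -(multiplicity P f : ℤ))
    (by simp [multiplicity_eq_zero.2 (fun h => hP.not_isUnit (isUnit_of_dvd_one h))])
    (by
      intro f g hf hg
      have := multiplicity_mul hPp (hfin _ (mul_ne_zero hf hg))
      simp only [this]
      push_cast
      ring)
    (by
      intro f g hf hg hfg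
      have h1 : min (multiplicity P f) (multiplicity P g) ≤ multiplicity P (f + g) := by
        refine (hfin _ hfg).le_multiplicity_of_pow_dvd ?_
        exact dvd_add ((pow_dvd_pow P (min_le_left _ _)).trans (pow_multiplicity_dvd P f))
          ((pow_dvd_pow P (min_le_right _ _)).trans (pow_multiplicity_dvd P g))
      rcases le_total (multiplicity P f) (multiplicity P g) with h | h
      · rw [min_eq_left h] at h1
        refine le_trans ?_ (le_max_left _ _)
        omega
      · rw [min_eq_right h] at h1
        refine le_trans ?_ (le_max_right _ _)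
        omega)
  have hP1 : v (algebraMap (R3 k) K P) = exp (-1) := by
    rw [hv P hP.ne_zero]
    simp
  refine ⟨v, ?_, ?_⟩
  · intro y
    by_cases hy : y = 0
    · exact ⟨0, by simp [hy]⟩
    · refine ⟨(algebraMap (R3 k) K P) ^ (-(log y)), ?_⟩
      rw [map_zpow₀, hP1, ← exp_zsmul]
      simp [exp_log hy]
  · intro f
    by_cases hf : f = 0
    · simp [hf]
    · have h0 := dvd_iff_multiplicity_pos (a := P) (b := f)
      rw [hv f hf, ← exp_zero, exp_le_exp, exp_lt_exp, ← h0]
      omega

theorem centred_le_one {k K Γ : Type} [Field k] [Field K] [Algebra (R3 k) K]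
    [IsFractionRing (R3 k) K] [LinearOrderedCommGroupWithZero Γ]
    (P : R3 k) (hP : Irreducible P) (v : Valuation K Γ) (hv : Centred v P)
    (a b : ℕ) (f g : R3 k) (hf : ¬ P ∣ f) (hg : ¬ P ∣ g) :
    v (algebraMap (R3 k) K (P ^ a * f) / algebraMap (R3 k) K (P ^ b * g)) ≤ 1 ↔ b ≤ a := by
  have h1 : ∀ f : R3 k, ¬ P ∣ f → v (algebraMap (R3 k) K f) = 1 := by
    intro f hf
    refine le_antisymm (hv f).1 (not_lt.1 fun h => hf ((hv f).2.1 h))
  have hP1 : v (algebraMap (R3 k) K P) < 1 := (hv P).2.2 dvd_rfl
  have hP0 : 0 < v (algebraMap (R3 k) K P) := by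
    rw [zero_lt_iff, Valuation.ne_zero_iff]
    simpa using hP.ne_zero
  simp only [map_mul, map_pow, map_div₀, h1 f hf, h1 g hg, mul_one]
  rw [div_le_one₀ (pow_pos hP0 _)]
  exact (pow_right_strictAnti₀ hP0 hP1).le_iff_ge

theorem centred_unique {k K Γ Γ' : Type} [Field k] [Field K] [Algebra (R3 k) K]
    [IsFractionRing (R3 k) K] [LinearOrderedCommGroupWithZero Γ]
    [LinearOrderedCommGroupWithZero Γ'] (P : R3 k) (hP : Irreducible P)
    (v : Valuation K Γ) (v' : Valuation K Γ') (hv : Centred v P) (hv' : Centred v' P) :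
    v.IsEquiv v' := by
  rw [Valuation.isEquiv_iff_val_le_one]
  intro x
  obtain ⟨f, g, hg, rfl⟩ := IsFractionRing.div_surjective (A := R3 k) x
  have hg0 : g ≠ 0 := nonZeroDivisors.ne_zero hg
  by_cases hf0 : f = 0
  · simp [hf0]
  have hfin : ∀ f : R3 k, f ≠ 0 → FiniteMultiplicity P f := fun f hf =>
    FiniteMultiplicity.of_not_isUnit hP.not_isUnit hf
  obtain ⟨f', hf1, hf2⟩ := (hfin f hf0).exists_eq_pow_mul_and_not_dvd
  obtain ⟨g', hg1, hg2⟩ := (hfin g hg0).exists_eq_pow_mul_and_not_dvd
  rw [hf1, hg1, centred_le_one P hP v hv _ _ f' g' hf2 hg2,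
    centred_le_one P hP v' hv' _ _ f' g' hf2 hg2]

/-- the substitution `X_i ↦ X_i t^{w_i}` -/
def homog (k : Type) [Field k] (w : Fin 3 → ℕ) : R3 k →+* Polynomial (R3 k) :=
  eval₂Hom (Polynomial.C.comp C) (fun i => Polynomial.C (X i) * Polynomial.X ^ (w i))

theorem homog_monomial {k : Type} [Field k] (w : Fin 3 → ℕ) (m : Fin 3 →₀ ℕ) (c : k) :
    homog k w (monomial m c) =
      Polynomial.C (monomial m c) * Polynomial.X ^ (Finsupp.weight w m) := by
  rw [homog, coe_eval₂Hom, eval₂_monomial, monomial_eq, map_mul]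
  simp only [RingHom.comp_apply, mul_assoc]
  congr 1
  rw [Finsupp.weight_apply]
  simp only [Finsupp.prod, Finsupp.sum, map_prod, map_pow, mul_pow, Finset.prod_mul_distrib,
    ← pow_mul, Finset.prod_pow_eq_pow_sum, smul_eq_mul]
  congr 2
  exact Finset.sum_congr rfl fun i _ => mul_comm _ _

theorem homog_coeff {k : Type} [Field k] (w : Fin 3 → ℕ) (f : R3 k) (n : ℕ) :
    (homog k w f).coeff n = weightedHomogeneousComponent w n f := by
  classical
  induction f using MvPolynomial.induction_on' with
  | monomial m c =>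
    rw [homog_monomial, Polynomial.coeff_C_mul_X_pow]
    ext d
    rw [coeff_weightedHomogeneousComponent]
    by_cases h : n = Finsupp.weight w m
    · rw [if_pos h]
      by_cases hd : m = d
      · subst hd
        rw [if_pos h.symm]
      · rw [coeff_monomial, if_neg hd]
        simp
    · rw [if_neg h]
      by_cases hd : m = d
      · subst hd
        rw [if_neg (fun h' => h h'.symm)]
        simp
      · rw [coeff_monomial, if_neg hd]
        simp
  | add p q hp hq =>
    rw [map_add, Polynomial.coeff_add, hp, hq, map_add]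

theorem homog_natDegree {k : Type} [Field k] (w : Fin 3 → ℕ) (f : R3 k) (hf : f ≠ 0) :
    (homog k w f).natDegree = weightedTotalDegree w f ∧ homog k w f ≠ 0 := by
  classical
  have hne : f.support.Nonempty := by
    rwa [Finset.nonempty_iff_ne_empty, Ne, support_eq_empty]
  obtain ⟨m, hm, hm'⟩ := Finset.exists_mem_eq_sup f.support hne (fun s => Finsupp.weight w s)
  have hD : weightedTotalDegree w f = Finsupp.weight w m := hm'
  have htop : (homog k w f).coeff (weightedTotalDegree w f) ≠ 0 := by
    rw [homog_coeff]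
    intro h
    have := congrArg (coeff m) h
    rw [coeff_weightedHomogeneousComponent, if_pos hD.symm] at this
    exact (mem_support_iff.1 hm) (by simpa using this)
  refine ⟨le_antisymm ?_ (Polynomial.le_natDegree_of_ne_zero htop), ?_⟩
  · rw [Polynomial.natDegree_le_iff_coeff_eq_zero]
    intro n hn
    rw [homog_coeff]
    exact weightedHomogeneousComponent_eq_zero n f hn
  · intro h
    rw [h] at htop
    simp at htop

theorem exists_atInf {k K : Type} [Field k] [Field K] [Algebra (R3 k) K]
    [IsFractionRing (R3 k) K] (w : Fin 3 → ℕ) (hw : ∀ i, 0 < w i) :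
    ∃ v : Valuation K ℤᵐ⁰, AtInf (k := k) w v := by
  have hmul : ∀ f g : R3 k, f ≠ 0 → g ≠ 0 →
      weightedTotalDegree w (f * g) = weightedTotalDegree w f + weightedTotalDegree w g := by
    intro f g hf hg
    rw [← (homog_natDegree w f hf).1, ← (homog_natDegree w g hg).1,
      ← (homog_natDegree w (f * g) (mul_ne_zero hf hg)).1, map_mul,
      Polynomial.natDegree_mul (homog_natDegree w f hf).2 (homog_natDegree w g hg).2]
  have hadd : ∀ f g : R3 k, f ≠ 0 → g ≠ 0 → f + g ≠ 0 →
      weightedTotalDegree w (f + g) ≤ max (weightedTotalDegree w f) (weightedTotalDegree w g) := by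
    intro f g hf hg hfg
    rw [← (homog_natDegree w f hf).1, ← (homog_natDegree w g hg).1,
      ← (homog_natDegree w (f + g) hfg).1, map_add]
    exact Polynomial.natDegree_add_le _ _
  have hone : weightedTotalDegree w (1 : R3 k) = 0 := by
    have := hmul 1 1 one_ne_zero one_ne_zero
    rw [mul_one] at this
    omega
  obtain ⟨v, hv⟩ := exists_of_degree (A := R3 k) (K := K)
    (fun f => ((weightedTotalDegree w f : ℕ) : ℤ)) (by simp [hone])
    (fun f g hf hg => by
      simp only [hmul f g hf hg]
      push_cast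
      ring)
    (fun f g hf hg hfg => by
      have := hadd f g hf hg hfg
      exact_mod_cast this)
  refine ⟨v, exp 1, ?_, ?_⟩
  · rw [← exp_zero, exp_lt_exp]
    norm_num
  · intro f hf
    rw [hv f hf, ← exp_nsmul]
    simp

theorem atInf_unique {k K Γ Γ' : Type} [Field k] [Field K] [Algebra (R3 k) K]
    [IsFractionRing (R3 k) K] [LinearOrderedCommGroupWithZero Γ]
    [LinearOrderedCommGroupWithZero Γ'] (w : Fin 3 → ℕ)
    (v : Valuation K Γ) (v' : Valuation K Γ') (hv : AtInf (k := k) w v)
    (hv' : AtInf (k := k) w v') :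
    v.IsEquiv v' := by
  have key : ∀ {Γ : Type} [LinearOrderedCommGroupWithZero Γ] (v : Valuation K Γ),
      AtInf (k := k) w v → ∀ f g : R3 k, f ≠ 0 → g ≠ 0 →
      (v (algebraMap (R3 k) K f / algebraMap (R3 k) K g) ≤ 1 ↔
        weightedTotalDegree w f ≤ weightedTotalDegree w g) := by
    intro Γ _ v hv f g hf hg
    obtain ⟨γ, hγ, h⟩ := hv
    have hγ0 : 0 < γ := lt_trans zero_lt_one hγ
    rw [map_div₀, h f hf, h g hg, div_le_one₀ (pow_pos hγ0 _)]
    exact pow_le_pow_iff_right₀ hγ
  rw [Valuation.isEquiv_iff_val_le_one]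
  intro x
  obtain ⟨f, g, hg, rfl⟩ := IsFractionRing.div_surjective (A := R3 k) x
  have hg0 : g ≠ 0 := nonZeroDivisors.ne_zero hg
  by_cases hf0 : f = 0
  · simp [hf0]
  rw [key v hv f g hf0 hg0, key v' hv' f g hf0 hg0]

end Pool.Agent.R423.DMV
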