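import Pool.Agent.R423.DMV.Base

set_option autoImplicit false
set_option linter.unusedSectionVars false

/-!
# DMV-E: contraction of a divisorial valuation along a finite extension (going down)
-/

noncomputable section

open MvPolynomial WithZero

namespace Pool.Agent.R423.DMV.PE

open Pool.Agent.R423.DMV

section general

variable {M Γ : Type} [Field M] [LinearOrderedCommGroupWithZero Γ]

/-- the centre of a valuation on a ring -/
def centre (v : Valuation M Γ) {S : Type} [CommRing S] (φ : S →+* M)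
    (hS : ∀ s, v (φ s) ≤ 1) : Ideal S where
  carrier := {s | v (φ s) < 1}
  add_mem' := by
    intro a b ha hb
    simp only [Set.mem_ofPred_eq, map_add] at ha hb ⊢
    exact lt_of_le_of_lt (v.map_add _ _) (max_lt ha hb)
  zero_mem' := by simp
  smul_mem' := by
    intro c x hx
    simp only [Set.mem_ofPred_eq, smul_eq_mul, map_mul] at hx ⊢
    exact lt_of_le_of_lt (mul_le_of_le_one_left' (hS c)) hx

lemma mem_centre {v : Valuation M Γ} {S : Type} [CommRing S] {φ : S →+* M}
    {hS : ∀ s, v (φ s) ≤ 1} {s : S} : s ∈ centre v φ hS ↔ v (φ s) < 1 := Iff.rfl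

lemma centre_isPrime (v : Valuation M Γ) {S : Type} [CommRing S] (φ : S →+* M)
    (hS : ∀ s, v (φ s) ≤ 1) : (centre v φ hS).IsPrime := by
  constructor
  · intro h
    have h1 : (1 : S) ∈ centre v φ hS := by
      rw [h]
      trivial
    rw [mem_centre, map_one, map_one] at h1
    exact lt_irrefl _ h1
  · intro a b hab
    rw [mem_centre, map_mul, map_mul] at hab
    by_contra hcon
    push Not at hcon
    rw [mem_centre, mem_centre, not_lt, not_lt] at hcon
    have h1 : v (φ a) = 1 := le_antisymm (hS a) hcon.1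
    have h2 : v (φ b) = 1 := le_antisymm (hS b) hcon.2
    rw [h1, h2, one_mul] at hab
    exact lt_irrefl _ hab

lemma val_le_one_of_isIntegral {v : Valuation M Γ} {S : Type} [CommRing S] [Algebra S M]
    (hS : ∀ s : S, v (algebraMap S M s) ≤ 1) {b : M} (hb : IsIntegral S b) : v b ≤ 1 := by
  obtain ⟨p, hp, he⟩ := hb
  let g : S →+* v.integer := (algebraMap S M).codRestrict v.integer hS
  have h1 : IsIntegral v.integer b := by
    refine ⟨p.map g, hp.map g, ?_⟩
    rw [Polynomial.eval₂_map]
    exact he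
  exact (Valuation.integer.integers v).mem_of_integral h1

lemma isInt_tors {S : Type} [CommRing S] [IsDomain S] [Algebra S M] (t b1 b2 b3 b4 : S)
    (hb4 : IsUnit b4) (u v : M)
    (h : Tors (algebraMap S M t) (algebraMap S M b1) (algebraMap S M b2) (algebraMap S M b3)
      (algebraMap S M b4) u v) : IsIntegral S u := by
  let pS : Polynomial S := Polynomial.C t * Polynomial.X + Polynomial.C b1 * Polynomial.X ^ 3 +
    Polynomial.C b2 * Polynomial.X ^ 9 + Polynomial.C b3 * Polynomial.X ^ 27 +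
    Polynomial.C b4 * Polynomial.X ^ 81
  have hb0 : b4 ≠ 0 := hb4.ne_zero
  have hev : ∀ x : M, Polynomial.aeval x pS = addPol (algebraMap S M t) (algebraMap S M b1)
      (algebraMap S M b2) (algebraMap S M b3) (algebraMap S M b4) x := by
    intro x
    simp only [pS, map_add, map_mul, Polynomial.aeval_C, Polynomial.aeval_X, map_pow, addPol]
  have hdeg : pS.natDegree = 81 := by
    simp only [pS]
    compute_degree!
  have hlc : pS.leadingCoeff = b4 := by
    rw [Polynomial.leadingCoeff, hdeg]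
    simp only [pS]
    compute_degree!
  set q : Polynomial S := pS.comp pS + Polynomial.X with hq
  have hqe : Polynomial.aeval u q = 0 := by
    rw [hq, map_add, Polynomial.aeval_comp, hev u, h.1, hev v, h.2, Polynomial.aeval_X]
    ring
  have hcd : (pS.comp pS).natDegree = 81 * 81 := by
    rw [Polynomial.natDegree_comp, hdeg]
  have hql : q.leadingCoeff = b4 * b4 ^ 81 := by
    rw [hq, Polynomial.leadingCoeff_add_of_degree_lt', Polynomial.leadingCoeff_comp, hlc, hdeg]
    · rw [hdeg]
      norm_num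
    · rw [Polynomial.degree_X]
      have : pS.comp pS ≠ 0 := by
        intro h0
        rw [h0] at hcd
        simp at hcd
      rw [Polynomial.degree_eq_natDegree this, hcd]
      norm_num
  have hint := isIntegral_leadingCoeff_smul q u hqe
  rw [hql] at hint
  have hunit : IsUnit (b4 * b4 ^ 81) := hb4.mul (hb4.pow 81)
  obtain ⟨w, hw⟩ := hunit
  have h2 : u = (↑w⁻¹ : S) • ((b4 * b4 ^ 81) • u) := by
    rw [smul_smul, ← hw, Units.inv_mul, one_smul]
  rw [h2]
  exact hint.smul _

end general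

section div

variable {k M Γ : Type} [Field k] [Field M] [Algebra (R3 k) M]
  [IsFractionRing (R3 k) M] [LinearOrderedCommGroupWithZero Γ]

lemma red_frac (x : M) : ∃ a b : R3 k, b ≠ 0 ∧ IsRelPrime a b ∧
    x * algebraMap (R3 k) M b = algebraMap (R3 k) M a := by
  obtain ⟨a, b, h1, h2⟩ := IsFractionRing.exists_reduced_fraction (A := R3 k) x
  refine ⟨a, b, nonZeroDivisors.ne_zero b.2, h1, ?_⟩
  rw [← h2]
  exact IsLocalization.mk'_spec _ _ _

lemma red_lt {v : Valuation M Γ} {Q : R3 k} (hQ : Irreducible Q) (hv : Centred v Q) {x : M}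
    (hx : v x < 1) {a b : R3 k} (hab : IsRelPrime a b)
    (h : x * algebraMap (R3 k) M b = algebraMap (R3 k) M a) : Q ∣ a ∧ ¬ Q ∣ b := by
  have h1 : v (algebraMap (R3 k) M a) < 1 := by
    rw [← h, map_mul]
    exact lt_of_le_of_lt (mul_le_of_le_one_right' (hv b).1) hx
  have h2 : Q ∣ a := (hv a).2.1 h1
  exact ⟨h2, fun h3 => hQ.not_isUnit (hab h2 h3)⟩

variable {v : Valuation M Γ} {Q : R3 k} {S : Type} [CommRing S] [IsDomain S]
  [IsIntegrallyClosed S] [Algebra S M]

/-- **E1.** -/
theorem mem_of_lt (hQ : Irreducible Q) (hv : Centred v Q)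
    (hinj : Function.Injective (algebraMap S M))
    (hint : ∀ r : R3 k, IsIntegral S (algebraMap (R3 k) M r))
    (hS : ∀ s : S, v (algebraMap S M s) ≤ 1) (p : Ideal S) [hp : p.IsPrime] (hp0 : p ≠ ⊥)
    (hle : ∀ s ∈ p, v (algebraMap S M s) < 1) (s : S) (hs : v (algebraMap S M s) < 1) :
    s ∈ p := by
  have hinjB : Function.Injective (algebraMap S (integralClosure S M)) := by
    intro a b hab
    apply hinj
    have := congrArg (fun z : integralClosure S M => (z : M)) hab
    exact this
  have : FaithfulSMul S (integralClosure S M) :=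
    (faithfulSMul_iff_algebraMap_injective S (integralClosure S M)).2 hinjB
  let QB : Ideal (integralClosure S M) := centre v (algebraMap (integralClosure S M) M)
    (fun b => val_le_one_of_isIntegral hS b.2)
  have hQB : QB.IsPrime := centre_isPrime _ _ _
  have hunder : ∀ s : S, s ∈ QB.under S ↔ v (algebraMap S M s) < 1 := fun s => Iff.rfl
  have hle' : p ≤ QB.under S := fun s hs => (hunder s).2 (hle s hs)
  obtain ⟨P', hP', hP'prime, hP'over⟩ := Ideal.exists_ideal_le_liesOver_of_le (p := p)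
    (q := QB.under S) QB hle'
  let ib : R3 k → integralClosure S M := fun r => ⟨algebraMap (R3 k) M r, hint r⟩
  have ib_mul : ∀ a b, ib (a * b) = ib a * ib b := fun a b =>
    Subtype.ext (by simp [ib, map_mul])
  have ib_pow : ∀ a n, ib (a ^ n) = ib a ^ n := fun a n =>
    Subtype.ext (by simp [ib, map_pow])
  have hibQ : ∀ r : R3 k, ib r ∈ QB ↔ Q ∣ r := fun r => (hv r).2
  -- a nonzero element of P'
  have hP'0 : ∃ b ∈ P', b ≠ 0 := by
    obtain ⟨z, hz, hz0⟩ := Submodule.exists_mem_ne_zero_of_ne_bot hp0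
    refine ⟨algebraMap S _ z, ?_, fun h => hz0 (hinjB (by rw [h, map_zero]))⟩
    have h2 := hP'over.over
    rw [h2] at hz
    exact hz
  have hQP' : ib Q ∈ P' := by
    obtain ⟨b, hb, hb0⟩ := hP'0
    obtain ⟨a, t, ht0, hat, heq⟩ := red_frac (k := k) (b : M)
    have h1 : ib a = b * ib t := Subtype.ext heq.symm
    have h2 : ib a ∈ P' := by
      rw [h1]
      exact P'.mul_mem_right _ hb
    have ha0 : a ≠ 0 := by
      rintro rfl
      rw [map_zero] at heq
      rcases mul_eq_zero.1 heq with h | h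
      · exact hb0 (Subtype.ext h)
      · exact ht0 ((IsFractionRing.injective (R3 k) M) (by rw [h, map_zero]))
    obtain ⟨c, hc1, hc2⟩ :=
      (FiniteMultiplicity.of_not_isUnit hQ.not_isUnit ha0).exists_eq_pow_mul_and_not_dvd
    rw [hc1, ib_mul, ib_pow] at h2
    rcases hP'prime.mem_or_mem h2 with h | h
    · exact hP'prime.mem_of_pow_mem _ h
    · exact absurd ((hibQ c).1 (hP' h)) hc2
  have hQBle : QB ≤ P' := by
    intro b hb
    obtain ⟨a, t, ht0, hat, heq⟩ := red_frac (k := k) (b : M)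
    obtain ⟨h1, h2⟩ := red_lt hQ hv (x := (b : M)) hb hat heq
    have h3 : ib a = b * ib t := Subtype.ext heq.symm
    have h4 : ib a ∈ P' := by
      obtain ⟨c, rfl⟩ := h1
      rw [ib_mul]
      exact P'.mul_mem_right _ hQP'
    rw [h3] at h4
    rcases hP'prime.mem_or_mem h4 with h | h
    · exact h
    · exact absurd ((hibQ t).1 (hP' h)) h2
  have h5 : p = QB.under S := by
    rw [hP'over.over]
    congr 1
    exact le_antisymm hP' hQBle
  rw [h5]
  exact (hunder s).2 hs

/-- **E2.** -/
theorem exists_lt (hQ : Irreducible Q) (hv : Centred v Q)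
    (hint : ∀ r : R3 k, IsIntegral S (algebraMap (R3 k) M r))
    (hS : ∀ s : S, v (algebraMap S M s) ≤ 1) : ∃ s : S, s ≠ 0 ∧ v (algebraMap S M s) < 1 := by
  let QB : Ideal (integralClosure S M) := centre v (algebraMap (integralClosure S M) M)
    (fun b => val_le_one_of_isIntegral hS b.2)
  have h1 : QB.comap (algebraMap S (integralClosure S M)) ≠ ⊥ := by
    apply Ideal.comap_ne_bot_of_integral_mem (x := ⟨algebraMap (R3 k) M Q, hint Q⟩)
    · intro h
      have h2 : algebraMap (R3 k) M Q = 0 := congrArg Subtype.val h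
      exact hQ.ne_zero ((IsFractionRing.injective (R3 k) M) (by rw [h2, map_zero]))
    · exact (hv Q).2.2 dvd_rfl
    · exact Algebra.IsIntegral.isIntegral _
  obtain ⟨z, hz, hz0⟩ := Submodule.exists_mem_ne_zero_of_ne_bot h1
  exact ⟨z, hz0, hz⟩

end div

/-- the value of the Cramer solutions -/
lemma cramer_le {M Γ : Type} [Field M] [CharP M 3] [LinearOrderedCommGroupWithZero Γ]
    (ν : Valuation M Γ) (t J0 J1 a u w : M) (ht : ν t ≤ 1) (ha : ν a ≤ 1) (hu : ν u ≤ 1)
    (hw : ν w ≤ 1) (hm : ν (moore u w) = 1) (hT : Tors t 1 J0 J1 a u w) :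
    ν J0 ≤ 1 ∧ ν J1 ≤ 1 := by
  obtain ⟨h1, h2⟩ := hT
  unfold addPol at h1 h2
  have hD : (moore u w) ^ 9 = u ^ 9 * w ^ 27 - u ^ 27 * w ^ 9 := by
    unfold moore
    have := sub_pow_char_pow (p := 3) (R := M) (u * w ^ 3) (u ^ 3 * w) (n := 2)
    norm_num at this
    rw [this]
    ring
  have hle : ∀ {x y : M}, ν x ≤ 1 → ν y ≤ 1 → ν (x * y) ≤ 1 := fun hx hy => by
    rw [map_mul]
    exact mul_le_one' hx hy
  have hpow : ∀ {x : M} (n : ℕ), ν x ≤ 1 → ν (x ^ n) ≤ 1 := fun n hx => by
    rw [map_pow]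
    exact pow_le_one' hx n
  have hadd : ∀ {x y : M}, ν x ≤ 1 → ν y ≤ 1 → ν (x + y) ≤ 1 := fun hx hy =>
    (ν.map_add _ _).trans (max_le hx hy)
  have hsub : ∀ {x y : M}, ν x ≤ 1 → ν y ≤ 1 → ν (x - y) ≤ 1 := fun hx hy =>
    (ν.map_sub _ _).trans (max_le hx hy)
  have hneg : ∀ {x : M}, ν x ≤ 1 → ν (-x) ≤ 1 := fun hx => by
    rw [Valuation.map_neg]
    exact hx
  set A := w - t * u - u ^ 3 - a * u ^ 81 with hA
  set B := -u - t * w - w ^ 3 - a * w ^ 81 with hB
  have hAe : J0 * u ^ 9 + J1 * u ^ 27 = A := by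
    rw [hA]
    linear_combination h1
  have hBe : J0 * w ^ 9 + J1 * w ^ 27 = B := by
    rw [hB]
    linear_combination h2
  have hAv : ν A ≤ 1 := hsub (hsub (hsub hw (hle ht hu)) (hpow 3 hu)) (hle ha (hpow 81 hu))
  have hBv : ν B ≤ 1 := hsub (hsub (hsub (hneg hu) (hle ht hw)) (hpow 3 hw)) (hle ha (hpow 81 hw))
  have e0 : J0 * (moore u w) ^ 9 = A * w ^ 27 - B * u ^ 27 := by
    rw [hD, ← hAe, ← hBe]
    ring
  have e1 : J1 * (moore u w) ^ 9 = u ^ 9 * B - w ^ 9 * A := by
    rw [hD, ← hAe, ← hBe]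
    ring
  have hm9 : ν ((moore u w) ^ 9) = 1 := by
    rw [map_pow, hm, one_pow]
  constructor
  · have := hsub (hle hAv (hpow 27 hw)) (hle hBv (hpow 27 hu))
    rw [← e0, map_mul, hm9, mul_one] at this
    exact this
  · have := hsub (hle (hpow 9 hu) hBv) (hle (hpow 9 hw) hAv)
    rw [← e1, map_mul, hm9, mul_one] at this
    exact this

theorem contraction_centred {k M Γ : Type} [Field k] [CharP k 3] [Field M] [Algebra (R3 k) M]
    [IsFractionRing (R3 k) M] [LinearOrderedCommGroupWithZero Γ] (v : Valuation M Γ)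
    (Q : R3 k) (hQ : Irreducible Q) (hQ2 : ¬ Q ∣ X 2) (hQP : ¬ Q ∣ moore (X 0) (X 1))
    (hv : Centred v Q)
    (θ : R3 k →+* M) (hθ : Function.Injective θ) (hθC : ∀ c : k, θ (C c) = cst c)
    (hθ2 : θ (X 2) = jc k 2) (t : k)
    (hT : Tors (cst t) 1 (θ (X 0)) (θ (X 1)) (jc k 2) (jc k 0) (jc k 1 : M)) :
    ∃ P : R3 k, Irreducible P ∧ ¬ P ∣ X 2 ∧ ¬ X 2 ∣ P ∧
      ∀ f : R3 k, v (θ f) ≤ 1 ∧ (v (θ f) < 1 ↔ P ∣ f) := by
  classical
  have : CharP M 3 := charP_of_injective_ringHom
    (f := (algebraMap (R3 k) M).comp (C : k →+* R3 k)) (RingHom.injective _) 3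
  have hX2 : Irreducible (X 2 : R3 k) := (MvPolynomial.X_prime (i := 2)).irreducible
  have hle : ∀ r : R3 k, v (algebraMap (R3 k) M r) ≤ 1 := fun r => (hv r).1
  have hone : ∀ r : R3 k, ¬ Q ∣ r → v (algebraMap (R3 k) M r) = 1 := fun r hr =>
    le_antisymm (hle r) (not_lt.1 fun h => hr ((hv r).2.1 h))
  have hva : v (jc k 2 : M) = 1 := hone _ hQ2
  have hmoore : v (moore (jc k 0 : M) (jc k 1)) = 1 := by
    have := hone _ hQP
    rw [← this]
    congr 1
    simp only [moore, jc, map_sub, map_mul, map_pow]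
  obtain ⟨hJ0, hJ1⟩ := cramer_le v (cst t) (θ (X 0)) (θ (X 1)) (jc k 2) (jc k 0) (jc k 1)
    (hle _) hva.le (hle _) (hle _) hmoore hT
  have hθ1 : ∀ f : R3 k, v (θ f) ≤ 1 := by
    intro f
    induction f using MvPolynomial.induction_on with
    | C c =>
      rw [hθC]
      exact hle _
    | add p q hp hq =>
      rw [map_add]
      exact (v.map_add _ _).trans (max_le hp hq)
    | mul_X p i hp =>
      rw [map_mul, map_mul]
      refine mul_le_one' hp ?_
      fin_cases i
      · exact hJ0
      · exact hJ1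
      · show v (θ (X 2)) ≤ 1
        rw [hθ2]
        exact hva.le
  -- the localization
  have hunit : IsUnit (θ (X 2)) := by
    rw [isUnit_iff_ne_zero]
    intro h
    rw [hθ2] at h
    rw [h, map_zero] at hva
    exact zero_ne_one hva
  let S := Localization.Away (X 2 : R3 k)
  let φ : S →+* M := IsLocalization.Away.lift (X 2 : R3 k) hunit
  have hφ : ∀ r : R3 k, φ (algebraMap (R3 k) S r) = θ r := fun r =>
    IsLocalization.Away.lift_eq (X 2 : R3 k) hunit r
  let : Algebra S M := φ.toAlgebra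
  have hpow : Submonoid.powers (X 2 : R3 k) ≤ nonZeroDivisors (R3 k) :=
    powers_le_nonZeroDivisors_of_noZeroDivisors hX2.ne_zero
  have : IsDomain S := IsLocalization.isDomain_localization hpow
  have : IsIntegrallyClosed S :=
    isIntegrallyClosed_of_isLocalization S (Submonoid.powers (X 2 : R3 k)) hpow
  have hsurj : ∀ s : S, ∃ (n : ℕ) (f : R3 k), φ s * θ (X 2) ^ n = θ f ∧
      s * algebraMap (R3 k) S (X 2) ^ n = algebraMap (R3 k) S f := by
    intro s
    obtain ⟨n, f, h⟩ := IsLocalization.Away.surj (X 2 : R3 k) s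
    refine ⟨n, f, ?_, h⟩
    rw [← hφ, ← hφ, ← map_pow, ← map_mul, h]
  have hva2 : v (θ (X 2)) = 1 := by rw [hθ2]; exact hva
  have hvφ : ∀ s : S, ∀ n f, φ s * θ (X 2) ^ n = θ f → v (φ s) = v (θ f) := by
    intro s n f h
    rw [← h, map_mul, map_pow, hva2, one_pow, mul_one]
  have hS : ∀ s : S, v (algebraMap S M s) ≤ 1 := by
    intro s
    obtain ⟨n, f, h, _⟩ := hsurj s
    have : v (algebraMap S M s) = v (θ f) := hvφ s n f h
    rw [this]
    exact hθ1 f
  have hinj : Function.Injective (algebraMap S M) := by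
    rw [injective_iff_map_eq_zero]
    intro s hs
    obtain ⟨n, f, h, h2⟩ := hsurj s
    have h0 : φ s = 0 := hs
    rw [h0, zero_mul] at h
    have hf : f = 0 := hθ (by rw [← h, map_zero])
    rw [hf, map_zero] at h2
    rcases mul_eq_zero.1 h2 with h3 | h3
    · exact h3
    · exfalso
      have h4 : IsUnit (algebraMap (R3 k) S (X 2) ^ n) :=
        (IsLocalization.Away.algebraMap_isUnit (X 2 : R3 k)).pow n
      rw [h3] at h4
      exact not_isUnit_zero h4
  have hTS : Tors (algebraMap S M (algebraMap (R3 k) S (C t))) (algebraMap S M 1)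
      (algebraMap S M (algebraMap (R3 k) S (X 0))) (algebraMap S M (algebraMap (R3 k) S (X 1)))
      (algebraMap S M (algebraMap (R3 k) S (X 2))) (jc k 0) (jc k 1 : M) := by
    have e : ∀ r : R3 k, algebraMap S M (algebraMap (R3 k) S r) = θ r := hφ
    rw [e, e, e, e, map_one, hθC, hθ2]
    exact hT
  have hb4 : IsUnit (algebraMap (R3 k) S (X 2)) :=
    IsLocalization.Away.algebraMap_isUnit (X 2 : R3 k)
  have hTS' : Tors (algebraMap S M (algebraMap (R3 k) S (C t))) (algebraMap S M 1)
      (algebraMap S M (algebraMap (R3 k) S (X 0))) (algebraMap S M (algebraMap (R3 k) S (X 1)))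
      (algebraMap S M (algebraMap (R3 k) S (X 2))) (jc k 1) (-(jc k 0) : M) := by
    obtain ⟨h1, h2⟩ := hTS
    refine ⟨h2, ?_⟩
    rw [← h1]
    unfold addPol
    ring
  have hint : ∀ r : R3 k, IsIntegral S (algebraMap (R3 k) M r) := by
    intro r
    induction r using MvPolynomial.induction_on with
    | C c =>
      have : algebraMap (R3 k) M (C c) = algebraMap S M (algebraMap (R3 k) S (C c)) :=
        ((hφ (C c)).trans (hθC c)).symm
      rw [this]
      exact isIntegral_algebraMap
    | add p q hp hq =>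
      rw [map_add]
      exact hp.add hq
    | mul_X p i hp =>
      rw [map_mul]
      refine hp.mul ?_
      fin_cases i
      · exact isInt_tors _ _ _ _ _ hb4 _ _ hTS
      · exact isInt_tors _ _ _ _ _ hb4 _ _ hTS'
      · have : algebraMap (R3 k) M (X 2) = algebraMap S M (algebraMap (R3 k) S (X 2)) :=
          ((hφ (X 2)).trans hθ2).symm
        show IsIntegral S (algebraMap (R3 k) M (X 2))
        rw [this]
        exact isIntegral_algebraMap
  -- the centre on `R3`
  have hqprime := centre_isPrime v θ hθ1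
  have hq0 : centre v θ hθ1 ≠ ⊥ := by
    obtain ⟨s, hs0, hs⟩ := exists_lt (S := S) hQ hv hint hS
    obtain ⟨n, f, h, h2⟩ := hsurj s
    intro hbot
    have hf : f ∈ centre v θ hθ1 := by
      rw [mem_centre, ← hvφ s n f h]
      exact hs
    rw [hbot] at hf
    have hf0 : f = 0 := hf
    rw [hf0, map_zero] at h
    rcases mul_eq_zero.1 h with h3 | h3
    · exact hs0 (hinj (by rw [map_zero]; exact h3))
    · exact (pow_ne_zero n hunit.ne_zero) h3
  obtain ⟨P, hPmem, hPprime⟩ := hqprime.exists_mem_prime_of_ne_bot hq0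
  have hP2 : ¬ P ∣ X 2 := by
    rintro ⟨c, hc⟩
    have : (X 2 : R3 k) ∈ centre v θ hθ1 := by
      rw [hc]
      exact Ideal.mul_mem_right _ _ hPmem
    rw [mem_centre, hva2] at this
    exact lt_irrefl _ this
  refine ⟨P, hPprime.irreducible, hP2, fun h => hP2 (hX2.dvd_symm hPprime.irreducible h),
    fun f => ⟨hθ1 f, ?_, ?_⟩⟩
  · intro hf
    have hsp : (Ideal.span {P} : Ideal (R3 k)).IsPrime :=
      (Ideal.span_singleton_prime hPprime.ne_zero).2 hPprime
    have hdisj : Disjoint (Submonoid.powers (X 2 : R3 k) : Set (R3 k)) ↑(Ideal.span {P}) := by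
      rw [Set.disjoint_left]
      rintro x ⟨n, rfl⟩ hx
      rw [SetLike.mem_coe, Ideal.mem_span_singleton] at hx
      exact hP2 (hPprime.dvd_of_dvd_pow hx)
    have hpp := IsLocalization.isPrime_of_isPrime_disjoint (Submonoid.powers (X 2 : R3 k)) S
      (Ideal.span {P}) hsp hdisj
    have hunder := IsLocalization.under_map_of_isPrime_disjoint (Submonoid.powers (X 2 : R3 k)) S
      hsp hdisj
    have hPS : (Ideal.map (algebraMap (R3 k) S) (Ideal.span {P})) ≠ ⊥ := by
      intro hbot
      have h1 : algebraMap (R3 k) S P ∈ Ideal.map (algebraMap (R3 k) S) (Ideal.span {P}) :=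
        Ideal.mem_map_of_mem _ (Ideal.mem_span_singleton_self P)
      rw [hbot, Ideal.mem_bot] at h1
      have h2 : θ P = 0 := by rw [← hφ, h1, map_zero]
      exact hPprime.ne_zero (hθ (by rw [h2, map_zero]))
    have hlt : ∀ s ∈ Ideal.map (algebraMap (R3 k) S) (Ideal.span {P}),
        v (algebraMap S M s) < 1 := by
      have : Ideal.map (algebraMap (R3 k) S) (Ideal.span {P}) ≤ centre v (algebraMap S M) hS := by
        rw [Ideal.map_le_iff_le_comap, Ideal.span_singleton_le_iff_mem, Ideal.mem_comap,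
          mem_centre]
        have : v (algebraMap S M (algebraMap (R3 k) S P)) = v (θ P) := congrArg v (hφ P)
        rw [this]
        exact hPmem
      exact this
    have hfS : algebraMap (R3 k) S f ∈ Ideal.map (algebraMap (R3 k) S) (Ideal.span {P}) := by
      refine mem_of_lt hQ hv hinj hint hS _ hPS hlt _ ?_
      have : v (algebraMap S M (algebraMap (R3 k) S f)) = v (θ f) := congrArg v (hφ f)
      rw [this]
      exact hf
    have h3 : f ∈ (Ideal.map (algebraMap (R3 k) S) (Ideal.span {P})).under (R3 k) := hfS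
    rw [hunder] at h3
    exact Ideal.mem_span_singleton.1 h3
  · rintro ⟨c, rfl⟩
    exact Ideal.mul_mem_right c (centre v θ hθ1) hPmem

end Pool.Agent.R423.DMV.PE
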