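import Pool.Agent.R423.DMV.D

set_option autoImplicit false
set_option linter.unusedSectionVars false

/-!
# DMV-F: the exponent argument
-/

noncomputable section

open MvPolynomial WithZero

namespace Pool.Agent.R423.DMV.PF

open Pool.Agent.R423.DMV

section sigma

variable {k : Type} [Field k] [CharP k 3]

lemma three_zero : (3 : R3 k) = 0 := by
  have h : ((3 : ℕ) : k) = 0 := CharP.cast_eq_zero k 3
  have h2 : (C ((3 : ℕ) : k) : R3 k) = 0 := by rw [h, map_zero]
  rw [map_natCast] at h2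
  exact_mod_cast h2

lemma three_zero' : (3 : k) = 0 := by
  have h : ((3 : ℕ) : k) = 0 := CharP.cast_eq_zero k 3
  exact_mod_cast h

@[simp] lemma sig_X0 : sig k (X 0) = X 0 + X 1 := by simp [sig]

@[simp] lemma sig_X1 : sig k (X 1) = X 1 - X 0 := by simp [sig]

@[simp] lemma sig_X2 : sig k (X 2) = X 2 := by simp [sig]

/-- the inverse of `sig` -/
def tau (k : Type) [Field k] : R3 k →ₐ[k] R3 k := aeval ![X 1 - X 0, -(X 0 + X 1), X 2]

lemma tau_X0 : tau k (X 0) = X 1 - X 0 := by simp [tau]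

lemma tau_X1 : tau k (X 1) = -(X 0 + X 1) := by simp [tau]

lemma tau_X2 : tau k (X 2) = X 2 := by simp [tau]

/-- `sig` as an automorphism -/
def sigE (k : Type) [Field k] [CharP k 3] : R3 k ≃ₐ[k] R3 k :=
  AlgEquiv.ofAlgHom (sig k) (tau k)
    (by
      apply MvPolynomial.algHom_ext
      intro i
      have h3 := three_zero (k := k)
      fin_cases i
      · show sig k (tau k (X 0)) = X 0
        rw [tau_X0, map_sub, sig_X0, sig_X1]
        linear_combination (-X 0) * h3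
      · show sig k (tau k (X 1)) = X 1
        rw [tau_X1, map_neg, map_add, sig_X0, sig_X1]
        linear_combination (-X 1) * h3
      · show sig k (tau k (X 2)) = X 2
        rw [tau_X2, sig_X2])
    (by
      apply MvPolynomial.algHom_ext
      intro i
      have h3 := three_zero (k := k)
      fin_cases i
      · show tau k (sig k (X 0)) = X 0
        rw [sig_X0, map_add, tau_X0, tau_X1]
        linear_combination (-X 0) * h3
      · show tau k (sig k (X 1)) = X 1
        rw [sig_X1, map_sub, tau_X0, tau_X1]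
        linear_combination (-X 1) * h3
      · show tau k (sig k (X 2)) = X 2
        rw [sig_X2, tau_X2])

lemma sigE_apply (f : R3 k) : sigE k f = sig k f := rfl

lemma sig_dvd {f g : R3 k} (h : sig k f ∣ sig k g) : f ∣ g :=
  (map_dvd_iff (sigE k)).1 h

lemma sig_prime {f : R3 k} (h : Prime f) : Prime (sig k f) :=
  (MulEquiv.prime_iff (sigE k).toMulEquiv).2 h

lemma sig_moore : sig k (moore (X 0) (X 1)) = -moore (X 0) (X 1) := by
  unfold moore
  simp only [map_sub, map_mul, map_pow, sig_X0, sig_X1]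
  have h3 := three_zero (k := k)
  linear_combination (-(X 0 * X 1 ^ 3 - X 0 ^ 3 * X 1)) * h3

lemma moore_eq : (moore (X 0) (X 1) : R3 k) = X 0 * X 1 * (X 0 + X 1) * (X 1 - X 0) := by
  unfold moore
  ring

lemma two_ne : (2 : k) ≠ 0 := by
  intro h
  have h3 := three_zero' (k := k)
  have : (1 : k) = 0 := by linear_combination h3 - h
  exact one_ne_zero this

lemma not_dvd_of_eval {f g : R3 k} (a b : k) (hf : eval ![a, b, 0] f = 0)
    (hg : eval ![a, b, 0] g ≠ 0) : ¬ f ∣ g := by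
  rintro ⟨c, rfl⟩
  apply hg
  rw [map_mul, hf, zero_mul]

lemma p0 : Prime (X 0 : R3 k) := MvPolynomial.X_prime

lemma p1 : Prime (X 1 : R3 k) := MvPolynomial.X_prime

lemma p01 : Prime (X 0 + X 1 : R3 k) := by
  have := sig_prime (p0 (k := k))
  rwa [sig_X0] at this

lemma p10 : Prime (X 1 - X 0 : R3 k) := by
  have := sig_prime (p1 (k := k))
  rwa [sig_X1] at this

lemma moore_dvd {f : R3 k} (h0 : X 0 ∣ f) (h1 : X 1 ∣ f) (h01 : X 0 + X 1 ∣ f)
    (h10 : X 1 - X 0 ∣ f) : moore (X 0) (X 1) ∣ f := by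
  have h2 := two_ne (k := k)
  obtain ⟨g, rfl⟩ := h0
  have n1 : ¬ (X 1 : R3 k) ∣ X 0 := not_dvd_of_eval 1 0 (by simp) (by simp)
  have n2 : ¬ (X 0 + X 1 : R3 k) ∣ X 0 := not_dvd_of_eval 1 (-1) (by simp) (by simp)
  have n3 : ¬ (X 0 + X 1 : R3 k) ∣ X 1 := not_dvd_of_eval 1 (-1) (by simp) (by simp)
  have n4 : ¬ (X 1 - X 0 : R3 k) ∣ X 0 := not_dvd_of_eval 1 1 (by simp) (by simp)
  have n5 : ¬ (X 1 - X 0 : R3 k) ∣ X 1 := not_dvd_of_eval 1 1 (by simp) (by simp)
  have n6 : ¬ (X 1 - X 0 : R3 k) ∣ X 0 + X 1 := not_dvd_of_eval 1 1 (by simp) (by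
    simp only [map_add, eval_X, Matrix.cons_val_zero, Matrix.cons_val_one]
    intro h
    apply h2
    linear_combination h)
  have h1' := (p1.dvd_or_dvd h1).resolve_left n1
  obtain ⟨g', rfl⟩ := h1'
  have h01' := (p01.dvd_or_dvd ((p01.dvd_or_dvd h01).resolve_left n2)).resolve_left n3
  obtain ⟨g'', rfl⟩ := h01'
  have h10' := (p10.dvd_or_dvd ((p10.dvd_or_dvd ((p10.dvd_or_dvd h10).resolve_left
    n4)).resolve_left n5)).resolve_left n6
  obtain ⟨g3, rfl⟩ := h10'
  refine ⟨g3, ?_⟩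
  rw [moore_eq]
  ring

/-- a polynomial which is associated to its image under `sig` and has only special irreducible
factors -/
theorem special_form {f : R3 k} (hf : f ≠ 0) (hs : sig k f ∣ f)
    (h : ∀ Q : R3 k, Irreducible Q → Q ∣ f → Q ∣ X 2 ∨ Q ∣ moore (X 0) (X 1)) :
    ∃ (c : k) (n b : ℕ), c ≠ 0 ∧ f = C c * moore (X 0) (X 1) ^ n * X 2 ^ b := by
  have hX2p : Prime (X 2 : R3 k) := MvPolynomial.X_prime
  have hX2 : ¬ IsUnit (X 2 : R3 k) := hX2p.not_isUnit
  have hmu : ¬ IsUnit (moore (X 0) (X 1) : R3 k) := by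
    intro hu
    have : IsUnit (X 0 : R3 k) := isUnit_of_dvd_unit ⟨X 1 * (X 0 + X 1) * (X 1 - X 0), by
      rw [moore_eq]; ring⟩ hu
    exact p0.not_isUnit this
  obtain ⟨f1, hf1, hf1n⟩ := (FiniteMultiplicity.of_not_isUnit hX2 hf).exists_eq_pow_mul_and_not_dvd
  set b := multiplicity (X 2 : R3 k) f
  have hf10 : f1 ≠ 0 := by
    rintro rfl
    exact hf1n (dvd_zero _)
  obtain ⟨f2, hf2, hf2n⟩ :=
    (FiniteMultiplicity.of_not_isUnit hmu hf10).exists_eq_pow_mul_and_not_dvd
  set n := multiplicity (moore (X 0) (X 1) : R3 k) f1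
  have hm0 : (moore (X 0) (X 1) : R3 k) ≠ 0 := fun h0 => by
    rw [h0] at hf2n
    rw [moore_eq] at h0
    have := p0 (k := k)
    simp only [mul_eq_zero] at h0
    rcases h0 with ((h0 | h0) | h0) | h0
    · exact p0.ne_zero h0
    · exact p1.ne_zero h0
    · exact p01.ne_zero h0
    · exact p10.ne_zero h0
  -- `sig f2 ∣ f2`
  have hs2 : sig k f2 ∣ f2 := by
    have h1 : (X 2 ^ b * moore (X 0) (X 1) ^ n) * sig k f2 ∣
        (X 2 ^ b * moore (X 0) (X 1) ^ n) * f2 := by
      have e1 : f = (X 2 ^ b * moore (X 0) (X 1) ^ n) * f2 := by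
        rw [hf1, hf2]
        ring
      have e2 : sig k f = (-1) ^ n * ((X 2 ^ b * moore (X 0) (X 1) ^ n) * sig k f2) := by
        rw [e1]
        simp only [map_mul, map_pow, sig_X2, sig_moore]
        rw [neg_pow]
        ring
      rw [← e1]
      refine dvd_trans ?_ hs
      rw [e2]
      exact dvd_mul_left _ _
    exact (mul_dvd_mul_iff_left (mul_ne_zero (pow_ne_zero _ hX2p.ne_zero)
      (pow_ne_zero _ hm0))).1 h1
  have hunit : IsUnit f2 := by
    by_contra hnu
    have hf20 : f2 ≠ 0 := by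
      rintro rfl
      exact hf2n (dvd_zero _)
    obtain ⟨Q, hQ, hQf⟩ := WfDvdMonoid.exists_irreducible_factor hnu hf20
    have hQp : Prime Q := hQ.prime
    have hstep : ∀ l : R3 k, l ∣ f2 → sig k l ∣ f2 := fun l hl => (map_dvd (sig k) hl).trans hs2
    have h3 := three_zero (k := k)
    have c1 : X 0 ∣ f2 → X 0 + X 1 ∣ f2 := fun hl => by
      have := hstep _ hl
      rwa [sig_X0] at this
    have c2 : X 0 + X 1 ∣ f2 → X 1 ∣ f2 := fun hl => by
      have := hstep _ hl
      rw [map_add, sig_X0, sig_X1] at this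
      refine dvd_trans ?_ this
      exact ⟨-1, by linear_combination (X 1) * h3⟩
    have c3 : X 1 ∣ f2 → X 1 - X 0 ∣ f2 := fun hl => by
      have := hstep _ hl
      rwa [sig_X1] at this
    have c4 : X 1 - X 0 ∣ f2 → X 0 ∣ f2 := fun hl => by
      have := hstep _ hl
      rw [map_sub, sig_X0, sig_X1] at this
      refine dvd_trans ?_ this
      exact ⟨1, by linear_combination (-X 0) * h3⟩
    have hall : X 0 ∣ f2 → False := fun hl =>
      hf2n (moore_dvd hl (c2 (c1 hl)) (c1 hl) (c3 (c2 (c1 hl))))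
    have hdvd : ∀ l : R3 k, Prime l → Q ∣ l → l ∣ f2 := fun l hl hQl =>
      ((hQ.dvd_symm hl.irreducible hQl)).trans hQf
    rcases h Q hQ (hQf.trans ⟨X 2 ^ b * moore (X 0) (X 1) ^ n, by rw [hf1, hf2]; ring⟩) with h1 | h1
    · exact hf1n ((hdvd _ hX2p h1).trans ⟨moore (X 0) (X 1) ^ n, by rw [hf2]; ring⟩)
    · rw [moore_eq] at h1
      rcases hQp.dvd_or_dvd h1 with h1 | h1
      · rcases hQp.dvd_or_dvd h1 with h1 | h1
        · rcases hQp.dvd_or_dvd h1 with h1 | h1
          · exact hall (hdvd _ p0 h1)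
          · exact hall (c4 (c3 (hdvd _ p1 h1)))
        · exact hall (c4 (c3 (c2 (hdvd _ p01 h1))))
      · exact hall (c4 (hdvd _ p10 h1))
  obtain ⟨c, hc, hcf⟩ := (MvPolynomial.isUnit_iff_eq_C_of_isReduced).1 hunit
  refine ⟨c, n, b, hc.ne_zero, ?_⟩
  rw [hf1, hf2, hcf]
  ring

end sigma

theorem exponent_argument {k M : Type} [Field k] [CharP k 3] [Field M] [Algebra (R3 k) M]
    [IsFractionRing (R3 k) M] (f g : R3 k) (hf : f ≠ 0) (hg : g ≠ 0)
    (hσ : f * sig k g = sig k f * g)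
    (h : ∀ Q : R3 k, Irreducible Q → ¬ Q ∣ X 2 → ¬ Q ∣ moore (X 0) (X 1) →
      ∀ v : Valuation M ℤᵐ⁰, Centred v Q → v (algebraMap _ M f) = v (algebraMap _ M g)) :
    ∃ (c : k) (e b : ℤ), c ≠ 0 ∧
      algebraMap (R3 k) M f = algebraMap (R3 k) M g * cst c *
        (algebraMap (R3 k) M (moore (X 0) (X 1))) ^ (2 * e) * (jc k 2) ^ b := by
  have hinj : Function.Injective (algebraMap (R3 k) M) := IsFractionRing.injective _ _
  have hne : ∀ {r : R3 k}, r ≠ 0 → algebraMap (R3 k) M r ≠ 0 := fun hr h0 =>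
    hr (hinj (by rw [h0, map_zero]))
  obtain ⟨f1, g1, d, hrel, rfl, rfl⟩ := UniqueFactorizationMonoid.exists_reduced_factors f hf g
  have hd : d ≠ 0 := left_ne_zero_of_mul hf
  have hf1 : f1 ≠ 0 := right_ne_zero_of_mul hf
  have hg1 : g1 ≠ 0 := right_ne_zero_of_mul hg
  have hsd : sig k d ≠ 0 := by
    rw [← sigE_apply]
    exact (map_ne_zero_iff _ (sigE k).injective).2 hd
  have hσ1 : f1 * sig k g1 = sig k f1 * g1 := by
    rw [map_mul, map_mul] at hσ
    have : (d * sig k d) * (f1 * sig k g1) = (d * sig k d) * (sig k f1 * g1) := by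
      linear_combination hσ
    exact mul_left_cancel₀ (mul_ne_zero hd hsd) this
  have hval : ∀ Q : R3 k, Irreducible Q → ¬ Q ∣ X 2 → ¬ Q ∣ moore (X 0) (X 1) →
      ¬ Q ∣ f1 ∧ ¬ Q ∣ g1 := by
    intro Q hQ h2 hP
    obtain ⟨v, _, hv⟩ := exists_centred (K := M) Q hQ
    have h1 := h Q hQ h2 hP v hv
    rw [map_mul, map_mul, map_mul, map_mul] at h1
    have hvd : v (algebraMap (R3 k) M d) ≠ 0 := (Valuation.ne_zero_iff v).2 (hne hd)
    have h3 : v (algebraMap (R3 k) M f1) = v (algebraMap (R3 k) M g1) := mul_left_cancel₀ hvd h1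
    constructor
    · intro hQf
      have : v (algebraMap (R3 k) M g1) < 1 := by
        rw [← h3]
        exact (hv f1).2.2 hQf
      exact hQ.not_isUnit (hrel hQf ((hv g1).2.1 this))
    · intro hQg
      have : v (algebraMap (R3 k) M f1) < 1 := by
        rw [h3]
        exact (hv g1).2.2 hQg
      exact hQ.not_isUnit (hrel ((hv f1).2.1 this) hQg)
  have hrelσ : IsRelPrime (sig k f1) (sig k g1) := by
    intro z hz1 hz2
    obtain ⟨y, rfl⟩ := (sigE k).surjective z
    rw [sigE_apply] at hz1 hz2 ⊢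
    have := hrel (sig_dvd hz1) (sig_dvd hz2)
    exact this.map (sig k)
  have hsf : sig k f1 ∣ f1 := hrelσ.dvd_of_dvd_mul_right ⟨g1, hσ1⟩
  have hsg : sig k g1 ∣ g1 := hrelσ.symm.dvd_of_dvd_mul_left ⟨f1, by rw [← hσ1]; ring⟩
  obtain ⟨c1, n1, b1, hc1, e1⟩ := special_form hf1 hsf (fun Q hQ hQf => by
    by_contra hcon
    push Not at hcon
    exact (hval Q hQ hcon.1 hcon.2).1 hQf)
  obtain ⟨c2, n2, b2, hc2, e2⟩ := special_form hg1 hsg (fun Q hQ hQf => by
    by_contra hcon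
    push Not at hcon
    exact (hval Q hQ hcon.1 hcon.2).2 hQf)
  have hsf1 : sig k f1 = (-1) ^ n1 * f1 := by
    conv_lhs => rw [e1]
    conv_rhs => rw [e1]
    simp only [map_mul, map_pow, sig_X2, sig_moore]
    rw [show sig k (C c1) = C c1 from (sig k).commutes c1, neg_pow]
    ring
  have hsg1 : sig k g1 = (-1) ^ n2 * g1 := by
    conv_lhs => rw [e2]
    conv_rhs => rw [e2]
    simp only [map_mul, map_pow, sig_X2, sig_moore]
    rw [show sig k (C c2) = C c2 from (sig k).commutes c2, neg_pow]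
    ring
  have hpar : (-1 : R3 k) ^ n1 = (-1) ^ n2 := by
    rw [hsf1, hsg1] at hσ1
    have : (f1 * g1) * (-1 : R3 k) ^ n1 = (f1 * g1) * (-1) ^ n2 := by
      linear_combination -hσ1
    exact mul_left_cancel₀ (mul_ne_zero hf1 hg1) this
  have h11 : (-1 : R3 k) ≠ 1 := by
    intro h0
    have h2 : (2 : R3 k) = 0 := by linear_combination -h0
    have h3 := three_zero (k := k)
    have : (1 : R3 k) = 0 := by linear_combination h3 - h2
    exact one_ne_zero this
  have hev : ∃ e : ℤ, (n1 : ℤ) - n2 = 2 * e := by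
    rcases Nat.even_or_odd n1 with h1 | h1 <;> rcases Nat.even_or_odd n2 with h2 | h2
    · obtain ⟨x, hx⟩ := h1
      obtain ⟨y, hy⟩ := h2
      exact ⟨x - y, by omega⟩
    · rw [h1.neg_one_pow, h2.neg_one_pow] at hpar
      exact absurd hpar.symm h11
    · rw [h1.neg_one_pow, h2.neg_one_pow] at hpar
      exact absurd hpar h11
    · obtain ⟨x, hx⟩ := h1
      obtain ⟨y, hy⟩ := h2
      exact ⟨x - y, by omega⟩
  obtain ⟨e, he⟩ := hev
  have hm0 : (moore (X 0) (X 1) : R3 k) ≠ 0 := by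
    rw [moore_eq]
    exact mul_ne_zero (mul_ne_zero (mul_ne_zero p0.ne_zero p1.ne_zero) p01.ne_zero) p10.ne_zero
  have hmM : algebraMap (R3 k) M (moore (X 0) (X 1)) ≠ 0 := hne hm0
  have haM : (jc k 2 : M) ≠ 0 := hne (MvPolynomial.X_ne_zero 2)
  refine ⟨c1 / c2, e, (b1 : ℤ) - b2, div_ne_zero hc1 hc2, ?_⟩
  rw [← he, map_mul, map_mul, e1, e2]
  simp only [map_mul, map_pow]
  rw [zpow_sub₀ hmM, zpow_sub₀ haM, zpow_natCast, zpow_natCast, zpow_natCast, zpow_natCast]
  have hcc : (cst (c1 / c2) : M) * algebraMap (R3 k) M (C c2) = algebraMap (R3 k) M (C c1) := by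
    unfold cst
    rw [← map_mul, ← C_mul, div_mul_cancel₀ _ hc2]
  have hj : (jc k 2 : M) = algebraMap (R3 k) M (X 2) := rfl
  rw [← hcc, hj]
  rw [hj] at haM
  field_simp

end Pool.Agent.R423.DMV.PF
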