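import Pool.Agent.R423.DMV.Val
import Pool.Agent.R423.DMV.A
import Pool.Agent.R423.DMV.D
import Pool.Agent.R423.DMV.E
import Pool.Agent.R423.DMV.F

noncomputable section

open MvPolynomial WithZero

namespace Pool.Agent.R423.DMV

variable {S : Model (ZMod 3) 3}


/-! ### Galois action -/

namespace GalAct

variable {Fq : Type} [Field Fq] [Fintype Fq] {m : ℕ} {T : Model Fq m} {u : T.L} (s : GalAct u)

/-- the inverse -/
def symm : GalAct u where
  base := s.base.symm
  aut := s.aut.symm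
  compat x := by
    unfold app
    rw [RingEquiv.symm_apply_eq]
    have h := s.compat (s.base.symm x)
    rw [AlgEquiv.apply_symm_apply] at h
    exact h.symm
  fixj i := by
    unfold app
    rw [RingEquiv.symm_apply_eq]
    exact (s.fixj i).symm
  fixC i y hy := by
    unfold app
    rw [RingEquiv.symm_apply_eq]
    exact (s.fixC i y hy).symm

theorem pull_symm (v : PDiv u) : s.pull (s.symm.pull v) = v := by
  apply Subtype.ext
  apply Valuation.ext
  intro x
  change v.1 (s.aut.symm (s.aut x)) = v.1 x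
  rw [RingEquiv.symm_apply_apply]

theorem pull_injective : Function.Injective s.pull := by
  intro v v' h
  apply Subtype.ext
  apply Valuation.ext
  intro x
  have := congrArg (fun z : PDiv u => z.1 (s.aut.symm x)) h
  change v.1 (s.aut (s.aut.symm x)) = v'.1 (s.aut (s.aut.symm x)) at this
  rwa [RingEquiv.apply_symm_apply] at this

theorem mapDomain_pull (D : WDiv u) (v : PDiv u) : (D.mapDomain s.pull) v = D (s.symm.pull v) := by
  conv_lhs => rw [← s.pull_symm v]
  rw [Finsupp.mapDomain_apply s.pull_injective]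

theorem mapDomain_prin (D : WDiv u) (hD : D ∈ Prin u) : D.mapDomain s.pull ∈ Prin u := by
  obtain ⟨x, hx, h⟩ := hD
  refine ⟨s.aut.symm x, by simpa using hx, fun v => ?_⟩
  rw [mapDomain_pull, h]
  rfl

end GalAct

section

variable (u : S.L) (hu : IsGen (S := S) (Polynomial.X ^ 2 + 1 : Polynomial (ZMod 3)) u)

include hu

/-! ### The divisor -/

theorem finite_centred : {v : PDiv u | Centred (k := S.k) v.1 (X 2)}.Finite := by
  have hirr : Irreducible (X 2 : R3 S.k) := (X_prime (R := S.k) (i := (2 : Fin 3))).irreducible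
  obtain ⟨v0, hs, hc⟩ := exists_centred (K := S.K) (X 2 : R3 S.k) hirr
  have hfin := @finite_extensions S.K (KU u) _ _ _ (fin_K0 u hu) (sep_K0 u hu) v0 ⟨algebraMap (R3 S.k) S.K (X 2), by
      intro h
      have h2 := (IsFractionRing.injective (R3 S.k) S.K) (h.trans (map_zero _).symm)
      exact X_ne_zero _ h2, ((hc _).2.2 dvd_rfl).ne⟩
  refine (hfin.preimage (Subtype.val_injective.injOn (s := Set.univ)|>.mono (Set.subset_univ _))).subset ?_
  intro v hv
  refine ⟨v.2.1, ?_⟩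
  exact centred_unique (X 2 : R3 S.k) hirr _ _ (fun f => hv f) hc

theorem finite_infty : {v : PDiv u | OverInfty v.1}.Finite := by
  obtain ⟨v0, hc⟩ := exists_atInf (K := S.K) (k := S.k) (wt 3 3) (by
    intro i; fin_cases i
    · change 0 < wt 3 3 0; rw [wt0]; norm_num
    · change 0 < wt 3 3 1; rw [wt1]; norm_num
    · change 0 < wt 3 3 2; rw [wt2]; norm_num)
  have hfin := @finite_extensions S.K (KU u) _ _ _ (fin_K0 u hu) (sep_K0 u hu) v0 ⟨algebraMap (R3 S.k) S.K (X 0), by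
      intro h
      have h2 := (IsFractionRing.injective (R3 S.k) S.K) (h.trans (map_zero _).symm)
      exact X_ne_zero _ h2, by
      obtain ⟨γ, hγ, h⟩ := hc
      rw [h _ (X_ne_zero _), wtd_X, wt0]
      exact (one_lt_pow₀ hγ (by norm_num)).ne'⟩
  refine (hfin.preimage (Subtype.val_injective.injOn (s := Set.univ)|>.mono (Set.subset_univ _))).subset ?_
  intro v hv
  refine ⟨v.2.1, ?_⟩
  refine atInf_unique (k := S.k) (wt 3 3) _ _ ?_ hc
  obtain ⟨γ, hγ, h⟩ := hv
  exact ⟨γ, hγ, fun f hf => h f hf⟩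

theorem finite_support : (Function.support (fun v : PDiv u => od v.1 (cc u hu) / 2)).Finite := by
  refine ((finite_centred u hu).union (finite_infty u hu)).subset ?_
  intro v hv
  rcases v.2.2 with ⟨P, hP, hc'⟩ | h
  · by_cases hd : P ∣ X 2
    · exact Or.inl (dvd_X2 u hu P hP hd v.1 hc')
    · exfalso
      have hc : Centred v.1 P := hc'
      apply hv
      simp only [od, vl, pdiv_fin u hu v P hd hc]
      simp
  · exact Or.inr h

/-- the divisor `(1/2) div c` -/
def DD : WDiv u := Finsupp.ofSupportFinite _ (finite_support u hu)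

theorem DD_apply (v : PDiv u) : DD u hu v = od v.1 (cc u hu) / 2 := rfl

theorem two_DD (v : PDiv u) : 2 * DD u hu v = od v.1 (cc u hu) := by
  rw [DD_apply]
  obtain ⟨r, hr⟩ := even_ord u hu v
  omega

theorem two_smul_DD : 2 • (cls u (DD u hu)) = 0 := by
  unfold cls
  rw [← QuotientAddGroup.mk_nsmul, QuotientAddGroup.eq_zero_iff]
  refine ⟨cc u hu, cc_ne u hu, fun v => ?_⟩
  rw [← two_DD]
  simp

theorem aut_cc (s : GalAct u) : s.aut (cc u hu) = cc u hu := by
  apply s.fixC 1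
  rw [EC_eq u hu, coeff_one_EP]
  rfl

theorem mapDomain_DD (s : GalAct u) : (DD u hu).mapDomain s.pull = DD u hu := by
  ext v
  rw [s.mapDomain_pull, DD_apply, DD_apply]
  congr 1
  unfold od vl
  congr 2
  change v.1 (s.symm.aut (cc u hu)) = _
  rw [aut_cc]

theorem rational_DD : IsRational u (cls u (DD u hu)) := by
  intro s D hD
  unfold cls at hD ⊢
  rw [QuotientAddGroup.eq] at hD
  have h := s.mapDomain_prin _ hD
  rw [Finsupp.mapDomain_add, mapDomain_DD] at h
  rw [QuotientAddGroup.eq]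
  have h2 : (-D).mapDomain s.pull = -(D.mapDomain s.pull) := by
    ext v
    rw [Finsupp.neg_apply, s.mapDomain_pull, s.mapDomain_pull, Finsupp.neg_apply]
  rwa [h2] at h

omit hu in
theorem exists_rep (x : Cl u) (hx : x ∈ Cusp u) :
    ∃ Z : WDiv u, cls u Z = x ∧ ∀ v, ¬ IsCusp v → Z v = 0 := by
  unfold Cusp at hx
  induction hx using AddSubgroup.closure_induction with
  | mem x hx =>
    obtain ⟨c, c', hc, hc', rfl⟩ := hx
    refine ⟨_, rfl, fun v hv => ?_⟩
    have h1 : c ≠ v := fun h => hv (h ▸ hc)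
    have h2 : c' ≠ v := fun h => hv (h ▸ hc')
    rw [Finsupp.sub_apply, Finsupp.single_eq_of_ne (Ne.symm h1),
      Finsupp.single_eq_of_ne (Ne.symm h2), sub_zero]
  | zero => exact ⟨0, rfl, fun v _ => rfl⟩
  | add x y _ _ hx hy =>
    obtain ⟨Z, rfl, hZ⟩ := hx
    obtain ⟨Z', rfl, hZ'⟩ := hy
    exact ⟨Z + Z', rfl, fun v hv => by rw [Finsupp.add_apply, hZ v hv, hZ' v hv, add_zero]⟩
  | neg x _ hx =>
    obtain ⟨Z, rfl, hZ⟩ := hx
    exact ⟨-Z, rfl, fun v hv => by rw [Finsupp.neg_apply, hZ v hv, neg_zero]⟩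

/-! ### The field `k(u, v, a)` -/

theorem psi_inj : Function.Injective (Psi (k := S.k) u (pp u)) := by
  have : Algebra.IsAlgebraic S.K S.L := IsAlgClosure.isAlgebraic
  exact psi_injective (K := S.K) (cF S RatFunc.X) u (pp u) (tors_of_gen u hu) (moore_ne u hu)

/-- the embedding `k(u, v, a) → L` -/
def Phi : S.K →+* S.L := IsFractionRing.lift (psi_inj u hu)

theorem Phi_algebraMap (f : R3 S.k) : Phi u hu (algebraMap (R3 S.k) S.K f) = Psi u (pp u) f :=
  IsFractionRing.lift_algebraMap (psi_inj u hu) f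

theorem exists_fg' (x : S.L) (h : x ∈ K0 u) :
    ∃ f g : R3 S.k, g ≠ 0 ∧ x * Psi u (pp u) g = Psi u (pp u) f ∧
    f * sig S.k g = sig S.k f * g := by
  refine exists_frac_of_mem (K := S.K) (cF S RatFunc.X) u (pp u) (tors_of_gen u hu) (moore_ne u hu)
    (psi_inj u hu) x ?_
  unfold K0 at h
  rwa [EC_eq u hu] at h

theorem exists_fg (x : KU u) : ∃ f g : R3 S.k, g ≠ 0 ∧ toOm u x * Psi u (pp u) g = Psi u (pp u) f ∧
    f * sig S.k g = sig S.k f * g := exists_fg' u hu x.1 x.2

theorem exists_pre (x : KU u) : ∃ y : S.K, Phi u hu y = toOm u x := by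
  obtain ⟨f, g, hg, h, _⟩ := exists_fg u hu x
  refine ⟨algebraMap (R3 S.k) S.K f / algebraMap (R3 S.k) S.K g, ?_⟩
  rw [map_div₀, Phi_algebraMap, Phi_algebraMap, div_eq_iff, h]
  rw [Ne, map_eq_zero_iff _ (psi_inj u hu)]
  exact hg

/-- the embedding of `K_0` in `k(u, v, a)` -/
def rho : KU u →+* S.K where
  toFun x := Classical.choose (exists_pre u hu x)
  map_one' := (Phi u hu).injective (by
    rw [Classical.choose_spec (exists_pre u hu 1), map_one]; rfl)
  map_mul' x y := (Phi u hu).injective (by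
    rw [Classical.choose_spec (exists_pre u hu (x * y)), map_mul,
      Classical.choose_spec (exists_pre u hu x), Classical.choose_spec (exists_pre u hu y)]; rfl)
  map_zero' := (Phi u hu).injective (by
    rw [Classical.choose_spec (exists_pre u hu 0), map_zero]; rfl)
  map_add' x y := (Phi u hu).injective (by
    rw [Classical.choose_spec (exists_pre u hu (x + y)), map_add,
      Classical.choose_spec (exists_pre u hu x), Classical.choose_spec (exists_pre u hu y)]; rfl)

theorem Phi_rho (x : KU u) : Phi u hu (rho u hu x) = toOm u x :=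
  Classical.choose_spec (exists_pre u hu x)

/-- the embedding of `k[j_2,j_3,j_4]` in `k(u, v, a)` -/
def theta : R3 S.k →+* S.K := (rho u hu).comp (algebraMap (R3 S.k) (KU u))

theorem Phi_theta (f : R3 S.k) : Phi u hu (theta u hu f) = algebraMap (R3 S.k) S.L f :=
  Phi_rho u hu _

theorem algebraMap_inj : Function.Injective (algebraMap (R3 S.k) S.L) := by
  rw [IsScalarTower.algebraMap_eq (R3 S.k) S.K S.L]
  exact (algebraMap S.K S.L).injective.comp (IsFractionRing.injective (R3 S.k) S.K)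

theorem theta_inj : Function.Injective (theta u hu) := by
  intro f g h
  apply algebraMap_inj u hu
  rw [← Phi_theta u hu, ← Phi_theta u hu, h]

theorem Phi_cst (c : S.k) : Phi u hu (cst c) = cst c := by
  unfold cst
  rw [Phi_algebraMap]
  unfold Psi
  rw [eval₂Hom_C]
  rfl

theorem Phi_jc0 : Phi u hu (jc S.k 0) = u := by
  unfold jc
  rw [Phi_algebraMap]
  unfold Psi
  rw [eval₂Hom_X']
  rfl

theorem Phi_jc1 : Phi u hu (jc S.k 1) = pp u := by
  unfold jc
  rw [Phi_algebraMap]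
  unfold Psi
  rw [eval₂Hom_X']
  rfl

theorem Phi_jc2 : Phi u hu (jc S.k 2) = jc S.k 2 := by
  conv_lhs => unfold jc
  rw [Phi_algebraMap]
  unfold Psi
  rw [eval₂Hom_X']
  rfl

theorem Phi_moore : Phi u hu (algebraMap (R3 S.k) S.K (moore (X 0) (X 1))) = moore u (pp u) := by
  have h0 := Phi_jc0 u hu
  have h1 := Phi_jc1 u hu
  unfold jc at h0 h1
  unfold moore
  simp only [map_sub, map_mul, map_pow, h0, h1]

theorem tors_theta : Tors (cst (k := S.k) (cF S RatFunc.X)) 1 (theta u hu (X 0)) (theta u hu (X 1)) (jc S.k 2)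
    (jc S.k 0) (jc S.k 1 : S.K) := by
  have h := tors_of_gen u hu
  refine ⟨(Phi u hu).injective ?_, (Phi u hu).injective ?_⟩
  · rw [Phi_jc1, ← h.1]
    unfold addPol
    simp only [map_add, map_mul, map_pow, map_one, Phi_cst, Phi_jc0, Phi_theta, Phi_jc2]
    rfl
  · rw [map_neg, Phi_jc0, ← h.2]
    unfold addPol
    simp only [map_add, map_mul, map_pow, map_one, Phi_cst, Phi_jc1, Phi_theta, Phi_jc2]
    rfl

/-! ### A divisor at infinity -/

theorem exists_infty : ∃ v : PDiv u, ∃ γ : ℤᵐ⁰, 1 < γ ∧ ∀ f : R3 S.k, f ≠ 0 →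
    v.1 (algebraMap _ (KU u) f) = γ ^ (weightedTotalDegree (wt 3 3) f) := by
  obtain ⟨v0, γ, hγ, hc⟩ := exists_atInf (K := S.K) (k := S.k) (wt 3 3) (by
    intro i; fin_cases i
    · change 0 < wt 3 3 0; rw [wt0]; norm_num
    · change 0 < wt 3 3 1; rw [wt1]; norm_num
    · change 0 < wt 3 3 2; rw [wt2]; norm_num)
  have hne : ∀ i : Fin 3, algebraMap (R3 S.k) S.K (X i) ≠ 0 := fun i h =>
    X_ne_zero _ ((IsFractionRing.injective (R3 S.k) S.K) (h.trans (map_zero _).symm))
  obtain ⟨w, hs, hw⟩ := @exists_extension S.K (KU u) _ _ _ (fin_K0 u hu) (sep_K0 u hu) v0 ⟨algebraMap (R3 S.k) S.K (X 0), hne 0, by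
      rw [hc _ (X_ne_zero _), wtd_X, wt0]
      exact (one_lt_pow₀ hγ (by norm_num)).ne'⟩
  have hγ0 : γ ≠ 0 := (lt_trans zero_lt_one hγ).ne'
  set x : S.K := algebraMap (R3 S.k) S.K (X 1) / (algebraMap (R3 S.k) S.K (X 0)) ^ 3 with hx
  have hvx : v0 x = γ := by
    rw [hx, map_div₀, map_pow, hc _ (X_ne_zero _), hc _ (X_ne_zero _), wtd_X, wtd_X, wt0, wt1,
      ← pow_mul, div_eq_iff (pow_ne_zero _ hγ0), ← pow_succ']
  have h1 : ∀ f : R3 S.k, f ≠ 0 → w (algebraMap _ (KU u) f) =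
      w (algebraMap S.K (KU u) x) ^ (weightedTotalDegree (wt 3 3) f) := fun f hf => by
    have h2 : v0 (algebraMap _ S.K f) = v0 (x ^ (weightedTotalDegree (wt 3 3) f)) := by
      rw [map_pow, hvx, hc f hf]
    have h3 := hw.eq_iff.2 h2
    rw [Valuation.comap_apply, Valuation.comap_apply, map_pow, map_pow] at h3
    exact h3
  have h2 : 1 < w (algebraMap S.K (KU u) x) := by
    have h3 : ¬ v0 x ≤ v0 1 := by rw [hvx, map_one]; exact not_le.2 hγ
    have h4 := (hw x 1).not.2 h3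
    rw [Valuation.comap_apply, Valuation.comap_apply, map_one, map_one] at h4
    exact not_le.1 h4
  exact ⟨⟨w, hs, Or.inr ⟨_, h2, fun f hf => h1 f hf⟩⟩, _, h2, fun f hf => h1 f hf⟩

/-! ### The class is not cuspidal -/

theorem exists_pdiv (Q : R3 S.k) (hQ : Irreducible Q) (hQ2 : ¬ Q ∣ X 2)
    (hQP : ¬ Q ∣ moore (X 0) (X 1)) (v : Valuation S.K ℤᵐ⁰) (hv : Centred v Q) :
    ∃ v2 : PDiv u, (∃ P : R3 S.k, ¬ P ∣ X 2 ∧ Centred v2.1 P) ∧
      ∀ x : KU u, v2.1 x = 1 → v (rho u hu x) = 1 := by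
  obtain ⟨P, hP, hP2, hP2', hc⟩ := PE.contraction_centred v Q hQ hQ2 hQP hv (theta u hu)
    (theta_inj u hu) (fun c => (Phi u hu).injective (by rw [Phi_theta, Phi_cst]; rfl))
    ((Phi u hu).injective (by rw [Phi_theta, Phi_jc2]; rfl)) (cF S RatFunc.X) (tors_theta u hu)
  obtain ⟨w, hs, hw⟩ := exists_surjective (v.comap (rho u hu)) ⟨algebraMap (R3 S.k) (KU u) P, by
    intro h
    apply hP.ne_zero
    apply algebraMap_inj u hu
    rw [map_zero]
    exact congrArg (toOm u) h, by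
    have := (hc P).2.2 dvd_rfl
    exact this.ne⟩
  have hcw : Centred w P := by
    intro f
    have h1 := hw (algebraMap (R3 S.k) (KU u) f) 1
    have h2 := hw 1 (algebraMap (R3 S.k) (KU u) f)
    rw [map_one, map_one] at h1 h2
    refine ⟨h1.2 (hc f).1, ?_⟩
    rw [← (hc f).2, ← not_le, ← not_le]
    exact h2.not
  refine ⟨⟨w, hs, Or.inl ⟨P, hP, hcw⟩⟩, ⟨P, hP2, hcw⟩, fun x hx => ?_⟩
  have h1 : w x = w 1 := by rw [map_one]; exact hx
  have h2 := hw.eq_iff.1 h1
  rw [map_one] at h2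
  exact h2

theorem not_cusp : (cls u (DD u hu)) ∉ Cusp u := by
  intro hmem
  obtain ⟨Z, hZ, hZ0⟩ := exists_rep u _ hmem
  unfold cls at hZ
  rw [QuotientAddGroup.eq] at hZ
  obtain ⟨w, hw, hwD⟩ := hZ
  obtain ⟨f, g, hg, hfg, hσ⟩ := exists_fg u hu w
  have hf : f ≠ 0 := by
    rintro rfl
    rw [map_zero, mul_eq_zero, map_eq_zero_iff _ (psi_inj u hu)] at hfg
    rcases hfg with h | h
    · exact hw (toOm_inj u h)
    · exact hg h
  have hρ : rho u hu w * algebraMap (R3 S.k) S.K g = algebraMap (R3 S.k) S.K f := by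
    apply (Phi u hu).injective
    rw [map_mul, Phi_rho, Phi_algebraMap, Phi_algebraMap, hfg]
  obtain ⟨c0, e, b, hc0, heq⟩ := PF.exponent_argument (M := S.K) f g hf hg hσ
    (fun Q hQ hQ2 hQP v hv => by
      obtain ⟨v2, ⟨P, hP2, hcP⟩, hv2⟩ := exists_pdiv u hu Q hQ hQ2 hQP v hv
      have hnc : ¬ IsCusp v2 := by
        rintro ⟨i, hi, hcu⟩
        have hi2 : i = 2 := by omega
        subst hi2
        exact hP2 ((hcP (X 2)).2.1 ((hcu (X 2)).2.2 dvd_rfl))
      have h1 := hwD v2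
      rw [Finsupp.add_apply, Finsupp.neg_apply, hZ0 v2 hnc, neg_zero, zero_add, DD_apply] at h1
      unfold od vl at h1
      rw [pdiv_fin u hu v2 P hP2 hcP] at h1
      have hne : v2.1 w ≠ 0 := (Valuation.ne_zero_iff _).2 hw
      have h2 : v2.1 w = 1 := by
        have h3 : log (v2.1 w) = 0 := by simpa using h1.symm
        rw [← WithZero.exp_log hne, h3]
        rfl
      have h3 := hv2 w h2
      rw [← hρ, map_mul, h3, one_mul])
  -- the element `w` in `K_0`
  have hwL : toOm u w = cst c0 * moore u (pp u) ^ (2 * e) * (jc S.k 2) ^ b := by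
    have h1 := congrArg (Phi u hu) heq
    rw [map_mul, map_mul, map_mul, map_zpow₀, map_zpow₀, Phi_algebraMap, Phi_algebraMap, Phi_cst,
      Phi_jc2, Phi_moore, ← hfg] at h1
    have hg' : Psi u (pp u) g ≠ 0 := by
      rw [Ne, map_eq_zero_iff _ (psi_inj u hu)]; exact hg
    apply mul_right_cancel₀ hg'
    rw [h1]; ring
  have hwK : w = algebraMap (R3 S.k) (KU u) (C c0) * cc u hu ^ e *
      (algebraMap (R3 S.k) (KU u) (X 2)) ^ b := by
    apply toOm_inj
    rw [hwL]
    have h1 : toOm u (cc u hu ^ e) = (moore u (pp u) ^ 2) ^ e :=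
      map_zpow₀ (algebraMap (KU u) S.L) (cc u hu) e
    have h2 : toOm u ((algebraMap (R3 S.k) (KU u) (X 2)) ^ b) = (jc S.k 2) ^ b :=
      map_zpow₀ (algebraMap (KU u) S.L) (algebraMap (R3 S.k) (KU u) (X 2)) b
    have h3 : moore u (pp u) ^ (2 * e) = (moore u (pp u) ^ 2) ^ e := by
      rw [zpow_mul]; norm_cast
    have h4 : ∀ x y : KU u, toOm u (x * y) = toOm u x * toOm u y := fun x y =>
      map_mul (algebraMap (KU u) S.L) x y
    rw [h4, h4, h1, h2, h3]
    rfl
  obtain ⟨v, γ, hγ, hv⟩ := exists_infty u hu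
  have hnc : ¬ IsCusp v := by
    rintro ⟨i, hi, hcu⟩
    have h1 : v.1 (algebraMap (R3 S.k) (KU u) (X 2)) ≤ 1 := (hcu (X 2)).1
    rw [hv _ (X_ne_zero _), wtd_X, wt2] at h1
    exact absurd h1 (not_le.2 (one_lt_pow₀ hγ (by norm_num)))
  have h1 := hwD v
  rw [Finsupp.add_apply, Finsupp.neg_apply, hZ0 v hnc, neg_zero, zero_add] at h1
  have h2 := two_DD u hu v
  have h3 := pdiv_inf u hu v γ hγ hv
  have hγ0 : γ ≠ 0 := (lt_trans zero_lt_one hγ).ne'
  have hcne : v.1 (cc u hu) ≠ 0 := (Valuation.ne_zero_iff _).2 (cc_ne u hu)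
  have h5 := congrArg WithZero.log h3
  rw [WithZero.log_mul hcne (pow_ne_zero _ hγ0), WithZero.log_pow, WithZero.log_one] at h5
  have hγpos : 0 < log γ := by
    rw [← WithZero.log_one]
    exact (WithZero.log_lt_log one_ne_zero hγ0).2 hγ
  have h6 : v.1 w = v.1 (cc u hu) ^ e * (γ ^ 40) ^ b := by
    conv_lhs => rw [hwK]
    rw [map_mul, map_mul, map_zpow₀, map_zpow₀, pdiv_const u v c0 hc0, one_mul,
      hv _ (X_ne_zero _), wtd_X, wt2]
  have h7 : log (v.1 w) = e * log (v.1 (cc u hu)) + b * (40 * log γ) := by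
    rw [h6, WithZero.log_mul (zpow_ne_zero _ hcne) (zpow_ne_zero _ (pow_ne_zero _ hγ0)),
      WithZero.log_zpow, WithZero.log_zpow, WithZero.log_pow]
    simp
  unfold od vl at h1 h2
  simp only [nsmul_eq_mul, Nat.cast_ofNat] at h5
  have h8 : log (v.1 (cc u hu)) = -4 * log γ := by linarith
  rw [h7, h8] at h1
  rw [h8, h1] at h2
  have h9 : log γ * (2 * e - 20 * b - 1) = 0 := by linarith
  rcases mul_eq_zero.1 h9 with h | h
  · omega
  · omega

end

/-- **Main theorem.** -/
theorem main (S : Model (ZMod 3) 3) (u : S.L)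
    (hu : IsGen (Polynomial.X ^ 2 + 1 : Polynomial (ZMod 3)) u) :
    ∃ x : Cl u, IsRational u x ∧ KilledBy 2 x ∧ ¬ InCusp x :=
  ⟨_, rational_DD u hu, two_smul_DD u hu, not_cusp u hu⟩

/-- The standard model. -/
def stdModel (Fq : Type) [Field Fq] (m : ℕ) : Model Fq m where
  k := SeparableClosure (RatFunc Fq)
  K := FractionRing (MvPolynomial (Fin m) (SeparableClosure (RatFunc Fq)))
  L := AlgebraicClosure (FractionRing (MvPolynomial (Fin m) (SeparableClosure (RatFunc Fq))))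

theorem not_Q1 : ¬ Q1 := by
  intro h
  obtain ⟨u, hu⟩ := exists_gen (stdModel (ZMod 3) 3)
  obtain ⟨x, hr, h2, hx⟩ := main _ u hu
  have hn : (Polynomial.X ^ 2 + 1 : Polynomial (ZMod 3)) ≠ 0 := by
    intro h0
    have h5 := congrArg (fun q => Polynomial.coeff q 2) h0
    simp [Polynomial.coeff_one] at h5
  have h3 := (h (ZMod 3) 3 _ (Polynomial.X ^ 2 + 1) (by norm_num) hn u hu x).1
    ⟨hr, 2, by norm_num, h2⟩
  apply hx
  unfold RatCusp at h3
  refine (AddSubgroup.closure_le _).2 ?_ h3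
  intro y hy
  exact hy.1

end Pool.Agent.R423.DMV
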