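import Pool.Agent.R423.DMV.Concrete2
import Pool.Agent.R423.DMV.B
import Pool.Agent.R423.DMV.C

noncomputable section

open MvPolynomial WithZero

namespace Pool.Agent.R423.DMV

variable {S : Model (ZMod 3) 3}


theorem pp_add (x y : S.L) : pp (x + y) = pp x + pp y := phiL.map_add x y

theorem pp_sub (x y : S.L) : pp (x - y) = pp x - pp y := phiL.map_sub x y

theorem moore_factor {L : Type} [CommRing L] (u v : L) :
    moore u v = u * v * (u + v) * (v - u) := by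
  unfold moore; ring

theorem wtd_X {k : Type} [Field k] (i : Fin 3) :
    weightedTotalDegree (wt 3 3) (X i : R3 k) = wt 3 3 i := by
  unfold weightedTotalDegree
  rw [support_X, Finset.sup_singleton, Finsupp.weight_single]
  simp

theorem wtd_C {k : Type} [Field k] (x : k) :
    weightedTotalDegree (wt 3 3) (C x : R3 k) = 0 := by
  unfold weightedTotalDegree
  apply le_antisymm _ (Nat.zero_le _)
  rw [Finset.sup_le_iff]
  intro s hs
  have : s = 0 := by
    by_contra h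
    rw [mem_support_iff, coeff_C, if_neg (Ne.symm h)] at hs
    exact hs rfl
  rw [this]; simp

theorem wt0 : wt 3 3 0 = 4 := by unfold wt; simp [Finset.sum_range_succ]
theorem wt1 : wt 3 3 1 = 13 := by unfold wt; simp [Finset.sum_range_succ]
theorem wt2 : wt 3 3 2 = 40 := by unfold wt; simp [Finset.sum_range_succ]

section

variable (u : S.L) (hu : IsGen (S := S) (Polynomial.X ^ 2 + 1 : Polynomial (ZMod 3)) u)

abbrev KU : Type := KZ u

theorem toOm_inj {x y : KU u} (h : toOm u x = toOm u y) : x = y := Subtype.ext h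

theorem pdiv_cases (v : PDiv u) : (∃ P : R3 S.k, Irreducible P ∧ Centred v.1 P) ∨
    (∃ γ : ℤᵐ⁰, 1 < γ ∧ ∀ f : R3 S.k, f ≠ 0 →
      v.1 (algebraMap _ (KU u) f) = γ ^ (weightedTotalDegree (wt 3 3) f)) := v.2.2

theorem pdiv_const (v : PDiv u) (x : S.k) (hx : x ≠ 0) :
    v.1 (algebraMap (R3 S.k) (KU u) (C x)) = 1 := by
  rcases pdiv_cases u v with ⟨P, hP, hc⟩ | ⟨γ, hγ, h⟩
  · apply le_antisymm (hc _).1
    rw [← not_lt, (hc _).2]
    intro hd
    exact hP.not_isUnit (isUnit_of_dvd_unit hd ((IsUnit.mk0 x hx).map C))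
  · rw [h _ (by rw [Ne, C_eq_zero]; exact hx), wtd_C, pow_zero]

/-- an extension of `v` to the algebraic closure -/
theorem exists_nu (v : PDiv u) : ∃ (Γ : Type) (_ : LinearOrderedCommGroupWithZero Γ)
    (ν : Valuation S.L Γ), ∀ x y : KU u, (ν (toOm u x) ≤ ν (toOm u y) ↔ v.1 x ≤ v.1 y) := by
  obtain ⟨Γ, i, ν, hν⟩ := exists_extension_big (L := S.L) v.1
  exact ⟨Γ, i, ν, fun x y => hν x y⟩

include hu

/-- the element `c = ∏_{w ∈ C, w ≠ 0} w` of `K_0` -/
def cc : KU u := (⟨moore u (pp u) ^ 2, c_mem u hu⟩ : K0 u)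

theorem tors1 : Tors (cst (k := S.k) (cF S RatFunc.X)) 1 (jc S.k 0) (jc S.k 1) (jc S.k 2) u (pp u) :=
  tors_of_gen u hu

theorem tors2 : Tors (cst (k := S.k) (cF S RatFunc.X)) 1 (jc S.k 0) (jc S.k 1) (jc S.k 2) (u + pp u) (pp u - u) := by
  refine ⟨?_, ?_⟩
  · change pp (u + pp u) = _
    rw [pp_add, pp_pp u hu]; ring
  · change pp (pp u - u) = _
    rw [pp_sub, pp_pp u hu]; ring

theorem factors_ne : u ≠ 0 ∧ pp u ≠ 0 ∧ u + pp u ≠ 0 ∧ pp u - u ≠ 0 := by
  have h := moore_ne u hu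
  rw [moore_factor] at h
  refine ⟨?_, ?_, ?_, ?_⟩ <;> (intro h0; apply h; rw [h0]; ring)

theorem nu_facts {Γ : Type} [LinearOrderedCommGroupWithZero Γ] (v : PDiv u)
    (ν : Valuation S.L Γ) (hν : ∀ x y : KU u, (ν (toOm u x) ≤ ν (toOm u y) ↔ v.1 x ≤ v.1 y)) :
    ν (cst (k := S.k) (cF S RatFunc.X)) ≤ 1 ∧ ν ((cst (k := S.k) (cF S RatFunc.X) : S.L) ^ 2 + 1) = 1 := by
  have e1 : ∀ x y : KU u, ν (toOm u x) = ν (toOm u y) ↔ v.1 x = v.1 y := fun x y => by
    rw [le_antisymm_iff, le_antisymm_iff, hν, hν]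
  have e2 : ∀ x : S.k, x ≠ 0 → ν (cst (k := S.k) x) = 1 := fun x hx => by
    have := (e1 (algebraMap (R3 S.k) (KU u) (C x)) 1).2 (by
      rw [pdiv_const u v x hx, map_one])
    rw [← map_one ν]
    exact this
  have ht : (cF S RatFunc.X) ≠ 0 := by
    intro h
    have h1 : (algebraMap (RatFunc (ZMod 3)) S.k) RatFunc.X = 0 := h
    exact RatFunc.X_ne_zero
      ((map_eq_zero_iff _ (algebraMap (RatFunc (ZMod 3)) S.k).injective).1 h1)
  refine ⟨(e2 (cF S RatFunc.X) ht).le, ?_⟩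
  have h1 : (cst (k := S.k) (cF S RatFunc.X) : S.L) ^ 2 + 1 = cst (k := S.k) ((cF S RatFunc.X) ^ 2 + 1) := by
    unfold cst
    simp [map_add, map_pow, map_one]
  rw [h1]
  exact e2 _ t3_ne

theorem pdiv_fin (v : PDiv u) (P : R3 S.k) (hP : ¬ P ∣ X 2)
    (hc : Centred v.1 P) : v.1 (cc u hu) = 1 := by
  obtain ⟨Γ, _, ν, hν⟩ := exists_nu u v
  obtain ⟨ht, ht'⟩ := nu_facts u hu v ν hν
  have e1 : ∀ x y : KU u, ν (toOm u x) = ν (toOm u y) ↔ v.1 x = v.1 y := fun x y => by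
    rw [le_antisymm_iff, le_antisymm_iff, hν, hν]
  have hle : ∀ i : Fin 3, ν (jc S.k i) ≤ 1 := fun i => by
    rw [← map_one ν]
    exact (hν (algebraMap (R3 S.k) (KU u) (X i)) 1).2 (by rw [map_one]; exact (hc _).1)
  have h2 : ν (jc S.k 2) = 1 := by
    rw [← map_one ν]
    refine (e1 (algebraMap (R3 S.k) (KU u) (X 2)) 1).2 ?_
    rw [map_one]
    apply le_antisymm (hc _).1
    rw [← not_lt, (hc _).2]
    exact hP
  obtain ⟨f1, f2, f3, f4⟩ := factors_ne u hu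
  obtain ⟨a1, a2⟩ := good_reduction ν _ _ _ _ _ _ _ ht ht' (map_one ν).le (hle 0) (hle 1) h2 f1
    (tors1 u hu)
  obtain ⟨a3, a4⟩ := good_reduction ν _ _ _ _ _ _ _ ht ht' (map_one ν).le (hle 0) (hle 1) h2 f3
    (tors2 u hu)
  have h3 : ν (toOm u (cc u hu)) = 1 := by
    change ν (moore u (pp u) ^ 2) = 1
    rw [map_pow, moore_factor, map_mul, map_mul, map_mul, a1, a2, a3, a4]
    simp
  have h4 := (e1 (cc u hu) 1).1 (by rw [h3]; exact (map_one ν).symm)
  rw [h4, map_one]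

theorem pdiv_inf (v : PDiv u) (γ : ℤᵐ⁰) (hγ : 1 < γ) (h : ∀ f : R3 S.k, f ≠ 0 →
    v.1 (algebraMap _ (KU u) f) = γ ^ (weightedTotalDegree (wt 3 3) f)) :
    v.1 (cc u hu) * γ ^ 4 = 1 := by
  obtain ⟨Γ, _, ν, hν⟩ := exists_nu u v
  obtain ⟨ht, ht'⟩ := nu_facts u hu v ν hν
  have e1 : ∀ x y : KU u, ν (toOm u x) = ν (toOm u y) ↔ v.1 x = v.1 y := fun x y => by
    rw [le_antisymm_iff, le_antisymm_iff, hν, hν]
  obtain ⟨b, hb'⟩ := v.2.1 γ
  have hb : v.1 b = γ := hb'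
  have hj : ∀ i : Fin 3, ν (jc S.k i) = ν (toOm u b) ^ (wt 3 3 i) := fun i => by
    rw [← map_pow]
    refine (e1 (algebraMap (R3 S.k) (KU u) (X i)) (b ^ (wt 3 3 i))).2 ?_
    rw [h _ (X_ne_zero i), wtd_X, map_pow, hb]
  have hb1 : 1 < ν (toOm u b) := by
    rw [← map_one ν]
    have := (hν b 1).not.2 (by rw [hb, map_one]; exact not_le.2 hγ)
    exact not_le.1 this
  obtain ⟨f1, f2, f3, f4⟩ := factors_ne u hu
  have : IsAlgClosed S.L := IsAlgClosure.isAlgClosed S.K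
  obtain ⟨a1, a2⟩ := infty_reduction ν _ _ _ _ _ _ ht ht' _ hb1 (by rw [hj, wt0])
    (by rw [hj, wt1]) (by rw [hj, wt2]) f1 (tors1 u hu)
  obtain ⟨a3, a4⟩ := infty_reduction ν _ _ _ _ _ _ ht ht' _ hb1 (by rw [hj, wt0])
    (by rw [hj, wt1]) (by rw [hj, wt2]) f3 (tors2 u hu)
  have h3 : ν (toOm u (cc u hu * b ^ 4)) = 1 := by
    change ν (moore u (pp u) ^ 2 * (toOm u b) ^ 4) = 1
    rw [map_mul, map_pow, map_pow, moore_factor, map_mul, map_mul, map_mul]
    calc (ν u * ν (pp u) * ν (u + pp u) * ν (pp u - u)) ^ 2 * ν (toOm u b) ^ 4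
        = (ν u ^ 2 * ν (toOm u b)) * (ν (pp u) ^ 2 * ν (toOm u b)) *
          ((ν (u + pp u)) ^ 2 * ν (toOm u b)) * ((ν (pp u - u)) ^ 2 * ν (toOm u b)) := by
          simp only [pow_succ, pow_zero, one_mul]
          ac_rfl
      _ = 1 := by rw [a1, a2, a3, a4]; simp
  have h4 := (e1 (cc u hu * b ^ 4) 1).1 (by rw [h3]; exact (map_one ν).symm)
  rw [map_mul, map_pow, hb, map_one] at h4
  exact h4

theorem pdiv_cusp (v : PDiv u)
    (hc : Centred (k := S.k) v.1 (X 2)) : v.1 (cc u hu) = 1 ∨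
      ∃ s : ℕ, Even s ∧
        v.1 (cc u hu) ^ 729 * v.1 (algebraMap (R3 S.k) (KU u) (X 2)) ^ s = 1 := by
  obtain ⟨Γ, _, ν, hν⟩ := exists_nu u v
  obtain ⟨ht, ht'⟩ := nu_facts u hu v ν hν
  have e1 : ∀ x y : KU u, ν (toOm u x) = ν (toOm u y) ↔ v.1 x = v.1 y := fun x y => by
    rw [le_antisymm_iff, le_antisymm_iff, hν, hν]
  have hle : ∀ i : Fin 3, ν (jc S.k i) ≤ 1 := fun i => by
    rw [← map_one ν]
    exact (hν (algebraMap (R3 S.k) (KU u) (X i)) 1).2 (by rw [map_one]; exact (hc _).1)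
  have h1 : ν (jc S.k 1) = 1 := by
    rw [← map_one ν]
    refine (e1 (algebraMap (R3 S.k) (KU u) (X 1)) 1).2 ?_
    rw [map_one]
    apply le_antisymm (hc _).1
    rw [← not_lt, (hc _).2, X_dvd_X]
    decide
  have h2 : ν (jc S.k 2) < 1 := by
    rw [← map_one ν]
    have := (hν 1 (algebraMap (R3 S.k) (KU u) (X 2))).not.2 (by
      rw [map_one]; exact not_le.2 ((hc _).2.2 dvd_rfl))
    exact not_le.1 this
  rcases cusp_reduction ν _ _ _ _ _ _ ht ht' (hle 0) h1 h2 (jc_ne 2) (moore_ne u hu)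
    (tors1 u hu) with h | ⟨s, hs, h⟩
  · left
    have h4 := (e1 (cc u hu) 1).1 (by
      change ν (moore u (pp u) ^ 2) = _
      rw [h]; exact (map_one ν).symm)
    rw [h4, map_one]
  · right
    refine ⟨s, hs, ?_⟩
    have h4 := (e1 (cc u hu ^ 729 * (algebraMap (R3 S.k) (KU u) (X 2)) ^ s) 1).1 (by
      change ν ((moore u (pp u) ^ 2) ^ 729 * (jc S.k 2) ^ s) = _
      rw [map_mul, map_pow, map_pow ν (jc S.k 2)]
      rw [h]; exact (map_one ν).symm)
    rw [map_mul, map_pow, map_pow, map_one] at h4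
    exact h4

theorem cc_ne : cc u hu ≠ 0 := by
  intro h
  have h1 : moore u (pp u) ^ 2 = 0 := congrArg (toOm u) h
  exact moore_ne u hu (pow_eq_zero_iff (by norm_num) |>.1 h1)

theorem dvd_X2 (P : R3 S.k) (hP : Irreducible P) (h : P ∣ X 2) (v : Valuation (KU u) ℤᵐ⁰)
    (hc : Centred v P) :
    Centred (k := S.k) v (X 2) := by
  have h2 : (X 2 : R3 S.k) ∣ P := hP.dvd_symm (X_prime (R := S.k) (i := (2 : Fin 3))).irreducible h
  intro f
  refine ⟨(hc f).1, (hc f).2.trans ⟨fun h3 => h2.trans h3, fun h3 => h.trans h3⟩⟩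

theorem even_ord (v : PDiv u) : Even (od v.1 (cc u hu)) := by
  unfold od vl
  rw [even_neg]
  have hne : v.1 (cc u hu) ≠ 0 := (Valuation.ne_zero_iff _).2 (cc_ne u hu)
  rcases pdiv_cases u v with ⟨P, hP, hc⟩ | ⟨γ, hγ, h⟩
  · by_cases hd : P ∣ X 2
    · rcases pdiv_cusp u hu v (dvd_X2 u hu P hP hd v.1 hc) with h | ⟨s, hs, h⟩
      · rw [h]; simp
      · have hne2 : v.1 (algebraMap (R3 S.k) (KU u) (X 2)) ≠ 0 := by
          rw [Valuation.ne_zero_iff]
          intro h0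
          exact jc_ne 2 (congrArg (toOm u) h0)
        have h5 := congrArg WithZero.log h
        rw [WithZero.log_mul (pow_ne_zero _ hne) (pow_ne_zero _ hne2), WithZero.log_pow,
          WithZero.log_pow, WithZero.log_one] at h5
        obtain ⟨r, hr⟩ := hs
        have h6 : (729 : ℤ) * log (v.1 (cc u hu)) =
          2 * (- (r : ℤ) * log (v.1 (algebraMap (R3 S.k) (KU u) (X 2)))) := by
          have : (s : ℤ) = 2 * r := by rw [hr]; push_cast; ring
          simp only [nsmul_eq_mul, Nat.cast_ofNat, this] at h5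
          linarith
        have h7 : Even ((729 : ℤ) * log (v.1 (cc u hu))) := by
          rw [h6]; exact even_two_mul _
        rcases Int.even_mul.1 h7 with h8 | h8
        · exact absurd h8 (by decide)
        · exact h8
    · rw [pdiv_fin u hu v P hd hc]; simp
  · have h1 := pdiv_inf u hu v γ hγ h
    have hγ0 : γ ≠ 0 := (lt_trans zero_lt_one hγ).ne'
    have h5 := congrArg WithZero.log h1
    rw [WithZero.log_mul hne (pow_ne_zero _ hγ0), WithZero.log_pow, WithZero.log_one] at h5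
    refine ⟨-2 * log γ, ?_⟩
    simp only [nsmul_eq_mul, Nat.cast_ofNat] at h5
    linarith

end

end Pool.Agent.R423.DMV
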